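import Mathlib

set_option linter.all false

section

namespace Pool.Agent.MP_80dd36_co

open Polynomial Finset

set_option linter.unusedSectionVars false
set_option linter.unusedSimpArgs false

variable {F : Type*} [Field F] [DecidableEq F]

/-- a finite set of roots of a polynomial with a nonzero coefficient has at most `t` elements -/
theorem card_le_of_roots (P : F[X]) (t k : ℕ) (hdeg : P.natDegree ≤ t) (hk : P.coeff k ≠ 0)
    (S : Finset F) (hS : ∀ x ∈ S, P.eval x = 0) : S.card ≤ t := by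
  have hP : P ≠ 0 := by
    intro h; rw [h] at hk; simp at hk
  have : S.val ⊆ P.roots := by
    intro x hx
    rw [mem_roots hP]; exact hS x hx
  exact (card_le_degree_of_subset_roots this).trans hdeg

theorem card_le_two_of_quad (A B C' : F) (hA : A ≠ 0) (S : Finset F)
    (hS : ∀ x ∈ S, A * x ^ 2 + B * x + C' = 0) : S.card ≤ 2 := by
  apply card_le_of_roots (C A * X ^ 2 + C B * X + C C') 2 2 natDegree_quadratic_le
  · simp [coeff_X, coeff_C, hA]
  · intro x hx; simpa using hS x hx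

/-- the key root count -/
theorem card_le_of_curve (t : ℕ) (ht : 4 ≤ t) (ν : F) (hν : ¬ IsSquare ν) (d : F[X])
    (hd : d.natDegree ≤ t) (hdt : d.coeff t = -ν) (a b c a' b' c' : F) (S : Finset F)
    (hS : ∀ u ∈ S, (a * u ^ 2 + b * u + c) ^ 2 + d.eval u + (a' * u ^ 2 + b' * u + c') = 0) :
    S.card ≤ t := by
  have hν0 : ν ≠ 0 := by rintro rfl; exact hν IsSquare.zero
  set φ : F[X] := C a * X ^ 2 + C b * X + C c with hφ
  set ψ : F[X] := C a' * X ^ 2 + C b' * X + C c' with hψ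
  have hφd : φ.natDegree ≤ 2 := natDegree_quadratic_le
  have hψd : ψ.natDegree ≤ 2 := natDegree_quadratic_le
  have hφ2 : (φ ^ 2).natDegree ≤ 4 := natDegree_pow_le.trans (by omega)
  apply card_le_of_roots (φ ^ 2 + d + ψ) t t
  · refine (natDegree_add_le _ _).trans (max_le ((natDegree_add_le _ _).trans
      (max_le (by omega) hd)) (by omega))
  · rw [coeff_add, coeff_add, hdt, coeff_eq_zero_of_natDegree_lt (p := ψ) (by omega)]
    rcases Nat.eq_or_lt_of_le ht with h | h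
    · subst h
      have : (φ ^ 2).coeff 4 = a ^ 2 := by
        have h2 := coeff_pow_of_natDegree_le (m := 2) hφd
        rw [h2]; simp [hφ, coeff_X, coeff_C]
      rw [this]
      intro h0
      apply hν
      exact ⟨a, by linear_combination -h0⟩
    · rw [coeff_eq_zero_of_natDegree_lt (p := φ ^ 2) (by omega)]
      simpa using hν0
  · intro u hu
    simpa [hφ, hψ] using hS u hu

/-- the pairing -/
def pr (c d : F[X]) (x y u v : F) : F :=
  x * (v ^ 2 + d.eval u) + u * (y ^ 2 + c.eval x) + x ^ 2 * u ^ 2 + y * v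

omit [DecidableEq F] in
theorem pr_comm (c d : F[X]) (x y u v : F) : pr c d x y u v = pr d c u v x y := by
  unfold pr; ring

theorem count_aux (t : ℕ) (ht : 4 ≤ t) (ν : F) (hν : ¬ IsSquare ν) (c d : F[X])
    (hd : d.natDegree ≤ t) (hdt : d.coeff t = -ν) (x₁ y₁ x₂ y₂ x₃ y₃ e₂ e₃ : F)
    (h12 : x₂ ≠ x₁) (h13 : (x₃, y₃) ≠ (x₁, y₁)) (h23 : (x₃, y₃) ≠ (x₂, y₂))
    (S : Finset (F × F))
    (hS₂ : ∀ w ∈ S, pr c d x₂ y₂ w.1 w.2 - pr c d x₁ y₁ w.1 w.2 = e₂)
    (hS₃ : ∀ w ∈ S, pr c d x₃ y₃ w.1 w.2 - pr c d x₁ y₁ w.1 w.2 = e₃) : S.card ≤ t := by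
  have hdx : x₂ - x₁ ≠ 0 := sub_ne_zero.2 h12
  set f₂ := (y₂ ^ 2 + c.eval x₂) - (y₁ ^ 2 + c.eval x₁) with hf₂
  set f₃ := (y₃ ^ 2 + c.eval x₃) - (y₁ ^ 2 + c.eval x₁) with hf₃
  set A := (x₂ - x₁) * (x₃ - x₁) * (x₃ - x₂) with hA
  set B := (x₂ - x₁) * f₃ - (x₃ - x₁) * f₂ with hB
  set Cc := (x₂ - x₁) * (y₃ - y₁) - (x₃ - x₁) * (y₂ - y₁) with hC
  set D := (x₂ - x₁) * e₃ - (x₃ - x₁) * e₂ with hD
  have hE : ∀ w ∈ S, A * w.1 ^ 2 + B * w.1 + Cc * w.2 = D := by
    intro w hw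
    have h2 := hS₂ w hw
    have h3 := hS₃ w hw
    unfold pr at h2 h3
    rw [hA, hB, hC, hD, hf₂, hf₃]
    linear_combination (x₂ - x₁) * h3 - (x₃ - x₁) * h2
  have hE2 : ∀ w ∈ S, (x₂ - x₁) * (w.2 ^ 2 + d.eval w.1) + f₂ * w.1 + (x₂ ^ 2 - x₁ ^ 2) * w.1 ^ 2
      + (y₂ - y₁) * w.2 = e₂ := by
    intro w hw
    have h2 := hS₂ w hw
    unfold pr at h2
    rw [hf₂]
    linear_combination h2
  by_cases hC0 : Cc = 0
  · have hA0 : A ≠ 0 := by
      intro hA0
      rcases mul_eq_zero.1 hA0 with h | h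
      · rcases mul_eq_zero.1 h with h | h
        · exact hdx h
        · apply h13
          have h' : (x₂ - x₁) * (y₃ - y₁) = 0 := by
            rw [hC, h] at hC0; linear_combination hC0
          have h'' := (mul_eq_zero.1 h').resolve_left hdx
          rw [Prod.mk.injEq]; exact ⟨by linear_combination h, by linear_combination h''⟩
      · apply h23
        have h' : (x₂ - x₁) * (y₃ - y₂) = 0 := by
          rw [hC] at hC0; linear_combination hC0 + (y₂ - y₁) * h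
        have h'' := (mul_eq_zero.1 h').resolve_left hdx
        rw [Prod.mk.injEq]; exact ⟨by linear_combination h, by linear_combination h''⟩
    have h1 : (S.image Prod.fst).card ≤ 2 := by
      apply card_le_two_of_quad A B (-D) hA0
      intro u hu
      obtain ⟨w, hw, rfl⟩ := mem_image.1 hu
      have := hE w hw
      rw [hC0] at this
      linear_combination this
    have h2 : S.card ≤ 2 * (S.image Prod.fst).card := by
      apply card_le_mul_card_image
      intro u _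
      have hinj : Set.InjOn Prod.snd ((S.filter (fun w => w.1 = u) : Finset (F × F)) : Set (F × F)) := by
        intro w hw w' hw' h
        have e1 := (mem_filter.1 hw).2
        have e2 := (mem_filter.1 hw').2
        exact Prod.ext (e1.trans e2.symm) h
      rw [← card_image_of_injOn hinj]
      apply card_le_two_of_quad (x₂ - x₁) (y₂ - y₁)
        ((x₂ - x₁) * d.eval u + f₂ * u + (x₂ ^ 2 - x₁ ^ 2) * u ^ 2 - e₂) hdx
      intro v hv
      obtain ⟨w, hw, rfl⟩ := mem_image.1 hv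
      obtain ⟨hw', rfl⟩ := mem_filter.1 hw
      linear_combination hE2 w hw'
    omega
  · have hv : ∀ w ∈ S, w.2 = (-A / Cc) * w.1 ^ 2 + (-B / Cc) * w.1 + D / Cc := by
      intro w hw
      have := hE w hw
      field_simp
      linear_combination this
    have hinj : Set.InjOn Prod.fst (S : Set (F × F)) := by
      intro w hw w' hw' h
      refine Prod.ext h ?_
      rw [hv w hw, hv w' hw', h]
    rw [← card_image_of_injOn hinj]
    apply card_le_of_curve t ht ν hν d hd hdt (-A / Cc) (-B / Cc) (D / Cc)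
      (((x₂ ^ 2 - x₁ ^ 2) + (y₂ - y₁) * (-A / Cc)) / (x₂ - x₁))
      ((f₂ + (y₂ - y₁) * (-B / Cc)) / (x₂ - x₁))
      (((y₂ - y₁) * (D / Cc) - e₂) / (x₂ - x₁))
    intro u hu
    obtain ⟨w, hw, rfl⟩ := mem_image.1 hu
    have h2 := hE2 w hw
    have h3 := hv w hw
    rw [← h3]
    apply mul_left_cancel₀ hdx
    have e : ∀ z : F, (x₂ - x₁) * (z / (x₂ - x₁)) = z := fun z => mul_div_cancel₀ z hdx
    have e1 := e ((x₂ ^ 2 - x₁ ^ 2) + (y₂ - y₁) * (-A / Cc))
    have e2 := e (f₂ + (y₂ - y₁) * (-B / Cc))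
    have e3 := e ((y₂ - y₁) * (D / Cc) - e₂)
    linear_combination h2 + w.1 ^ 2 * e1 + w.1 * e2 + e3 - (y₂ - y₁) * h3

theorem count_main (t : ℕ) (ht : 4 ≤ t) (ν : F) (hν : ¬ IsSquare ν) (c d : F[X])
    (hd : d.natDegree ≤ t) (hdt : d.coeff t = -ν) (x₁ y₁ x₂ y₂ x₃ y₃ e₂ e₃ : F)
    (h12 : (x₂, y₂) ≠ (x₁, y₁)) (h13 : (x₃, y₃) ≠ (x₁, y₁)) (h23 : (x₃, y₃) ≠ (x₂, y₂))
    (S : Finset (F × F))
    (hS₂ : ∀ w ∈ S, pr c d x₂ y₂ w.1 w.2 - pr c d x₁ y₁ w.1 w.2 = e₂)
    (hS₃ : ∀ w ∈ S, pr c d x₃ y₃ w.1 w.2 - pr c d x₁ y₁ w.1 w.2 = e₃) : S.card ≤ t := by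
  by_cases h2 : x₂ = x₁
  · by_cases h3 : x₃ = x₁
    · subst h2 h3
      have hy2 : y₂ - y₁ ≠ 0 := fun h => h12 (by rw [sub_eq_zero.1 h])
      have hy3 : y₃ - y₁ ≠ 0 := fun h => h13 (by rw [sub_eq_zero.1 h])
      have hy23 : y₃ - y₂ ≠ 0 := fun h => h23 (by rw [sub_eq_zero.1 h])
      have : S.card ≤ 1 := by
        rw [card_le_one]
        intro w hw w' hw'
        have a2 := hS₂ w hw
        have a3 := hS₃ w hw
        have b2 := hS₂ w' hw'
        have b3 := hS₃ w' hw'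
        unfold pr at a2 a3 b2 b3
        have c2 : (y₂ + y₁) * (w.1 - w'.1) + (w.2 - w'.2) = 0 := by
          apply mul_left_cancel₀ hy2
          linear_combination a2 - b2
        have c3 : (y₃ + y₁) * (w.1 - w'.1) + (w.2 - w'.2) = 0 := by
          apply mul_left_cancel₀ hy3
          linear_combination a3 - b3
        have c4 : w.1 - w'.1 = 0 := by
          apply mul_left_cancel₀ hy23
          linear_combination c3 - c2
        refine Prod.ext (sub_eq_zero.1 c4) (sub_eq_zero.1 ?_)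
        rw [c4] at c2; linear_combination c2
      omega
    · exact count_aux t ht ν hν c d hd hdt x₁ y₁ x₃ y₃ x₂ y₂ e₃ e₂ h3 h12 h23.symm S hS₃ hS₂
  · exact count_aux t ht ν hν c d hd hdt x₁ y₁ x₂ y₂ x₃ y₃ e₂ e₃ h2 h13 h23 S hS₂ hS₃

/-- the bipartite graph -/
def gr (c : Bool → F[X]) : SimpleGraph (Bool × F × F × F) where
  Adj p q := p.1 ≠ q.1 ∧ p.2.2.2 + q.2.2.2 = pr (c p.1) (c q.1) p.2.1 p.2.2.1 q.2.1 q.2.2.1
  symm := ⟨fun p q h => ⟨h.1.symm, by rw [add_comm, h.2, pr_comm]⟩⟩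
  loopless := ⟨fun p h => h.1 rfl⟩

theorem gr_common (t : ℕ) (ht : 4 ≤ t) (ν : F) (hν : ¬ IsSquare ν) (c : Bool → F[X])
    (hd : ∀ s, (c s).natDegree ≤ t) (hdt : ∀ s, (c s).coeff t = -ν)
    (p₁ p₂ p₃ : Bool × F × F × F) (h12 : p₂ ≠ p₁) (h13 : p₃ ≠ p₁) (h23 : p₃ ≠ p₂)
    (T : Finset (Bool × F × F × F))
    (hT : ∀ w ∈ T, (gr c).Adj p₁ w ∧ (gr c).Adj p₂ w ∧ (gr c).Adj p₃ w) : T.card ≤ t := by
  rcases T.eq_empty_or_nonempty with rfl | ⟨w₀, hw₀⟩
  · simp
  obtain ⟨s₁, x₁, y₁, a₁⟩ := p₁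
  obtain ⟨s₂, x₂, y₂, a₂⟩ := p₂
  obtain ⟨s₃, x₃, y₃, a₃⟩ := p₃
  have hb : ∀ a b c : Bool, a ≠ c → b ≠ c → b = a := by decide
  have hb' : ∀ a c : Bool, a ≠ c → c = !a := by decide
  obtain ⟨⟨k1, l1⟩, ⟨k2, l2⟩, ⟨k3, l3⟩⟩ := hT w₀ hw₀
  dsimp only at k1 k2 k3 l1 l2 l3
  obtain rfl := hb _ _ _ k1 k2
  obtain rfl := hb _ _ _ k1 k3
  have g12 : (x₂, y₂) ≠ (x₁, y₁) := by
    intro h
    obtain ⟨rfl, rfl⟩ := Prod.mk.inj h
    apply h12
    have : a₂ = a₁ := by linear_combination l2 - l1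
    rw [this]
  have g13 : (x₃, y₃) ≠ (x₁, y₁) := by
    intro h
    obtain ⟨rfl, rfl⟩ := Prod.mk.inj h
    apply h13
    have : a₃ = a₁ := by linear_combination l3 - l1
    rw [this]
  have g23 : (x₃, y₃) ≠ (x₂, y₂) := by
    intro h
    obtain ⟨rfl, rfl⟩ := Prod.mk.inj h
    apply h23
    have : a₃ = a₂ := by linear_combination l3 - l2
    rw [this]
  have hs : ∀ w ∈ T, w.1 = !s₃ := fun w hw => hb' _ _ (hT w hw).1.1
  have hinj : Set.InjOn (fun w : Bool × F × F × F => (w.2.1, w.2.2.1)) (T : Set _) := by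
    intro w hw w' hw' h
    have e1 := (hT w hw).1.2
    have e2 := (hT w' hw').1.2
    have f1 := hs w hw
    have f2 := hs w' hw'
    obtain ⟨s, u, v, b⟩ := w
    obtain ⟨s', u', v', b'⟩ := w'
    dsimp only at h e1 e2 f1 f2
    obtain ⟨rfl, rfl⟩ := Prod.mk.inj h
    subst f1 f2
    have : b = b' := by linear_combination e1 - e2
    rw [this]
  rw [← card_image_of_injOn hinj]
  apply count_main t ht ν hν (c s₃) (c (!s₃)) (hd _) (hdt _) x₁ y₁ x₂ y₂ x₃ y₃ (a₂ - a₁) (a₃ - a₁)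
    g12 g13 g23
  · intro w' hw'
    obtain ⟨w, hw, rfl⟩ := mem_image.1 hw'
    have e1 := (hT w hw).1.2
    have e2 := (hT w hw).2.1.2
    dsimp only at e1 e2 ⊢
    rw [hs w hw] at e1 e2
    linear_combination e1 - e2
  · intro w' hw'
    obtain ⟨w, hw, rfl⟩ := mem_image.1 hw'
    have e1 := (hT w hw).1.2
    have e2 := (hT w hw).2.2.2
    dsimp only at e1 e2 ⊢
    rw [hs w hw] at e1 e2
    linear_combination e1 - e2

end Pool.Agent.MP_80dd36_co

end

section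

namespace Pool.Agent.MP_80dd36_co

open Polynomial Finset SimpleGraph

set_option linter.unusedSectionVars false
set_option linter.unusedSimpArgs false

variable {F : Type*} [Field F] [DecidableEq F]

noncomputable def qd (a b c : F) : F[X] := C a * X ^ 2 + C b * X + C c

@[simp] theorem qd_eval (a b c x : F) : (qd a b c).eval x = a * x ^ 2 + b * x + c := by
  simp [qd]

theorem qd_deg (a b c : F) : (qd a b c).natDegree ≤ 2 := natDegree_quadratic_le

noncomputable def mkc (ν : F) {t : ℕ} (φ ψ : F[X]) (τ : Fin t ↪ F) : F[X] :=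
  C (-ν + (φ ^ 2 - ψ).coeff t) * ∏ i, (X - C (τ i)) - (φ ^ 2 - ψ)

theorem prod_monic {t : ℕ} (τ : Fin t ↪ F) : (∏ i, (X - C (τ i)) : F[X]).Monic :=
  monic_prod_of_monic _ _ fun _ _ => monic_X_sub_C _

theorem prod_deg {t : ℕ} (τ : Fin t ↪ F) : (∏ i, (X - C (τ i)) : F[X]).natDegree = t := by
  rw [natDegree_prod_of_monic _ _ fun _ _ => monic_X_sub_C _]
  simp

theorem mkc_deg (ν : F) {t : ℕ} (ht : 4 ≤ t) (φ ψ : F[X]) (hφ : φ.natDegree ≤ 2)
    (hψ : ψ.natDegree ≤ 2) (τ : Fin t ↪ F) : (mkc ν φ ψ τ).natDegree ≤ t := by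
  unfold mkc
  have hφ2 : (φ ^ 2).natDegree ≤ 4 := natDegree_pow_le.trans (by omega)
  refine (natDegree_sub_le _ _).trans (max_le ?_ ((natDegree_sub_le _ _).trans
    (max_le (by omega) (by omega))))
  exact (natDegree_C_mul_le _ _).trans (prod_deg τ).le

theorem mkc_coeff (ν : F) {t : ℕ} (φ ψ : F[X]) (τ : Fin t ↪ F) :
    (mkc ν φ ψ τ).coeff t = -ν := by
  unfold mkc
  have h : (∏ i, (X - C (τ i)) : F[X]).coeff t = 1 := by
    have := (prod_monic τ).coeff_natDegree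
    rwa [prod_deg] at this
  rw [coeff_sub, coeff_C_mul, h]; ring

theorem mkc_eval (ν : F) {t : ℕ} (φ ψ : F[X]) (τ : Fin t ↪ F) (i : Fin t) :
    φ.eval (τ i) ^ 2 + (mkc ν φ ψ τ).eval (τ i) = ψ.eval (τ i) := by
  unfold mkc
  have h : (∏ j, (X - C (τ j)) : F[X]).eval (τ i) = 0 := by
    rw [eval_prod]
    exact prod_eq_zero (mem_univ i) (by simp)
  rw [eval_sub, eval_mul, h, eval_sub, eval_pow]; ring

theorem quad_zero {t : ℕ} (ht : 4 ≤ t) (τ : Fin t ↪ F) (A B D : F)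
    (h : ∀ i, A * τ i ^ 2 + B * τ i + D = 0) : A = 0 ∧ B = 0 ∧ D = 0 := by
  have n01 : τ ⟨0, by omega⟩ - τ ⟨1, by omega⟩ ≠ 0 :=
    sub_ne_zero.2 (τ.injective.ne (by simp [Fin.ext_iff]))
  have n02 : τ ⟨0, by omega⟩ - τ ⟨2, by omega⟩ ≠ 0 :=
    sub_ne_zero.2 (τ.injective.ne (by simp [Fin.ext_iff]))
  have n12 : τ ⟨1, by omega⟩ - τ ⟨2, by omega⟩ ≠ 0 :=
    sub_ne_zero.2 (τ.injective.ne (by simp [Fin.ext_iff]))
  have h0 := h ⟨0, by omega⟩
  have h1 := h ⟨1, by omega⟩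
  have h2 := h ⟨2, by omega⟩
  generalize τ ⟨0, by omega⟩ = x at *
  generalize τ ⟨1, by omega⟩ = y at *
  generalize τ ⟨2, by omega⟩ = z at *
  have e1 : A * (x + y) + B = 0 := by
    apply mul_left_cancel₀ n01; linear_combination h0 - h1
  have e2 : A * (x + z) + B = 0 := by
    apply mul_left_cancel₀ n02; linear_combination h0 - h2
  have e3 : A = 0 := by
    apply mul_left_cancel₀ n12; linear_combination e1 - e2
  have e4 : B = 0 := by rw [e3] at e1; linear_combination e1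
  refine ⟨e3, e4, ?_⟩
  rw [e3, e4] at h0; linear_combination h0

/-- parameter space -/
abbrev Om (F : Type*) [Field F] (t : ℕ) := Fˣ × (Fin 8 → F) × (Fin t ↪ F) × (Fin t ↪ F)

section
variable {t : ℕ} (ω : Om F t)

noncomputable def φL : F[X] := qd (ω.1 : F) (ω.2.1 0) (ω.2.1 1)
noncomputable def ψL : F[X] := qd (-(ω.1 : F) * ω.2.1 2) (ω.2.1 3) (ω.2.1 4)
noncomputable def φR : F[X] := qd (-((ω.1⁻¹ : Fˣ) : F)) (ω.2.1 2) (ω.2.1 5)
noncomputable def ψR : F[X] :=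
  qd (ω.2.1 0 * ((ω.1⁻¹ : Fˣ) : F)) (-ω.2.1 3 - ω.2.1 0 * ω.2.1 2) (ω.2.1 6 - ω.2.1 0 * ω.2.1 5)

noncomputable def cc (ν : F) : Bool → F[X]
  | false => mkc ν (φL ω) (ψL ω) ω.2.2.1
  | true => mkc ν (φR ω) (ψR ω) ω.2.2.2

noncomputable def vtx : Fin t ⊕ Fin t → Bool × F × F × F
  | Sum.inl i => (false, ω.2.2.1 i, (φL ω).eval (ω.2.2.1 i),
      (ω.1 : F) * ω.2.1 5 * ω.2.2.1 i ^ 2 + ω.2.1 6 * ω.2.2.1 i + ω.2.1 7)
  | Sum.inr j => (true, ω.2.2.2 j, (φR ω).eval (ω.2.2.2 j),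
      ω.2.1 4 * ω.2.2.2 j + ω.2.1 1 * (φR ω).eval (ω.2.2.2 j) - ω.2.1 7)

theorem cc_deg (ν : F) (ht : 4 ≤ t) (s : Bool) : (cc ω ν s).natDegree ≤ t := by
  cases s
  · exact mkc_deg ν ht _ _ (qd_deg ..) (qd_deg ..) _
  · exact mkc_deg ν ht _ _ (qd_deg ..) (qd_deg ..) _

theorem cc_coeff (ν : F) (s : Bool) : (cc ω ν s).coeff t = -ν := by
  cases s
  · exact mkc_coeff ..
  · exact mkc_coeff ..

theorem vtx_inj : Function.Injective (vtx ω) := by
  rintro (i | i) (j | j) h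
  · have : ω.2.2.1 i = ω.2.2.1 j := congrArg (fun p => p.2.1) h
    rw [ω.2.2.1.injective this]
  · exact absurd (congrArg Prod.fst h) (by simp [vtx])
  · exact absurd (congrArg Prod.fst h) (by simp [vtx])
  · have : ω.2.2.2 i = ω.2.2.2 j := congrArg (fun p => p.2.1) h
    rw [ω.2.2.2.injective this]

theorem vtx_adj (ν : F) (i j : Fin t) :
    (gr (cc ω ν)).Adj (vtx ω (Sum.inl i)) (vtx ω (Sum.inr j)) := by
  refine ⟨by simp [vtx], ?_⟩
  have h1 := mkc_eval ν (φL ω) (ψL ω) ω.2.2.1 i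
  have h2 := mkc_eval ν (φR ω) (ψR ω) ω.2.2.2 j
  have h3 : (ω.1 : F) * ((ω.1⁻¹ : Fˣ) : F) = 1 := ω.1.mul_inv
  simp only [vtx, pr, cc]
  rw [h1, h2]
  simp only [φL, ψL, φR, ψR, qd_eval]
  linear_combination (ω.2.2.1 i ^ 2 * ω.2.2.2 j ^ 2) * h3

noncomputable def cpy (ν : F) : Copy (completeBipartiteGraph (Fin t) (Fin t)) (gr (cc ω ν)) where
  toHom := ⟨vtx ω, by
    rintro (i | i) (j | j) h
    · simp at h
    · exact vtx_adj ω ν i j
    · exact (vtx_adj ω ν j i).symm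
    · simp at h⟩
  injective' := vtx_inj ω

end

theorem vtx_det {t : ℕ} (ht : 4 ≤ t) (ν : F) (ω ω' : Om F t) (hc : cc ω ν = cc ω' ν)
    (h : vtx ω = vtx ω') : ω = ω' := by
  have hL : ∀ i, vtx ω (Sum.inl i) = vtx ω' (Sum.inl i) := fun i => congrFun h _
  have hR : ∀ i, vtx ω (Sum.inr i) = vtx ω' (Sum.inr i) := fun i => congrFun h _
  have hτ : ω.2.2.1 = ω'.2.2.1 := by
    ext i; exact congrArg (fun p => p.2.1) (hL i)
  have hσ : ω.2.2.2 = ω'.2.2.2 := by
    ext i; exact congrArg (fun p => p.2.1) (hR i)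
  have hφ : ∀ i, (φL ω).eval (ω.2.2.1 i) = (φL ω').eval (ω.2.2.1 i) := by
    intro i
    have : (φL ω).eval (ω.2.2.1 i) = (φL ω').eval (ω'.2.2.1 i) :=
      congrArg (fun p => p.2.2.1) (hL i)
    rw [this, hτ]
  have hψ : ∀ i, (ψL ω).eval (ω.2.2.1 i) = (ψL ω').eval (ω.2.2.1 i) := by
    intro i
    have h1 := mkc_eval ν (φL ω) (ψL ω) ω.2.2.1 i
    have h2 := mkc_eval ν (φL ω') (ψL ω') ω'.2.2.1 i
    have h3 : mkc ν (φL ω) (ψL ω) ω.2.2.1 = mkc ν (φL ω') (ψL ω') ω'.2.2.1 := congrFun hc false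
    rw [← h3, ← hτ, ← hφ i, h1] at h2
    exact h2
  have ha : ∀ i, (ω.1 : F) * ω.2.1 5 * ω.2.2.1 i ^ 2 + ω.2.1 6 * ω.2.2.1 i + ω.2.1 7 =
      (ω'.1 : F) * ω'.2.1 5 * ω.2.2.1 i ^ 2 + ω'.2.1 6 * ω.2.2.1 i + ω'.2.1 7 := by
    intro i
    have : (ω.1 : F) * ω.2.1 5 * ω.2.2.1 i ^ 2 + ω.2.1 6 * ω.2.2.1 i + ω.2.1 7 =
      (ω'.1 : F) * ω'.2.1 5 * ω'.2.2.1 i ^ 2 + ω'.2.1 6 * ω'.2.2.1 i + ω'.2.1 7 :=
      congrArg (fun p => p.2.2.2) (hL i)
    rw [this, hτ]
  obtain ⟨a1, a2, a3⟩ := quad_zero ht ω.2.2.1 ((ω.1 : F) - ω'.1) (ω.2.1 0 - ω'.2.1 0)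
    (ω.2.1 1 - ω'.2.1 1) (fun i => by
      have := hφ i
      simp only [φL, qd_eval] at this
      linear_combination this)
  obtain ⟨b1, b2, b3⟩ := quad_zero ht ω.2.2.1 (-(ω.1 : F) * ω.2.1 2 - (-(ω'.1 : F) * ω'.2.1 2))
    (ω.2.1 3 - ω'.2.1 3) (ω.2.1 4 - ω'.2.1 4) (fun i => by
      have := hψ i
      simp only [ψL, qd_eval] at this
      linear_combination this)
  obtain ⟨c1, c2, c3⟩ := quad_zero ht ω.2.2.1 ((ω.1 : F) * ω.2.1 5 - (ω'.1 : F) * ω'.2.1 5)
    (ω.2.1 6 - ω'.2.1 6) (ω.2.1 7 - ω'.2.1 7) (fun i => by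
      linear_combination ha i)
  have hα : (ω.1 : F) = ω'.1 := sub_eq_zero.1 a1
  have hne : (ω.1 : F) ≠ 0 := ω.1.ne_zero
  have b1' : ω.2.1 2 = ω'.2.1 2 := by
    apply mul_left_cancel₀ hne
    rw [← hα] at b1
    linear_combination -b1
  have c1' : ω.2.1 5 = ω'.2.1 5 := by
    apply mul_left_cancel₀ hne
    rw [← hα] at c1
    linear_combination c1
  refine Prod.ext (Units.ext hα) (Prod.ext ?_ (Prod.ext hτ hσ))
  funext k
  fin_cases k
  · exact sub_eq_zero.1 a2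
  · exact sub_eq_zero.1 a3
  · exact b1'
  · exact sub_eq_zero.1 b2
  · exact sub_eq_zero.1 b3
  · exact c1'
  · exact sub_eq_zero.1 c2
  · exact sub_eq_zero.1 c3

theorem lcc_eq {V W : Type*} [Fintype V] [Fintype W] (G : SimpleGraph V) (H : SimpleGraph W) :
    G.labelledCopyCount H = Nat.card (Copy H G) := by
  unfold labelledCopyCount
  exact Fintype.card_eq_nat_card

theorem copy_finite {V W : Type*} [Finite V] [Finite W] (G : SimpleGraph V) (H : SimpleGraph W) :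
    Finite (Copy H G) :=
  Finite.of_injective (fun f : Copy H G => (f : W → V)) DFunLike.coe_injective

theorem exists_big_fiber {α β : Type*} [Fintype α] [Fintype β] [DecidableEq β] [Nonempty β]
    (f : α → β) : ∃ y, Fintype.card α ≤ Fintype.card β * #{x | f x = y} := by
  have h : ∑ _y : β, Fintype.card α ≤ ∑ y : β, Fintype.card β * #{x | f x = y} := by
    rw [← mul_sum, sum_const, card_univ, smul_eq_mul,
      ← card_eq_sum_card_fiberwise (s := univ) (t := univ) (f := f) (fun _ _ => by simp), card_univ]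
  obtain ⟨y, _, hy⟩ := exists_le_of_sum_le univ_nonempty h
  exact ⟨y, hy⟩

theorem exists_good [Fintype F] (t : ℕ) (ht : 4 ≤ t) (ν : F) :
    ∃ c : Bool → F[X], (∀ s, (c s).natDegree ≤ t) ∧ (∀ s, (c s).coeff t = -ν) ∧
      (Fintype.card F - 1) * Fintype.card F ^ 8 * (Fintype.card F).descFactorial t ^ 2 ≤
        Fintype.card F ^ (2 * t) *
          (gr c).labelledCopyCount (completeBipartiteGraph (Fin t) (Fin t)) := by
  classical
  obtain ⟨y, hy⟩ := exists_big_fiber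
    (fun (ω : Om F t) (k : Bool × Fin t) => (cc ω ν k.1).coeff k.2)
  have hΩ : Fintype.card (Om F t) =
      (Fintype.card F - 1) * Fintype.card F ^ 8 * (Fintype.card F).descFactorial t ^ 2 := by
    simp only [Om, Fintype.card_prod, Fintype.card_units, Fintype.card_fun, Fintype.card_fin,
      Fintype.card_embedding_eq]
    ring
  have hβ : Fintype.card (Bool × Fin t → F) = Fintype.card F ^ (2 * t) := by
    simp only [Fintype.card_fun, Fintype.card_prod, Fintype.card_bool, Fintype.card_fin]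
  rw [hΩ, hβ] at hy
  rcases (univ.filter (fun ω : Om F t =>
      (fun k : Bool × Fin t => (cc ω ν k.1).coeff k.2) = y)).eq_empty_or_nonempty with
    h0 | ⟨ω₀, hω₀⟩
  · refine ⟨fun _ => C (-ν) * X ^ t, fun _ => natDegree_C_mul_X_pow_le _ _, fun _ => by simp, ?_⟩
    rw [h0] at hy
    exact hy.trans (by simp)
  refine ⟨cc ω₀ ν, cc_deg ω₀ ν ht, cc_coeff ω₀ ν, hy.trans (Nat.mul_le_mul_left _ ?_)⟩
  have hcc : ∀ ω ∈ (univ.filter (fun ω : Om F t =>
      (fun k : Bool × Fin t => (cc ω ν k.1).coeff k.2) = y)), cc ω ν = cc ω₀ ν := by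
    intro ω hω
    have h1 := (mem_filter.1 hω).2
    have h2 := (mem_filter.1 hω₀).2
    funext s
    ext k
    rcases lt_trichotomy k t with hk | hk | hk
    · exact congrFun (h1.trans h2.symm) (s, ⟨k, hk⟩)
    · rw [hk, cc_coeff, cc_coeff]
    · rw [coeff_eq_zero_of_natDegree_lt ((cc_deg ω ν ht s).trans_lt hk),
        coeff_eq_zero_of_natDegree_lt ((cc_deg ω₀ ν ht s).trans_lt hk)]
  rw [lcc_eq, ← Nat.card_eq_finsetCard]
  have := copy_finite (gr (cc ω₀ ν)) (completeBipartiteGraph (Fin t) (Fin t))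
  refine Nat.card_le_card_of_injective
    (fun ω => (⟨⟨vtx ω.1, fun {a b} h => by
      have : (gr (cc ω.1 ν)).Adj (vtx ω.1 a) (vtx ω.1 b) := (cpy ω.1 ν).toHom.map_rel h
      rw [hcc ω.1 ω.2] at this
      exact this⟩, vtx_inj ω.1⟩ : Copy (completeBipartiteGraph (Fin t) (Fin t)) (gr (cc ω₀ ν)))) ?_
  intro ω ω' h
  apply Subtype.ext
  apply vtx_det ht ν _ _ ((hcc ω.1 ω.2).trans (hcc ω'.1 ω'.2).symm)
  exact congrArg (fun f : Copy (completeBipartiteGraph (Fin t) (Fin t)) (gr (cc ω₀ ν)) =>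
    (f : Fin t ⊕ Fin t → _)) h

end Pool.Agent.MP_80dd36_co

end

section

namespace Pool.Agent.MP_80dd36_co

open Polynomial Finset SimpleGraph

set_option linter.unusedSectionVars false
set_option linter.unusedSimpArgs false

theorem labelled_le {V W : Type*} [Fintype V] [Fintype W] (G : SimpleGraph V) (H : SimpleGraph W) :
    G.labelledCopyCount H ≤ Fintype.card W ^ Fintype.card W * G.copyCount H := by
  classical
  have := copy_finite G H
  rw [copyCount_eq_card_image_copyToSubgraph, lcc_eq, Nat.card_eq_fintype_card, ← card_univ]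
  apply card_le_mul_card_image
  intro K hK
  obtain ⟨f₀, -, rfl⟩ := mem_image.1 hK
  have key : ∀ f : Copy H G, f.toSubgraph = f₀.toSubgraph → ∀ w, ∃ w', f₀ w' = f w := by
    intro f hf w
    have h1 : f w ∈ f.toSubgraph.verts := by
      simp [Copy.toSubgraph]
    rw [hf] at h1
    simpa [Copy.toSubgraph] using h1
  choose! g hg using key
  rw [← Fintype.card_fun, ← card_univ]
  apply card_le_card_of_injOn g (fun _ _ => by simp)
  intro f hf f' hf' h
  have h1 := (mem_filter.1 (mem_coe.1 hf)).2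
  have h2 := (mem_filter.1 (mem_coe.1 hf')).2
  ext w
  rw [← hg f h1 w, ← hg f' h2 w, h]

theorem labelled_map {V V' W : Type*} [Fintype V] [Fintype V'] [Fintype W] (G : SimpleGraph V)
    (e : V ↪ V') (H : SimpleGraph W) :
    G.labelledCopyCount H ≤ (G.map e).labelledCopyCount H := by
  rw [lcc_eq, lcc_eq]
  have := copy_finite (G.map e) H
  refine Nat.card_le_card_of_injective (fun f => ((Embedding.map e G).toCopy).comp f) ?_
  intro f f' h
  ext w
  apply e.injective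
  exact congrArg (fun f : Copy H (G.map e) => f w) h

/-- common neighbour form of freeness -/
def Cn {V : Type*} (G : SimpleGraph V) (t : ℕ) : Prop :=
  ∀ p₁ p₂ p₃ : V, p₂ ≠ p₁ → p₃ ≠ p₁ → p₃ ≠ p₂ → ∀ T : Finset V,
    (∀ w ∈ T, G.Adj p₁ w ∧ G.Adj p₂ w ∧ G.Adj p₃ w) → T.card ≤ t

theorem Cn.free {V : Type*} {G : SimpleGraph V} {t : ℕ} (h : Cn G t) :
    (completeBipartiteGraph (Fin 3) (Fin (t + 1))).Free G := by
  classical
  rintro ⟨f⟩
  have hi : Function.Injective (f : _ → V) := f.injective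
  have := h (f (Sum.inl 0)) (f (Sum.inl 1)) (f (Sum.inl 2)) (hi.ne (by simp)) (hi.ne (by simp))
    (hi.ne (by simp)) (univ.image fun j => f (Sum.inr j)) (by
      intro w hw
      obtain ⟨j, -, rfl⟩ := mem_image.1 hw
      exact ⟨f.toHom.map_rel (by simp), f.toHom.map_rel (by simp), f.toHom.map_rel (by simp)⟩)
  rw [card_image_of_injective (f := fun j => f (Sum.inr j)) _ (hi.comp Sum.inr_injective)] at this
  simp at this

theorem Cn.of_free {V : Type*} {G : SimpleGraph V} {t : ℕ}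
    (h : (completeBipartiteGraph (Fin 3) (Fin (t + 1))).Free G) : Cn G t := by
  classical
  intro p₁ p₂ p₃ h12 h13 h23 T hT
  by_contra hlt
  apply h
  obtain ⟨e, he⟩ : ∃ e : Fin (t + 1) ↪ V, ∀ j, e j ∈ T := by
    obtain ⟨e⟩ : Nonempty (Fin (t + 1) ↪ T) := by
      apply Function.Embedding.nonempty_of_card_le
      simp only [Fintype.card_fin, Fintype.card_coe]; omega
    exact ⟨e.trans (Function.Embedding.subtype _), fun j => (e j).2⟩
  have hadj : ∀ (i : Fin 3) (j : Fin (t + 1)), G.Adj (![p₁, p₂, p₃] i) (e j) := by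
    intro i j
    have := hT _ (he j)
    fin_cases i
    · exact this.1
    · exact this.2.1
    · exact this.2.2
  have hp : Function.Injective ![p₁, p₂, p₃] := by
    intro i j hij
    fin_cases i <;> fin_cases j <;> simp_all [eq_comm]
  refine ⟨⟨⟨Sum.elim ![p₁, p₂, p₃] e, ?_⟩, ?_⟩⟩
  · rintro (i | i) (j | j) hij
    · simp at hij
    · exact hadj i j
    · exact (hadj j i).symm
    · simp at hij
  · exact hp.sumElim e.injective fun i j => (hadj i j).ne

theorem Cn.map {V V' : Type*} {G : SimpleGraph V} {t : ℕ} (h : Cn G t) (e : V ↪ V') :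
    Cn (G.map e) t := by
  classical
  intro p₁ p₂ p₃ h12 h13 h23 T hT
  rcases T.eq_empty_or_nonempty with rfl | ⟨w₀, hw₀⟩
  · simp
  obtain ⟨a1, a2, a3⟩ := hT w₀ hw₀
  obtain ⟨q₁, -, -, rfl, -⟩ := (map_adj e G _ _).1 a1
  obtain ⟨q₂, -, -, rfl, -⟩ := (map_adj e G _ _).1 a2
  obtain ⟨q₃, -, -, rfl, -⟩ := (map_adj e G _ _).1 a3
  have hsub : (T : Set V') ⊆ Set.range e := by
    intro w hw
    obtain ⟨-, q, -, -, rfl⟩ := (map_adj e G _ _).1 (hT w hw).1
    exact ⟨q, rfl⟩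
  have hc : (T.preimage e e.injective.injOn).card = T.card := by
    rw [card_preimage, filter_true_of_mem]
    exact fun w hw => hsub hw
  rw [← hc]
  apply h q₁ q₂ q₃ (fun h => h12 (by rw [h])) (fun h => h13 (by rw [h])) (fun h => h23 (by rw [h]))
  intro w hw
  have := hT _ (mem_preimage.1 hw)
  simpa only [map_adj_apply] using this

theorem upper {V : Type*} [Fintype V] {G : SimpleGraph V} {t : ℕ} (ht : 4 ≤ t) (h : Cn G t) :
    G.labelledCopyCount (completeBipartiteGraph (Fin t) (Fin t)) ≤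
      Fintype.card V ^ 3 * (t ^ t * t ^ t) := by
  classical
  let N : V × V × V → Finset V := fun p =>
    if p.2.1 ≠ p.1 ∧ p.2.2 ≠ p.1 ∧ p.2.2 ≠ p.2.1 then
      univ.filter (fun w => G.Adj p.1 w ∧ G.Adj p.2.1 w ∧ G.Adj p.2.2 w) else ∅
  have hN : ∀ p, (N p).card ≤ t := by
    intro p
    simp only [N]
    split_ifs with hp
    · exact h _ _ _ hp.1 hp.2.1 hp.2.2 _ fun w hw => (mem_filter.1 hw).2
    · simp
  let tr : (Fin t → V) → V × V × V := fun r => (r ⟨0, by omega⟩, r ⟨1, by omega⟩, r ⟨2, by omega⟩)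
  have hmem : ∀ (r : Fin t → V) (w : V), Function.Injective r → (∀ i, G.Adj (r i) w) →
      w ∈ N (tr r) := by
    intro r w hr hw
    simp only [N, tr]
    rw [if_pos ⟨hr.ne (by simp [Fin.ext_iff]), hr.ne (by simp [Fin.ext_iff]),
      hr.ne (by simp [Fin.ext_iff])⟩]
    exact mem_filter.2 ⟨mem_univ _, hw _, hw _, hw _⟩
  let P : V × V × V → Finset (Fin t → V) := fun p => Fintype.piFinset fun _ => N p
  have hP : ∀ p, (P p).card ≤ t ^ t := by
    intro p
    simp only [P, Fintype.card_piFinset, prod_const, card_univ, Fintype.card_fin]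
    exact Nat.pow_le_pow_left (hN p) _
  let S : Finset ((Fin t → V) × (Fin t → V)) :=
    univ.biUnion fun p : V × V × V => (P p).biUnion fun r => (P (tr r)).image fun l => (l, r)
  have hS : S.card ≤ Fintype.card V ^ 3 * (t ^ t * t ^ t) := by
    refine (card_biUnion_le_card_mul _ _ (t ^ t * t ^ t) ?_).trans (le_of_eq ?_)
    · intro p _
      refine (card_biUnion_le_card_mul _ _ (t ^ t) ?_).trans (Nat.mul_le_mul_right _ (hP p))
      intro r _
      exact card_image_le.trans (hP _)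
    · simp only [card_univ, Fintype.card_prod]; ring
  refine le_trans ?_ hS
  rw [lcc_eq, ← Nat.card_eq_finsetCard]
  refine Nat.card_le_card_of_injective
    (fun f => ⟨(fun i => f (Sum.inl i), fun i => f (Sum.inr i)), ?_⟩) ?_
  · have hi : Function.Injective (f : _ → V) := f.injective
    have hadj : ∀ i j, G.Adj (f (Sum.inl i)) (f (Sum.inr j)) :=
      fun i j => f.toHom.map_rel (by simp)
    simp only [S, mem_biUnion, mem_image]
    refine ⟨tr fun i => f (Sum.inl i), mem_univ _, fun i => f (Sum.inr i), ?_,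
      fun i => f (Sum.inl i), ?_, rfl⟩
    · exact Fintype.mem_piFinset.2 fun j =>
        hmem _ _ (hi.comp Sum.inl_injective) fun i => hadj i j
    · exact Fintype.mem_piFinset.2 fun j =>
        hmem _ _ (hi.comp Sum.inr_injective) fun i => (hadj j i).symm
  · intro f f' hf
    have h1 := congrArg (fun x => x.1.1) hf
    have h2 := congrArg (fun x => x.1.2) hf
    ext w
    rcases w with i | i
    · exact congrFun h1 i
    · exact congrFun h2 i

theorem lower_prime (t : ℕ) (ht : 4 ≤ t) (p : ℕ) [Fact p.Prime] (hp : 2 * t ≤ p) :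
    ∃ G : SimpleGraph (Bool × ZMod p × ZMod p × ZMod p), Cn G t ∧
      p ^ 9 ≤ 2 * 4 ^ t * G.labelledCopyCount (completeBipartiteGraph (Fin t) (Fin t)) := by
  obtain ⟨ν, hν⟩ := FiniteField.exists_nonsquare (F := ZMod p) (by
    rw [ZMod.ringChar_zmod_n]; omega)
  obtain ⟨c, hd, hdt, hc⟩ := exists_good t ht ν
  refine ⟨gr c, fun p₁ p₂ p₃ h12 h13 h23 T hT =>
    gr_common t ht ν hν c hd hdt p₁ p₂ p₃ h12 h13 h23 T hT, ?_⟩
  rw [ZMod.card] at hc
  generalize (gr c).labelledCopyCount (completeBipartiteGraph (Fin t) (Fin t)) = L at hc ⊢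
  have h1 : p ^ t ≤ 2 ^ t * p.descFactorial t := by
    calc p ^ t ≤ (2 * (p + 1 - t)) ^ t := Nat.pow_le_pow_left (by omega) _
      _ = 2 ^ t * (p + 1 - t) ^ t := mul_pow _ _ _
      _ ≤ _ := Nat.mul_le_mul_left _ (Nat.pow_sub_le_descFactorial p t)
  have h2 : p ≤ 2 * (p - 1) := by omega
  have hpos : 0 < p ^ (2 * t) := Nat.pow_pos (by omega)
  apply Nat.le_of_mul_le_mul_left _ hpos
  calc p ^ (2 * t) * p ^ 9 = p * p ^ 8 * (p ^ t) ^ 2 := by ring
    _ ≤ (2 * (p - 1)) * p ^ 8 * (2 ^ t * p.descFactorial t) ^ 2 := by gcongr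
    _ = 2 * 4 ^ t * ((p - 1) * p ^ 8 * p.descFactorial t ^ 2) := by
      rw [show (4 : ℕ) = 2 ^ 2 by norm_num, ← pow_mul]; ring
    _ ≤ 2 * 4 ^ t * (p ^ (2 * t) * L) := Nat.mul_le_mul_left _ hc
    _ = _ := by ring

theorem lower (t : ℕ) (ht : 4 ≤ t) (n : ℕ) (hn : 16 * (2 * t) ^ 3 ≤ n) :
    ∃ G : SimpleGraph (Fin n), Cn G t ∧
      n ^ 3 ≤ (16 ^ 3 * (2 * 4 ^ t) * (t + t) ^ (t + t)) *
        G.copyCount (completeBipartiteGraph (Fin t) (Fin t)) := by
  classical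
  have hex : ∃ m, n < 16 * (m + 1) ^ 3 := ⟨n, by nlinarith [Nat.zero_le n, Nat.zero_le (n ^ 2), Nat.zero_le (n ^ 3)]⟩
  set m := Nat.find hex with hm
  have hm1 : n < 16 * (m + 1) ^ 3 := Nat.find_spec hex
  have hm2 : 2 * t ≤ m := by
    by_contra hlt
    have : (m + 1) ^ 3 ≤ (2 * t) ^ 3 := Nat.pow_le_pow_left (by omega) _
    omega
  have hm3 : 16 * m ^ 3 ≤ n := by
    have := Nat.find_min hex (m := m - 1) (by omega)
    rw [show m - 1 + 1 = m by omega] at this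
    omega
  obtain ⟨p, hp, hmp, hpm⟩ := Nat.exists_prime_lt_and_le_two_mul m (by omega)
  have := Fact.mk hp
  obtain ⟨G, hG, hc⟩ := lower_prime t ht p (by omega)
  obtain ⟨e⟩ : Nonempty ((Bool × ZMod p × ZMod p × ZMod p) ↪ Fin n) := by
    apply Function.Embedding.nonempty_of_card_le
    simp only [Fintype.card_prod, Fintype.card_bool, ZMod.card, Fintype.card_fin]
    have : p ^ 3 ≤ (2 * m) ^ 3 := Nat.pow_le_pow_left hpm _
    nlinarith
  refine ⟨G.map e, hG.map e, ?_⟩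
  have h1 := labelled_map G e (completeBipartiteGraph (Fin t) (Fin t))
  have h2 := labelled_le (G.map e) (completeBipartiteGraph (Fin t) (Fin t))
  simp only [Fintype.card_sum, Fintype.card_fin] at h2
  have h3 : n ≤ 16 * p ^ 3 := by
    have : (m + 1) ^ 3 ≤ p ^ 3 := Nat.pow_le_pow_left hmp _
    omega
  calc n ^ 3 ≤ (16 * p ^ 3) ^ 3 := Nat.pow_le_pow_left h3 _
    _ = 16 ^ 3 * p ^ 9 := by ring
    _ ≤ 16 ^ 3 * (2 * 4 ^ t * ((t + t) ^ (t + t) *
        (G.map e).copyCount (completeBipartiteGraph (Fin t) (Fin t)))) :=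
      Nat.mul_le_mul_left _ (hc.trans (Nat.mul_le_mul_left _ (h1.trans h2)))
    _ = _ := by ring

end Pool.Agent.MP_80dd36_co

end
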