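import Pool.Agent.Mg.F80dd36.Gc32f69

set_option linter.all false

section

namespace Pool.Agent.MP_80dd36_co.Five

open Polynomial Finset

set_option linter.unusedSectionVars false

variable {F : Type*} [Field F] [DecidableEq F] [Fintype F]

open Classical in
theorem many_sq (f : F[X]) {δ : F} (hδ : δ ≠ 0) (hq : 10 ≤ Fintype.card F) :
    Fintype.card F ≤ 5 * (univ.filter fun γ : F => Fintype.card F ≤ 4 *
      (univ.filter fun x => ∃ t, t ≠ 0 ∧ t ^ 2 = (f + C (δ * γ)).eval x).card).card := by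
  set q := Fintype.card F with hq'
  set Sq := (univ.erase (0 : F)).image fun t => t ^ 2 with hSq
  have h1 : q - 1 ≤ 2 * Sq.card := by
    have := card_le_mul_card_image (f := fun t : F => t ^ 2) (univ.erase 0) 2 fun a _ =>
      card_le_two_of_quad 1 0 (-a) one_ne_zero _ fun t ht => by
        linear_combination (mem_filter.1 ht).2
    rwa [card_erase_of_mem (mem_univ _), card_univ] at this
  set U : F → Finset F := fun γ =>
    univ.filter fun x => ∃ t, t ≠ 0 ∧ t ^ 2 = (f + C (δ * γ)).eval x with hU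
  have h2 : q * Sq.card ≤ ∑ γ, (U γ).card := by
    simp only [hU, card_filter]
    rw [sum_comm, hq', ← card_univ, ← smul_eq_mul]
    refine card_nsmul_le_sum _ _ _ fun x _ => ?_
    rw [← card_filter]
    refine card_le_card_of_injOn (fun s => (s - f.eval x) / δ) (fun s hs => ?_) fun s _ s' _ e => ?_
    · obtain ⟨t, ht, rfl⟩ := mem_image.1 hs
      refine mem_filter.2 ⟨mem_univ _, t, (mem_erase.1 ht).1, ?_⟩
      rw [eval_add, eval_C]
      field_simp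
      ring
    · exact sub_left_injective ((div_left_inj' hδ).1 e)
  set Gd := univ.filter fun γ : F => q ≤ 4 * (U γ).card with hGd
  have h3 : 4 * ∑ γ, (U γ).card ≤ Gd.card * (4 * q) + q * q := by
    rw [mul_sum, ← sum_filter_add_sum_filter_not univ fun γ : F => q ≤ 4 * (U γ).card]
    refine Nat.add_le_add (sum_le_card_nsmul _ _ _ fun γ _ =>
      Nat.mul_le_mul_left _ (card_le_univ _)) ?_
    refine (sum_le_card_nsmul _ _ q fun γ hγ => (not_le.1 (mem_filter.1 hγ).2).le).trans ?_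
    exact Nat.mul_le_mul_right _ (card_le_univ _)
  have h4 : q * (2 * (q - 1)) ≤ q * (4 * Gd.card + q) := by nlinarith
  have h5 := Nat.le_of_mul_le_mul_left h4 (by omega)
  show q ≤ 5 * Gd.card
  omega

variable (F) in
/-- the coefficient space -/
noncomputable def PP (n : ℕ) : Finset (F[X] × F[X] × F[X]) :=
  mo F (n + 3) ×ˢ lo F (n + 1) ×ˢ lo F (n + 1)

theorem PP_ok {n : ℕ} {P : F[X] × F[X] × F[X]} (h : P ∈ PP F n) : Ok (n + 3) P := by
  obtain ⟨a, b⟩ := mem_product.1 h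
  obtain ⟨c, d⟩ := mem_product.1 b
  exact ⟨(mem_mo.1 a).1, (mem_mo.1 a).2, mem_lo_succ.1 c, mem_lo_succ.1 d⟩

theorem card_PP (n : ℕ) : (PP F n).card = Fintype.card F ^ (3 * n + 5) := by
  rw [PP, card_product, card_product, card_mo, card_lo]
  ring

open Classical in
/-- full sets of points on flats with direction `L` -/
noncomputable def TS (ε : F) (n : ℕ) (L : Fin 3 → F × F × F) (P : F[X] × F[X] × F[X]) :
    Finset (Finset (F × F × F)) := (powersetCard (2 * (n + 3)) univ).filter fun S => Gr ε P S L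

open Classical in
noncomputable def EE (ε : F) (n : ℕ) (L : Fin 3 → F × F × F) (γ : F × F × F) :
    Finset ((F[X] × F[X] × F[X]) × Finset (F × F × F)) :=
  (PP F n ×ˢ powersetCard (2 * (n + 3)) univ).filter fun z => ∀ p ∈ z.2,
    p.1 ^ 2 = (L 0).1 * p.1 + (L 0).2.1 * p.2.1 + (L 0).2.2 * p.2.2 + γ.1 ∧
    vv ε p.1 p.2.1 p.2.2 = (L 1).1 * p.1 + (L 1).2.1 * p.2.1 + (L 1).2.2 * p.2.2 + γ.2.1 ∧
    hh ε z.1 p.1 p.2.1 p.2.2 = (L 2).1 * p.1 + (L 2).2.1 * p.2.1 + (L 2).2.2 * p.2.2 + γ.2.2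

theorem EE_sum (ε : F) (n : ℕ) (L : Fin 3 → F × F × F) :
    ∑ γ, (EE ε n L γ).card ≤ ∑ P ∈ PP F n, (TS ε n L P).card := by
  classical
  rw [← card_sigma, ← card_sigma]
  refine card_le_card_of_injOn (fun z => ⟨z.2.1, z.2.2⟩) ?_ ?_
  · rintro ⟨γ, P, S⟩ hz
    obtain ⟨a, b⟩ := mem_filter.1 (mem_sigma.1 hz).2
    obtain ⟨c, d⟩ := mem_product.1 a
    refine mem_sigma.2 ⟨c, mem_filter.2 ⟨d, ⟨γ.1, fun p hp => ?_⟩, ⟨γ.2.1, fun p hp => ?_⟩,
      ⟨γ.2.2, fun p hp => ?_⟩⟩⟩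
    · simp
      linear_combination (b p hp).1
    · simp
      linear_combination (b p hp).2.1
    · simp
      linear_combination (b p hp).2.2
  · rintro ⟨γ, P, S⟩ hz ⟨γ', P', S'⟩ hz' e
    obtain ⟨rfl, e'⟩ := Sigma.mk.inj e
    obtain rfl := eq_of_heq e'
    obtain ⟨a, b⟩ := mem_filter.1 (mem_sigma.1 hz).2
    obtain ⟨-, b'⟩ := mem_filter.1 (mem_sigma.1 hz').2
    have c := (mem_powersetCard.1 (mem_product.1 a).2).2
    obtain ⟨p, hp⟩ : S.Nonempty := card_pos.1 (by dsimp only at c; omega)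
    have : γ = γ' := Prod.ext (by linear_combination (b' p hp).1 - (b p hp).1)
      (Prod.ext (by linear_combination (b' p hp).2.1 - (b p hp).2.1)
        (by linear_combination (b' p hp).2.2 - (b p hp).2.2))
    rw [this]

theorem EE_lower (ε : F) {n : ℕ} (hn : 2 ≤ n) (L : Fin 3 → F × F × F) (γ : F × F × F)
    {f y₀ w₀ : F[X]} {y₁ w₁ : F} (hf : f.natDegree ≤ 4) (hy₀ : y₀.natDegree ≤ 2)
    (hw₀ : w₀.natDegree ≤ 2) (hne : y₁ ≠ 0 ∨ w₁ ≠ 0)
    (H : ∀ x t : F, t ^ 2 = f.eval x →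
      x ^ 2 = (L 0).1 * x + (L 0).2.1 * (y₀.eval x + y₁ * t) + (L 0).2.2 * (w₀.eval x + w₁ * t) +
        γ.1 ∧ vv ε x (y₀.eval x + y₁ * t) (w₀.eval x + w₁ * t) = (L 1).1 * x +
        (L 1).2.1 * (y₀.eval x + y₁ * t) + (L 1).2.2 * (w₀.eval x + w₁ * t) + γ.2.1) :
    (Sp n f).card * Fintype.card F ^ (n + 1) ≤ (EE ε n L γ).card := by
  classical
  obtain ⟨u₁, u₂, hu⟩ : ∃ u₁ u₂, y₁ * u₁ + w₁ * u₂ = 1 := by
    rcases hne with h | h
    · exact ⟨y₁⁻¹, 0, by simp [h]⟩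
    · exact ⟨0, w₁⁻¹, by simp [h]⟩
  have hu' : C y₁ * C u₁ + C w₁ * C u₂ = (1 : F[X]) := by rw [← C_mul, ← C_mul, ← C_add, hu, C_1]
  obtain ⟨v₀, hv₀⟩ : ∃ v₀ : F[X], v₀ = C (L 1).1 * X + C (L 1).2.1 * y₀ + C (L 1).2.2 * w₀ +
    C γ.2.1 := ⟨_, rfl⟩
  have hv₀d : v₀.natDegree ≤ 2 := by rw [hv₀]; compute_degree; omega
  obtain ⟨v₁, hv₁⟩ : ∃ v₁, v₁ = (L 1).2.1 * y₁ + (L 1).2.2 * w₁ := ⟨_, rfl⟩
  obtain ⟨A₁, hA₁⟩ : ∃ A₁ : F[X], A₁ = C (L 2).1 * X + C (L 2).2.1 * y₀ + C (L 2).2.2 * w₀ +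
    C γ.2.2 - A0 ε f y₀ w₀ v₀ y₁ w₁ v₁ := ⟨_, rfl⟩
  have hA₁d : A₁.natDegree ≤ 4 := by
    have := A0_deg ε y₁ w₁ v₁ hf hy₀ hw₀ hv₀d
    rw [hA₁]; compute_degree; omega
  obtain ⟨B₁, hB₁⟩ : ∃ B₁ : F[X], B₁ = C ((L 2).2.1 * y₁ + (L 2).2.2 * w₁) -
    B0 ε y₀ w₀ v₀ y₁ w₁ v₁ := ⟨_, rfl⟩
  have hB₁d : B₁.natDegree ≤ 2 := by
    have := B0_deg ε y₁ w₁ v₁ hy₀ hw₀ hv₀d
    rw [hB₁]; compute_degree; omega
  let b₁ : (F[X] × F[X]) × F[X] → F[X] := fun z => C u₁ * (z.1.2 + B₁) - C w₁ * z.2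
  let b₂ : (F[X] × F[X]) × F[X] → F[X] := fun z => C u₂ * (z.1.2 + B₁) + C y₁ * z.2
  let φ : (F[X] × F[X]) × F[X] → F[X] × F[X] × F[X] := fun z =>
    (z.1.1 + (A₁ - b₁ z * y₀ - b₂ z * w₀), b₁ z, b₂ z)
  rw [← card_lo, ← card_product]
  refine le_trans (card_le_card_of_injOn φ (t := (EE ε n L γ).image Prod.fst) ?_ ?_) card_image_le
  · rintro ⟨g, β⟩ hz
    obtain ⟨hg, hβ⟩ := mem_product.1 hz
    obtain ⟨g1, g2, g3⟩ := mem_filter.1 hg
    obtain ⟨hA, hB⟩ := mem_product.1 g1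
    obtain ⟨hA1, hA2⟩ := mem_mo.1 hA
    rw [mem_lo_succ] at hB hβ
    dsimp only at hA1 hA2 hB hβ g2 g3 g1
    have d1 : (b₁ (g, β)).natDegree ≤ n := by simp only [b₁]; compute_degree; omega
    have d2 : (b₂ (g, β)).natDegree ≤ n := by simp only [b₂]; compute_degree; omega
    have d3 : (A₁ - b₁ (g, β) * y₀ - b₂ (g, β) * w₀).natDegree < g.1.natDegree := by
      generalize b₁ (g, β) = c₁ at d1
      generalize b₂ (g, β) = c₂ at d2
      refine lt_of_le_of_lt (b := n + 2) ?_ (by omega)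
      compute_degree
      omega
    have hP : φ (g, β) ∈ PP F n := mem_product.2 ⟨mem_mo.2 ⟨hA1.add_of_left (degree_lt_degree d3),
      (natDegree_add_eq_left_of_natDegree_lt d3).trans hA2⟩,
      mem_product.2 ⟨mem_lo_succ.2 d1, mem_lo_succ.2 d2⟩⟩
    obtain ⟨R, hR, cR⟩ := exists_subset_card_eq g3
    let τ : F → F := fun x => -g.1.eval x / g.2.eval x
    have hτ : ∀ x ∈ R, τ x ^ 2 = f.eval x ∧ g.1.eval x + τ x * g.2.eval x = 0 := by
      intro x hx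
      have e := (mem_Rt hf g1).1 (hR hx)
      simp only [eval_sub, eval_mul, eval_pow] at e
      have h0 : g.2.eval x ≠ 0 := fun h => cop_eval g2 (by rw [h] at e; simpa using e) h
      simp only [τ]
      constructor
      · field_simp
        linear_combination e
      · field_simp
        ring
    refine mem_image.2 ⟨(φ (g, β), R.image fun x => (x, y₀.eval x + y₁ * τ x, w₀.eval x + w₁ * τ x)),
      mem_filter.2 ⟨mem_product.2 ⟨hP, mem_powersetCard.2 ⟨subset_univ _, ?_⟩⟩, fun p hp => ?_⟩, rfl⟩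
    · dsimp only
      rw [card_image_of_injective _ fun x x' e => congrArg Prod.fst e, cR]
    · obtain ⟨x, hx, rfl⟩ := mem_image.1 hp
      obtain ⟨t1, t2⟩ := hτ x hx
      obtain ⟨k1, k2⟩ := H x _ t1
      refine ⟨k1, k2, ?_⟩
      dsimp only
      rw [hh_eq ε _ (v₀ := v₀) (v₁ := v₁) t1 rfl rfl (by
        rw [k2, hv₀, hv₁]
        simp only [eval_add, eval_mul, eval_C, eval_X]
        ring)]
      simp only [φ, b₁, b₂, hA₁, hB₁, eval_add, eval_sub, eval_mul, eval_C, eval_X]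
      linear_combination t2 + τ x * (g.2.eval x + ((L 2).2.1 * y₁ + (L 2).2.2 * w₁ -
        (B0 ε y₀ w₀ v₀ y₁ w₁ v₁).eval x)) * hu
  · rintro ⟨⟨A, B⟩, β⟩ _ ⟨⟨A', B'⟩, β'⟩ _ e
    have e1 := congrArg (·.1) e
    have e2 := congrArg (·.2.1) e
    have e3 := congrArg (·.2.2) e
    simp only [φ] at e1 e2 e3
    rw [e2, e3] at e1
    simp only [b₁, b₂] at e2 e3
    have c1 : B = B' := by linear_combination C y₁ * e2 + C w₁ * e3 - (B - B') * hu'
    have c2 : β = β' := by linear_combination C u₁ * e3 - C u₂ * e2 - (β - β') * hu'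
    rw [add_right_cancel e1, c1, c2]

theorem one_side (n : ℕ) (hn : 2 ≤ n) : ∃ K q₀ : ℕ, 0 < K ∧ ∀ (F : Type) [Field F] [DecidableEq F]
    [Fintype F] (ε : F), ¬ IsSquare ε → (2 : F) ≠ 0 → q₀ ≤ Fintype.card F →
    ∀ L : Fin 3 → F × F × F, ((L 0).2.1 ≠ 0 ∨ (L 0).2.2 ≠ 0) →
      Fintype.card F ^ (3 * n + 8) ≤ K * ∑ P ∈ PP F n, (TS ε n L P).card := by
  obtain ⟨K, q₀, hK, H⟩ := split_arith (n + 3)
  refine ⟨5 * K, q₀ + 10, by positivity, fun F _ _ _ ε hε h2 hq L hL => ?_⟩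
  classical
  have hl := disc_ne hε hL
  refine le_trans ?_ (Nat.mul_le_mul_left _ (EE_sum ε n L))
  set q := Fintype.card F with hq'
  have key : ∀ γ₁ γ₃ : F, q ^ (3 * n + 6) ≤ 5 * K * ∑ γ₂, (EE ε n L (γ₁, γ₂, γ₃)).card := by
    intro γ₁ γ₃
    obtain ⟨f, y₀, w₀, hy₀, hw₀, G⟩ := normal hε h2 hl
      (s := C 1 * X ^ 2 + C (-(L 0).1) * X + C (-γ₁)) (r := C (L 1).1 * X)
      natDegree_quadratic_le (by compute_degree!) (L 1).2.1 (L 1).2.2
    have m1 := many_sq f hl (by omega)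
    set Gd := univ.filter fun γ : F => Fintype.card F ≤ 4 * (univ.filter fun x => ∃ t, t ≠ 0 ∧
      t ^ 2 = (f + C (((L 0).2.2 ^ 2 - ε * (L 0).2.1 ^ 2) * γ)).eval x).card with hGd
    have m2 : ∀ γ₂ ∈ Gd, q ^ (3 * n + 5) ≤ K * (EE ε n L (γ₁, γ₂, γ₃)).card := by
      intro γ₂ hγ
      obtain ⟨g1, g2, g3⟩ := G γ₂
      have hU := (mem_filter.1 hγ).2
      generalize f + C (((L 0).2.2 ^ 2 - ε * (L 0).2.1 ^ 2) * γ₂) = f' at g1 g2 g3 hU
      set U := univ.filter fun x => ∃ t, t ≠ 0 ∧ t ^ 2 = f'.eval x with hU'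
      have : ∀ x ∈ U, ∃ t, t ≠ 0 ∧ t ^ 2 = f'.eval x := fun x hx => (mem_filter.1 hx).2
      choose! r hr using this
      obtain ⟨Z, z1, z2⟩ := split_main h2 n g1 g2 hr
      have s1 := H q U.card Z (Sp n f').card n rfl (by omega) hU z1 z2
      have s2 := EE_lower ε hn L (γ₁, γ₂, γ₃) g1 hy₀ hw₀
        (y₁ := (L 0).2.2 / ((L 0).2.2 ^ 2 - ε * (L 0).2.1 ^ 2))
        (w₁ := -(L 0).2.1 / ((L 0).2.2 ^ 2 - ε * (L 0).2.1 ^ 2))
        (hL.symm.imp (fun h => div_ne_zero h hl) fun h => div_ne_zero (neg_ne_zero.2 h) hl)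
        fun x t ht => by
          obtain ⟨a, b⟩ := (g3 x _ _).2 ⟨t, ht, rfl, rfl⟩
          simp only [eval_add, eval_mul, eval_C, eval_X, eval_pow] at a b
          exact ⟨by linear_combination -a, by linear_combination b⟩
      calc q ^ (3 * n + 5) = q ^ (2 * n + 4) * q ^ (n + 1) := by ring
        _ ≤ K * (Sp n f').card * q ^ (n + 1) := Nat.mul_le_mul_right _ s1
        _ ≤ _ := by rw [mul_assoc]; exact Nat.mul_le_mul_left _ s2
    calc q ^ (3 * n + 6) = q * q ^ (3 * n + 5) := by ring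
      _ ≤ 5 * Gd.card * q ^ (3 * n + 5) := Nat.mul_le_mul_right _ m1
      _ ≤ 5 * ∑ γ₂ ∈ Gd, K * (EE ε n L (γ₁, γ₂, γ₃)).card := by
        rw [mul_assoc]
        exact Nat.mul_le_mul_left _ (card_nsmul_le_sum _ _ _ m2)
      _ ≤ _ := by
        rw [mul_assoc, mul_sum univ]
        exact Nat.mul_le_mul_left _ (sum_le_sum_of_subset (subset_univ _))
  rw [Fintype.sum_prod_type, mul_sum]
  calc q ^ (3 * n + 8) = ∑ _γ₁ : F, ∑ _γ₃ : F, q ^ (3 * n + 6) := by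
        simp only [sum_const, card_univ, smul_eq_mul, ← hq']; ring
    _ ≤ _ := sum_le_sum fun γ₁ _ => by
        rw [Fintype.sum_prod_type_right, mul_sum]
        exact sum_le_sum fun γ₃ _ => key γ₁ γ₃

end Pool.Agent.MP_80dd36_co.Five

end

section

namespace Pool.Agent.MP_80dd36_co.Five

open Polynomial Finset

set_option linter.unusedSectionVars false

open Classical in
/-- complete pairs of `t`-sets -/
noncomputable def Bl {α β : Type*} [Fintype α] [Fintype β] (R : α → β → Prop) (t : ℕ) :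
    Finset (Finset α × Finset β) :=
  (powersetCard t univ ×ˢ powersetCard t univ).filter fun z => ∀ a ∈ z.1, ∀ b ∈ z.2, R a b

theorem mem_Bl {α β : Type*} [Fintype α] [Fintype β] {R : α → β → Prop} {t : ℕ}
    {z : Finset α × Finset β} :
    z ∈ Bl R t ↔ z.1.card = t ∧ z.2.card = t ∧ ∀ a ∈ z.1, ∀ b ∈ z.2, R a b := by
  simp [Bl, and_assoc]

/-- one half of freeness -/
def Hf {α β : Type*} (R : α → β → Prop) (s t : ℕ) : Prop :=
  ∀ (A : Finset α) (B : Finset β), (∀ a ∈ A, ∀ b ∈ B, R a b) → s ≤ A.card → B.card ≤ t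

variable {F : Type*} [Field F] [DecidableEq F] [Fintype F]

/-- adjacency -/
def Rl (ε : F) (P P' : F[X] × F[X] × F[X]) (u v : (F × F × F) × F) : Prop :=
  u.2 + v.2 = pr ε P P' u.1 v.1

theorem Rl_half {ε : F} (hε : ¬ IsSquare ε) (hε' : ¬ IsSquare (-ε)) (h2 : (2 : F) ≠ 0)
    {T : ℕ} (hT : 5 ≤ T) {P P' : F[X] × F[X] × F[X]} (hP : Ok T P) (hP' : Ok T P') :
    Hf (Rl ε P P') 5 (2 * T) := by
  intro A B h hA
  rcases B.eq_empty_or_nonempty with rfl | ⟨b₀, hb₀⟩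
  · simp
  obtain ⟨a₀, ha₀⟩ : A.Nonempty := card_pos.1 (by omega)
  have i1 : Set.InjOn Prod.fst (A : Set ((F × F × F) × F)) := fun a ha a' ha' e => Prod.ext e (by
    have e1 := h a ha b₀ hb₀
    have e2 := h a' ha' b₀ hb₀
    rw [Rl] at e1 e2
    rw [e] at e1
    linear_combination e1 - e2)
  have i2 : Set.InjOn Prod.fst (B : Set ((F × F × F) × F)) := fun a ha a' ha' e => Prod.ext e (by
    have e1 := h a₀ ha₀ a ha
    have e2 := h a₀ ha₀ a' ha'
    rw [Rl] at e1 e2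
    rw [e] at e1
    linear_combination e1 - e2)
  rw [← card_image_of_injOn i2]
  rw [← card_image_of_injOn i1] at hA
  refine free hε hε' h2 hT hP hP' (fun p => pr ε P P' p b₀.1 - b₀.2)
    (fun q => pr ε P P' a₀.1 q - a₀.2) (fun p hp q hq => ?_) hA
  obtain ⟨a, ha, rfl⟩ := mem_image.1 hp
  obtain ⟨b, hb, rfl⟩ := mem_image.1 hq
  have e1 := h a ha b₀ hb₀
  have e2 := h a₀ ha₀ b hb
  have e3 := h a ha b hb
  rw [Rl] at e1 e2 e3
  linear_combination e3 - e1 - e2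

/-- a linear form -/
def ap (l ξ : F × F × F) : F := l.1 * ξ.1 + l.2.1 * ξ.2.1 + l.2.2 * ξ.2.2

variable (F) in
open Classical in
/-- pairs of orthogonal graphs -/
noncomputable def VV : Finset ((Fin 3 → F × F × F) × (Fin 3 → F × F × F)) :=
  univ.filter fun V => ((V.1 0).2.1 ≠ 0 ∨ (V.1 0).2.2 ≠ 0) ∧ ((V.2 0).2.1 ≠ 0 ∨ (V.2 0).2.2 ≠ 0) ∧
    ∀ ξ ζ : F × F × F, ap (V.1 2) ξ * ζ.1 + ξ.2.1 * ζ.2.1 + ξ.2.2 * ζ.2.2 +
      ap (V.1 0) ξ * ap (V.2 0) ζ + ap (V.1 1) ξ * ap (V.2 1) ζ + ξ.1 * ap (V.2 2) ζ = 0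

theorem card_VV : (Fintype.card F - 1) ^ 2 * Fintype.card F ^ 7 ≤ (VV F).card := by
  classical
  have : (univ : Finset (Fˣ × Fˣ × (Fin 7 → F))).card =
      (Fintype.card F - 1) ^ 2 * Fintype.card F ^ 7 := by
    simp only [card_univ, Fintype.card_prod, Fintype.card_units, Fintype.card_fun, Fintype.card_fin]
    ring
  rw [← this]
  refine card_le_card_of_injOn (fun z =>
    (![(z.2.2 2, z.1, z.1 * z.2.2 0), (z.2.2 3, z.2.2 1 * z.1, z.2.2 1 * z.1 * z.2.2 0 + z.2.1),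
      (z.2.2 4, -(z.2.2 5 * z.1 + z.2.2 6 * (z.2.2 1 * z.1)),
        -(z.2.2 5 * (z.1 * z.2.2 0) + z.2.2 6 * (z.2.2 1 * z.1 * z.2.2 0 + z.2.1)))],
     ![(z.2.2 5, -((z.1⁻¹ : Fˣ) + z.2.2 1 * z.2.2 0 * (z.2.1⁻¹ : Fˣ)), z.2.2 1 * (z.2.1⁻¹ : Fˣ)),
      (z.2.2 6, z.2.2 0 * (z.2.1⁻¹ : Fˣ), -(z.2.1⁻¹ : Fˣ)),
      (-z.2.2 4 - z.2.2 2 * z.2.2 5 - z.2.2 3 * z.2.2 6,
        z.2.2 2 * ((z.1⁻¹ : Fˣ) + z.2.2 1 * z.2.2 0 * (z.2.1⁻¹ : Fˣ)) -
          z.2.2 3 * (z.2.2 0 * (z.2.1⁻¹ : Fˣ)),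
        -(z.2.2 2 * (z.2.2 1 * (z.2.1⁻¹ : Fˣ))) + z.2.2 3 * (z.2.1⁻¹ : Fˣ))])) ?_ ?_
  · rintro ⟨a, d, v⟩ -
    refine mem_filter.2 ⟨mem_univ _, Or.inl a.ne_zero, ?_, fun ξ ζ => ?_⟩
    · by_cases h : v 1 = 0
      · left; simp [h]
      · right; simp [h]
    · have ha := a.ne_zero
      have hd := d.ne_zero
      simp [ap]
      field_simp
      ring
  · rintro ⟨a, d, v⟩ - ⟨a', d', v'⟩ - e
    obtain ⟨e1, e2⟩ := Prod.mk.inj e
    have c0 := congrFun e1 0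
    have c1 := congrFun e1 1
    have c2 := congrFun e1 2
    have c3 := congrFun e2 0
    have c4 := congrFun e2 1
    simp only [Matrix.cons_val_zero, Matrix.cons_val_one, Matrix.cons_val, Prod.mk.injEq]
      at c0 c1 c2 c3 c4
    obtain rfl : a = a' := Units.ext c0.2.1
    have b0 : v 0 = v' 0 := mul_left_cancel₀ a.ne_zero c0.2.2
    have b1 : v 1 = v' 1 := mul_right_cancel₀ a.ne_zero c1.2.1
    obtain rfl : d = d' := Units.ext (by
      have := c1.2.2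
      rw [b0, b1] at this
      exact add_left_cancel this)
    have : v = v' := by
      funext i
      fin_cases i
      exacts [b0, b1, c0.1, c1.1, c2.1, c3.1, c4.1]
    rw [this]

theorem Gr.diff {ε : F} {P : F[X] × F[X] × F[X]} {S : Finset (F × F × F)} {L : Fin 3 → F × F × F}
    (h : Gr ε P S L) {p p₀ : F × F × F} (hp : p ∈ S) (hp₀ : p₀ ∈ S) :
    p.1 ^ 2 = p₀.1 ^ 2 + ap (L 0) (p - p₀) ∧
    vv ε p.1 p.2.1 p.2.2 = vv ε p₀.1 p₀.2.1 p₀.2.2 + ap (L 1) (p - p₀) ∧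
    hh ε P p.1 p.2.1 p.2.2 = hh ε P p₀.1 p₀.2.1 p₀.2.2 + ap (L 2) (p - p₀) := by
  obtain ⟨⟨k₁, h₁⟩, ⟨k₂, h₂⟩, ⟨k₃, h₃⟩⟩ := h
  have a1 := h₁ p hp
  have a2 := h₂ p hp
  have a3 := h₃ p hp
  have b1 := h₁ p₀ hp₀
  have b2 := h₂ p₀ hp₀
  have b3 := h₃ p₀ hp₀
  simp at a1 a2 a3 b1 b2 b3
  simp only [ap, Prod.fst_sub, Prod.snd_sub]
  exact ⟨by linear_combination a1 - b1, by linear_combination a2 - b2,
    by linear_combination a3 - b3⟩

theorem Bl_lower {ε : F} (hε : ¬ IsSquare ε) (hε' : ¬ IsSquare (-ε)) (h2 : (2 : F) ≠ 0)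
    {n : ℕ} (hn : 2 ≤ n) {P P' : F[X] × F[X] × F[X]} (hP : Ok (n + 3) P) (hP' : Ok (n + 3) P') :
    (∑ V ∈ VV F, (TS ε n V.1 P).card * (TS ε n V.2 P').card) * Fintype.card F ≤
      (Bl (Rl ε P P') (2 * (n + 3))).card := by
  classical
  have : ∀ S : Finset (F × F × F), S.Nonempty → ∃ p, p ∈ S := fun S h => h
  choose! pt hpt using this
  have sp : ∀ {L : Fin 3 → F × F × F} {Q : F[X] × F[X] × F[X]} {S : Finset (F × F × F)},
      S ∈ TS ε n L Q → S.card = 2 * (n + 3) ∧ Gr ε Q S L ∧ pt S ∈ S := by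
    intro L Q S h
    obtain ⟨a, b⟩ := mem_filter.1 h
    have c := (mem_powersetCard.1 a).2
    exact ⟨c, b, hpt S (card_pos.1 (by omega))⟩
  have e0 : (∑ V ∈ VV F, (TS ε n V.1 P).card * (TS ε n V.2 P').card) * Fintype.card F =
      ((VV F).sigma fun V => TS ε n V.1 P ×ˢ TS ε n V.2 P' ×ˢ (univ : Finset F)).card := by
    rw [card_sigma, sum_mul]
    refine sum_congr rfl fun V _ => ?_
    rw [card_product, card_product, card_univ, mul_assoc]
  rw [e0]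
  refine card_le_card_of_injOn (fun z =>
    (z.2.1.image fun p => (p, z.2.2.2 + pr ε P P' p (pt z.2.2.1)),
     z.2.2.1.image fun q => (q, pr ε P P' (pt z.2.1) q - pr ε P P' (pt z.2.1) (pt z.2.2.1) -
      z.2.2.2))) ?_ ?_
  · rintro ⟨V, S, S', z⟩ hz
    obtain ⟨hV, h⟩ := mem_sigma.1 hz
    obtain ⟨hS, h'⟩ := mem_product.1 h
    obtain ⟨a1, a2, a3⟩ := sp hS
    obtain ⟨b1, b2, b3⟩ := sp (mem_product.1 h').1
    dsimp only at a1 a2 a3 b1 b2 b3
    refine mem_Bl.2 ⟨?_, ?_, fun a ha b hb => ?_⟩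
    · dsimp only
      rw [card_image_of_injective _ fun x x' e => congrArg Prod.fst e, a1]
    · dsimp only
      rw [card_image_of_injective _ fun x x' e => congrArg Prod.fst e, b1]
    · obtain ⟨p, hp, rfl⟩ := mem_image.1 ha
      obtain ⟨q, hq, rfl⟩ := mem_image.1 hb
      obtain ⟨c1, c2, c3⟩ := a2.diff hp a3
      obtain ⟨d1, d2, d3⟩ := b2.diff hq b3
      have o := (mem_filter.1 hV).2.2.2 (p - pt S) (q - pt S')
      simp only [Prod.fst_sub, Prod.snd_sub] at o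
      simp only [Rl, pr]
      rw [c1, c2, c3, d1, d2, d3]
      linear_combination -o
  · rintro ⟨V, S, S', z⟩ hz ⟨V₂, S₂, S₂', z₂⟩ hz₂ e
    obtain ⟨e1, e2⟩ := Prod.mk.inj e
    obtain rfl : S = S₂ := by simpa [image_image, Function.comp_def] using congrArg (image Prod.fst) e1
    obtain rfl : S' = S₂' := by
      simpa [image_image, Function.comp_def] using congrArg (image Prod.fst) e2
    obtain ⟨hS, h'⟩ := mem_product.1 (mem_sigma.1 hz).2
    obtain ⟨hS₂, h₂'⟩ := mem_product.1 (mem_sigma.1 hz₂).2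
    obtain ⟨a1, a2, a3⟩ := sp hS
    obtain ⟨b1, b2, b3⟩ := sp (mem_product.1 h').1
    dsimp only at a1 a2 a3 b1 b2 b3 e1
    obtain rfl : V = V₂ := Prod.ext
      (Gr.unique hε hε' h2 (by omega) hP (by omega) a2 (sp hS₂).2.1)
      (Gr.unique hε hε' h2 (by omega) hP' (by omega) b2 (sp (mem_product.1 h₂').1).2.1)
    have m := mem_image_of_mem (fun p => (p, z + pr ε P P' p (pt S'))) a3
    rw [e1] at m
    obtain ⟨p, -, e3⟩ := mem_image.1 m
    obtain ⟨rfl, e4⟩ := Prod.mk.inj e3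
    rw [add_right_cancel e4]

theorem field_main (n : ℕ) (hn : 2 ≤ n) : ∃ K q₀ : ℕ, 0 < K ∧ ∀ (F : Type) [Field F]
    [DecidableEq F] [Fintype F] (ε : F), ¬ IsSquare ε → ¬ IsSquare (-ε) → (2 : F) ≠ 0 →
    q₀ ≤ Fintype.card F → ∃ R : (F × F × F) × F → (F × F × F) × F → Prop,
      Hf R 5 (2 * (n + 3)) ∧ Hf (fun b a => R a b) 5 (2 * (n + 3)) ∧
      Fintype.card F ^ 16 ≤ K * (Bl R (2 * (n + 3))).card := by
  obtain ⟨K, q₀, hK, H⟩ := one_side n hn
  refine ⟨4 * K ^ 2, q₀ + 2, by positivity, fun F _ _ _ ε hε hε' h2 hq => ?_⟩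
  set q := Fintype.card F with hq'
  let a : (F[X] × F[X] × F[X]) × (F[X] × F[X] × F[X]) → ℕ := fun y =>
    ∑ V ∈ VV F, (TS ε n V.1 y.1).card * (TS ε n V.2 y.2).card
  have cP : (PP F n ×ˢ PP F n).card = q ^ (6 * n + 10) := by rw [card_product, card_PP]; ring
  obtain ⟨y, hy, hm⟩ := exists_max_image (PP F n ×ˢ PP F n) a
    (card_pos.1 (by rw [cP]; exact Nat.pow_pos (by omega)))
  obtain ⟨y1, y2⟩ := mem_product.1 hy
  have o1 := PP_ok y1
  have o2 := PP_ok y2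
  refine ⟨Rl ε y.1 y.2, Rl_half hε hε' h2 (by omega) o1 o2, ?_, ?_⟩
  · intro A B h
    refine Rl_half hε hε' h2 (by omega) o2 o1 A B fun u hu v hv => ?_
    rw [Rl, pr_comm, add_comm]
    exact h u hu v hv
  have s1 : ∑ y ∈ PP F n ×ˢ PP F n, a y ≤ q ^ (6 * n + 10) * a y := by
    rw [← cP]; exact sum_le_card_nsmul _ _ _ hm
  have s2 : (VV F).card * q ^ (6 * n + 16) ≤ K ^ 2 * ∑ y ∈ PP F n ×ˢ PP F n, a y := by
    simp only [a]
    rw [sum_comm, mul_sum]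
    refine card_nsmul_le_sum _ _ _ fun V hV => ?_
    obtain ⟨v1, v2, -⟩ := (mem_filter.1 hV).2
    rw [sum_product' (f := fun P P' => (TS ε n V.1 P).card * (TS ε n V.2 P').card),
      ← sum_mul_sum]
    calc q ^ (6 * n + 16) = q ^ (3 * n + 8) * q ^ (3 * n + 8) := by ring
      _ ≤ _ := Nat.mul_le_mul (H F ε hε h2 (by omega) V.1 v1) (H F ε hε h2 (by omega) V.2 v2)
      _ = _ := by ring
  have s3 : a y * q ≤ _ := Bl_lower hε hε' h2 hn o1 o2
  have s4 : q ^ 9 ≤ 4 * (VV F).card := by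
    calc q ^ 9 = q ^ 2 * q ^ 7 := by ring
      _ ≤ (2 * (q - 1)) ^ 2 * q ^ 7 := Nat.mul_le_mul_right _ (Nat.pow_le_pow_left (by omega) _)
      _ = 4 * ((q - 1) ^ 2 * q ^ 7) := by ring
      _ ≤ _ := Nat.mul_le_mul_left _ card_VV
  refine Nat.le_of_mul_le_mul_left (c := q ^ (6 * n + 10)) ?_ (Nat.pow_pos (by omega))
  calc q ^ (6 * n + 10) * q ^ 16 = q ^ 9 * q ^ (6 * n + 16) * q := by ring
    _ ≤ 4 * (VV F).card * q ^ (6 * n + 16) * q := by gcongr
    _ = 4 * ((VV F).card * q ^ (6 * n + 16)) * q := by ring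
    _ ≤ 4 * (K ^ 2 * (q ^ (6 * n + 10) * a y)) * q :=
      Nat.mul_le_mul_right _ (Nat.mul_le_mul_left _ (s2.trans (Nat.mul_le_mul_left _ s1)))
    _ = q ^ (6 * n + 10) * (4 * K ^ 2 * (a y * q)) := by ring
    _ ≤ _ := by gcongr

end Pool.Agent.MP_80dd36_co.Five

end

section

namespace Pool.Agent.MP_80dd36_co.Five

open Finset SimpleGraph

variable {α β : Type}

/-- one apex on each side -/
def apx (R : α → β → Prop) (a : Option α) (b : Option β) : Prop :=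
  ∀ x y, a = some x → b = some y → R x y

theorem card_le_erase (A : Finset (Option α)) : A.card ≤ A.eraseNone.card + 1 := by
  classical
  by_cases h : none ∈ A
  · rw [card_eraseNone_of_mem h]; omega
  · rw [card_eraseNone_of_not_mem h]; omega

theorem Hf.apx {R : α → β → Prop} {s t : ℕ} (h : Hf R s t) : Hf (apx R) (s + 1) (t + 1) := by
  intro A B H hA
  have h1 := card_le_erase A
  have h2 := card_le_erase B
  have := h A.eraseNone B.eraseNone
    (fun a ha b hb => H _ (mem_eraseNone.1 ha) _ (mem_eraseNone.1 hb) a b rfl rfl) (by omega)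
  omega

theorem Bl_apx [Fintype α] [Fintype β] (R : α → β → Prop) (t : ℕ) :
    (Bl R t).card ≤ (Bl (apx R) (t + 1)).card := by
  refine card_le_card_of_injOn (fun z => (insertNone z.1, insertNone z.2)) (fun z hz => ?_)
    fun z _ z' _ e => ?_
  · obtain ⟨a, b, c⟩ := mem_Bl.1 hz
    refine mem_Bl.2 ⟨by simp [a], by simp [b], ?_⟩
    rintro _ hx _ hy x y rfl rfl
    exact c x (some_mem_insertNone.1 hx) y (some_mem_insertNone.1 hy)
  · obtain ⟨e1, e2⟩ := Prod.mk.inj e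
    exact Prod.ext (insertNone.injective e1) (insertNone.injective e2)

/-- the bipartite graph of a relation -/
def bg (R : α → β → Prop) : SimpleGraph (α ⊕ β) where
  Adj u v := (∃ a b, u = .inl a ∧ v = .inr b ∧ R a b) ∨ ∃ a b, v = .inl a ∧ u = .inr b ∧ R a b
  symm := ⟨fun _ _ h => h.symm⟩
  loopless := ⟨by rintro _ (⟨a, b, rfl, h, -⟩ | ⟨a, b, rfl, h, -⟩) <;> cases h⟩

theorem bg_half {R : α → β → Prop} {s t : ℕ} (hs : 1 ≤ s) (h : Hf R s t)
    (h' : Hf (fun b a => R a b) s t) : Hf (bg R).Adj s t := by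
  intro A B H hA
  rcases B.eq_empty_or_nonempty with rfl | ⟨b₀, hb₀⟩
  · simp
  obtain ⟨a₀, ha₀⟩ : A.Nonempty := card_pos.1 (by omega)
  have e1 := card_toLeft_add_card_toRight (u := A)
  have e2 := card_toLeft_add_card_toRight (u := B)
  rcases H a₀ ha₀ b₀ hb₀ with ⟨a, b, rfl, rfl, -⟩ | ⟨a, b, rfl, rfl, -⟩
  · have z1 : A.toRight.card = 0 := card_eq_zero.2 (eq_empty_of_forall_notMem fun x hx => by
      simpa [bg] using H _ (mem_toRight.1 hx) _ hb₀)
    have z2 : B.toLeft.card = 0 := card_eq_zero.2 (eq_empty_of_forall_notMem fun x hx => by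
      simpa [bg] using H _ ha₀ _ (mem_toLeft.1 hx))
    have := h A.toLeft B.toRight (fun x hx y hy => by
      simpa [bg] using H _ (mem_toLeft.1 hx) _ (mem_toRight.1 hy)) (by omega)
    omega
  · have z1 : A.toLeft.card = 0 := card_eq_zero.2 (eq_empty_of_forall_notMem fun x hx => by
      simpa [bg] using H _ (mem_toLeft.1 hx) _ hb₀)
    have z2 : B.toRight.card = 0 := card_eq_zero.2 (eq_empty_of_forall_notMem fun x hx => by
      simpa [bg] using H _ ha₀ _ (mem_toRight.1 hx))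
    have := h' A.toRight B.toLeft (fun x hx y hy => by
      simpa [bg] using H _ (mem_toRight.1 hx) _ (mem_toLeft.1 hy)) (by omega)
    omega

theorem Hf.free_map {G : SimpleGraph α} {s₀ s t : ℕ} (h : Hf G.Adj s₀ t) (h0 : 1 ≤ s₀)
    (hs : s₀ ≤ s) (e : α ↪ β) : (completeBipartiteGraph (Fin s) (Fin (t + 1))).Free (G.map e) := by
  classical
  rintro ⟨f⟩
  have hi : Function.Injective (f : _ → β) := f.injective
  have ad : ∀ i j, (G.map e).Adj (f (.inl i)) (f (.inr j)) := fun i j => f.toHom.map_rel (by simp)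
  have l : ∀ i, ∃ a, e a = f (.inl i) := fun i => by
    obtain ⟨a, -, -, h, -⟩ := (map_adj e G _ _).1 (ad i 0)
    exact ⟨a, h⟩
  have r : ∀ j, ∃ a, e a = f (.inr j) := fun j => by
    obtain ⟨-, a, -, -, h⟩ := (map_adj e G _ _).1 (ad ⟨0, by omega⟩ j)
    exact ⟨a, h⟩
  choose u hu using l
  choose v hv using r
  have iu : Function.Injective u := fun i j k => Sum.inl_injective (hi (by rw [← hu, ← hu, k]))
  have iv : Function.Injective v := fun i j k => Sum.inr_injective (hi (by rw [← hv, ← hv, k]))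
  have := h (univ.image u) (univ.image v) (fun a ha b hb => by
    obtain ⟨i, -, rfl⟩ := mem_image.1 ha
    obtain ⟨j, -, rfl⟩ := mem_image.1 hb
    have := ad i j
    rwa [← hu, ← hv, map_adj_apply] at this) (by simpa [card_image_of_injective _ iu] using hs)
  simp [card_image_of_injective _ iv] at this

theorem Bl_le [Fintype α] [Fintype β] (R : α → β → Prop) (t : ℕ) :
    (Bl R t).card ≤ (bg R).labelledCopyCount (completeBipartiteGraph (Fin t) (Fin t)) := by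
  classical
  have := copy_finite (bg R) (completeBipartiteGraph (Fin t) (Fin t))
  have := Fintype.ofFinite (Copy (completeBipartiteGraph (Fin t) (Fin t)) (bg R))
  rw [lcc_eq, Nat.card_eq_fintype_card, ← card_univ]
  refine card_le_card_of_surjOn (fun f => ((univ.image fun i => f (.inl i)).toLeft,
    (univ.image fun i => f (.inr i)).toRight)) fun z hz => ?_
  obtain ⟨a, b, c⟩ := mem_Bl.1 hz
  let u := (z.1.equivFinOfCardEq a).symm
  let v := (z.2.equivFinOfCardEq b).symm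
  refine ⟨⟨⟨Sum.map (fun i => (u i).1) fun i => (v i).1, ?_⟩, ?_⟩, by simp, ?_⟩
  · rintro (i | i) (j | j) hij
    · simp at hij
    · exact Or.inl ⟨_, _, rfl, rfl, c _ (u i).2 _ (v j).2⟩
    · exact Or.inr ⟨_, _, rfl, rfl, c _ (u j).2 _ (v i).2⟩
    · simp at hij
  · exact Function.Injective.sumMap (Subtype.val_injective.comp u.injective)
      (Subtype.val_injective.comp v.injective)
  · refine Prod.ext ?_ ?_
    · ext x
      simp only [mem_toLeft, mem_image, mem_univ, true_and]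
      constructor
      · rintro ⟨i, hi⟩
        exact Sum.inl_injective hi ▸ (u i).2
      · intro hx
        exact ⟨u.symm ⟨x, hx⟩, congrArg (fun y : z.1 => Sum.inl y.1) (u.apply_symm_apply _)⟩
    · ext x
      simp only [mem_toRight, mem_image, mem_univ, true_and]
      constructor
      · rintro ⟨i, hi⟩
        exact Sum.inr_injective hi ▸ (v i).2
      · intro hx
        exact ⟨v.symm ⟨x, hx⟩, congrArg (fun y : z.2 => Sum.inr y.1) (v.apply_symm_apply _)⟩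

theorem to_fin [Fintype α] [Fintype β] {R : α → β → Prop} {s₀ s t n : ℕ} (h0 : 1 ≤ s₀)
    (hs : s₀ ≤ s) (h : Hf R s₀ t) (h' : Hf (fun b a => R a b) s₀ t)
    (hn : Fintype.card α + Fintype.card β ≤ n) :
    ∃ G : SimpleGraph (Fin n), (completeBipartiteGraph (Fin s) (Fin (t + 1))).Free G ∧
      (Bl R t).card ≤ (t + t) ^ (t + t) * G.copyCount (completeBipartiteGraph (Fin t) (Fin t)) := by
  obtain ⟨e⟩ : Nonempty ((α ⊕ β) ↪ Fin n) :=
    Function.Embedding.nonempty_of_card_le (by simpa using hn)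
  refine ⟨(bg R).map e, (bg_half h0 h h').free_map h0 hs e, ?_⟩
  have h2 := labelled_le ((bg R).map e) (completeBipartiteGraph (Fin t) (Fin t))
  simp only [Fintype.card_sum, Fintype.card_fin] at h2
  exact (Bl_le R t).trans ((labelled_map _ e _).trans h2)

theorem lower4 (s t : ℕ) (hs : 5 ≤ s) (ht : 10 ≤ t) (h : Even t ∨ 6 ≤ s) :
    ∃ K n₀ : ℕ, 0 < K ∧ ∀ n, n₀ ≤ n → ∃ G : SimpleGraph (Fin n),
      (completeBipartiteGraph (Fin s) (Fin (t + 1))).Free G ∧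
      n ^ 4 ≤ K * G.copyCount (completeBipartiteGraph (Fin t) (Fin t)) := by
  classical
  obtain ⟨K, q₀, hK, H⟩ := field_main (t / 2 - 3) (by omega)
  refine ⟨2500 ^ 4 * (K * (t + t) ^ (t + t)), 4 * 625 ^ (q₀ + 1), by positivity, fun n hn => ?_⟩
  obtain ⟨k, hk⟩ : ∃ k, k = Nat.log 625 (n / 4) := ⟨_, rfl⟩
  have p0 : 0 < 625 ^ (q₀ + 1) := by positivity
  have k1 : 625 ^ k ≤ n / 4 := hk ▸ Nat.pow_log_le_self _ (by omega)
  have k2 : n / 4 < 625 ^ (k + 1) := hk ▸ Nat.lt_pow_succ_log_self (by norm_num) _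
  have k3 : q₀ + 1 ≤ k := hk ▸ Nat.le_log_of_pow_le (by norm_num) (by omega)
  have : Fact (Nat.Prime 5) := ⟨by norm_num⟩
  have := Fintype.ofFinite (GaloisField 5 k)
  have hc : Fintype.card (GaloisField 5 k) = 5 ^ k := by
    rw [← Nat.card_eq_fintype_card, GaloisField.card 5 k (by omega)]
  have h5 : (5 : GaloisField 5 k) = 0 := by exact_mod_cast CharP.cast_eq_zero (GaloisField 5 k) 5
  obtain ⟨ε, hε⟩ := FiniteField.exists_nonsquare (F := GaloisField 5 k) (by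
    rw [ringChar.eq _ 5]; norm_num)
  obtain ⟨R, r1, r2, r3⟩ := H (GaloisField 5 k) ε hε
    (fun ⟨a, ha⟩ => hε ⟨2 * a, by linear_combination -ha - a * a * h5⟩)
    (fun e => one_ne_zero (α := GaloisField 5 k) (by linear_combination h5 - 2 * e))
    (by rw [hc]; have := Nat.lt_pow_self (n := k) (show 1 < 5 by norm_num); omega)
  have e4 : Fintype.card ((GaloisField 5 k × GaloisField 5 k × GaloisField 5 k) ×
      GaloisField 5 k) = 625 ^ k := by
    simp only [Fintype.card_prod, hc]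
    rw [show 625 = 5 * 5 * 5 * 5 from rfl, mul_pow, mul_pow, mul_pow]
    ring
  have e16 : Fintype.card (GaloisField 5 k) ^ 16 = (625 ^ k) ^ 4 := by
    rw [hc, show 625 = 5 ^ 4 from rfl, ← pow_mul, ← pow_mul, ← pow_mul]
    congr 1
    ring
  rw [e16] at r3
  have p1 : 0 < 625 ^ k := by positivity
  have fin : ∀ c : ℕ, (Bl R (2 * (t / 2 - 3 + 3))).card ≤ (t + t) ^ (t + t) * c →
      n ^ 4 ≤ 2500 ^ 4 * (K * (t + t) ^ (t + t)) * c := by
    intro c hc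
    calc n ^ 4 ≤ (2500 * 625 ^ k) ^ 4 := Nat.pow_le_pow_left (by rw [pow_succ] at k2; omega) _
      _ = 2500 ^ 4 * (625 ^ k) ^ 4 := mul_pow _ _ _
      _ ≤ 2500 ^ 4 * (K * ((t + t) ^ (t + t) * c)) :=
        Nat.mul_le_mul_left _ (r3.trans (Nat.mul_le_mul_left _ hc))
      _ = _ := by ring
  rcases Nat.even_or_odd' t with ⟨m, hm | hm⟩
  · have e : 2 * (t / 2 - 3 + 3) = t := by omega
    rw [e] at r1 r2 fin
    obtain ⟨G, g1, g2⟩ := to_fin (n := n) (by norm_num) hs r1 r2 (by rw [e4]; omega)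
    exact ⟨G, g1, fin _ g2⟩
  · have e : 2 * (t / 2 - 3 + 3) + 1 = t := by omega
    have hs6 : 6 ≤ s := h.resolve_left (by rw [hm]; simp)
    have a1 := r1.apx
    have a2 : Hf (fun b a => apx R a b) (5 + 1) (2 * (t / 2 - 3 + 3) + 1) := fun A B c =>
      r2.apx A B fun a ha b hb x y e1 e2 => c a ha b hb y x e2 e1
    have a3 := Bl_apx R (2 * (t / 2 - 3 + 3))
    rw [e] at a1 a2 a3
    obtain ⟨G, g1, g2⟩ := to_fin (n := n) (by norm_num) hs6 a1 a2 (by
      rw [Fintype.card_option, e4]; omega)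
    exact ⟨G, g1, fin _ (a3.trans g2)⟩

end Pool.Agent.MP_80dd36_co.Five

end
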