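import Mathlib
import Pool.Agent.Mg.F80dd36.G4b2e35

set_option linter.all false

section

namespace Pool.Agent.MP_80dd36_co.Unb

open Finset Submodule Module Function

set_option linter.unusedSectionVars false

variable {F : Type} [Field F] [Fintype F] [CharP F 2]

/-- separating functions whose span is stable under squaring -/
theorem sq_card {σ ι : Type} [Fintype σ] [Fintype ι] (g : ι → σ → F)
    (h2 : ∀ i, g i ^ 2 ∈ span F (Set.range g)) (hs : ∀ s s', (∀ i, g i s = g i s') → s = s') :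
    Fintype.card σ ≤ 2 ^ Fintype.card ι := by
  classical
  choose A hA using fun i => (mem_span_range_iff_exists_fun F).1 (h2 i)
  obtain ⟨κ, a, ha, hsp, hli⟩ := exists_linearIndependent' F (fun s i => g i s)
  have := Fintype.ofInjective a ha
  have hk : Fintype.card κ ≤ Fintype.card ι := by simpa using hli.fintype_card_le_finrank
  have : ∀ s, ∃ l : κ → F, ∑ x, l x • (fun i => g i (a x)) = fun i => g i s := fun s =>
    (mem_span_range_iff_exists_fun F).1 (hsp ▸ subset_span ⟨s, rfl⟩ :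
      (fun i => g i s) ∈ span F (Set.range ((fun s i => g i s) ∘ a)))
  choose l hl using this
  have hl' : ∀ s i, g i s = ∑ x, l s x * g i (a x) := fun s i => by
    simpa using (congrFun (hl s) i).symm
  have hA' : ∀ s i, g i s ^ 2 = ∑ j, A i j * g j s := fun s i => by
    simpa using (congrFun (hA i) s).symm
  have h01 : ∀ s x, l s x = 0 ∨ l s x = 1 := by
    intro s
    choose ν hν using fun x => isSquare_of_charTwo' (l s x ^ 2 - l s x)
    have h0 := Fintype.linearIndependent_iff.1 hli ν (by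
      funext i
      have e1 : g i s ^ 2 = ∑ x, l s x ^ 2 * g i (a x) ^ 2 := by
        rw [hl' s i, CharTwo.sum_sq]
        simp only [mul_pow]
      have e2 : g i s ^ 2 = ∑ x, l s x * g i (a x) ^ 2 := by
        simp only [hA', mul_sum]
        rw [sum_comm]
        refine sum_congr rfl fun j _ => ?_
        rw [hl' s j, mul_sum]
        exact sum_congr rfl fun x _ => by ring
      have e3 : (∑ x, ν x * g i (a x)) ^ 2 = 0 := by
        rw [CharTwo.sum_sq, ← sub_self (g i s ^ 2)]
        nth_rewrite 1 [e1]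
        rw [e2, ← sum_sub_distrib]
        exact sum_congr rfl fun x _ => by linear_combination -(g i (a x)) ^ 2 * hν x
      simpa using pow_eq_zero_iff (two_ne_zero) |>.1 e3)
    intro x
    have := hν x
    rw [h0 x] at this
    rcases mul_eq_zero.1 (show l s x * (l s x - 1) = 0 by linear_combination this) with h | h
    exacts [Or.inl h, Or.inr (sub_eq_zero.1 h)]
  calc Fintype.card σ ≤ Fintype.card (Finset κ) :=
        Fintype.card_le_of_injective (fun s => univ.filter fun x => l s x = 1) fun s s' e =>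
          hs s s' fun i => by
            rw [hl' s i, hl' s' i]
            refine sum_congr rfl fun x _ => congrArg (· * _) ?_
            have := Finset.ext_iff.1 e x
            simp only [mem_filter, mem_univ, true_and] at this
            rcases h01 s x with h | h
            · rcases h01 s' x with h' | h'
              · rw [h, h']
              · rw [h', this.2 h']
            · rw [h, this.1 h]
    _ ≤ _ := by rw [Fintype.card_finset]; exact Nat.pow_le_pow_right (by norm_num) hk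

theorem pow_mem {σ : Type} {T : Set (σ → F)} {W : Submodule F (σ → F)} (b : ℕ)
    (h : ∀ f ∈ T, f ^ 2 ^ b ∈ W) {f : σ → F} (hf : f ∈ span F T) : f ^ 2 ^ b ∈ W := by
  induction hf using span_induction with
  | mem f hf => exact h f hf
  | zero => rw [zero_pow (by positivity)]; exact W.zero_mem
  | add f g _ _ h1 h2 =>
    have : (f + g) ^ 2 ^ b = f ^ 2 ^ b + g ^ 2 ^ b := funext fun s => add_pow_char_pow _ _ 2 b
    exact this ▸ W.add_mem h1 h2
  | smul c f _ h1 => rw [smul_pow]; exact W.smul_mem _ h1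

/-- the footprint bound -/
theorem foot {σ I : Type} [Fintype σ] [Fintype I] {d : I → ℕ} (hd : Injective d) {α : I → F}
    (hα : Injective α) (z : I → σ → F) (hz : ∀ s s', (∀ i, z i s = z i s') → s = s') {ρ : ℕ}
    (hρ : finrank F (span F (Set.range z)) ≤ ρ)
    (hP : ∀ j < ρ, ∑ i, α i ^ j • z i ^ 2 ^ d i ∈
      span F {f | ∃ i b, b < d i ∧ f = z i ^ 2 ^ b}) :
    ∃ J : Finset I, J.card ≤ ρ ∧ Fintype.card σ ≤ 2 ^ ∑ i ∈ J, d i := by
  classical
  let J := univ.filter fun i => z i ∉ span F (z '' {j | d i < d j})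
  have hJ : ∀ i, i ∉ J → z i ∈ span F (z '' {j | d i < d j}) := fun i hi => by simpa [J] using hi
  have cJ : J.card ≤ ρ := by
    have : LinearIndependent F fun i : J => (⟨z i, subset_span ⟨i, rfl⟩⟩ : span F (Set.range z)) := by
      refine LinearIndependent.of_comp (Submodule.subtype _) (Fintype.linearIndependent_iff.2 ?_)
      intro l hl
      by_contra! h0
      obtain ⟨i, hi, hm⟩ := exists_min_image (univ.filter fun i => l i ≠ 0) (fun i => d i)
        (h0.imp fun i hi => by simpa using hi)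
      refine (mem_filter.1 i.2).2 ((smul_mem_iff _ (mem_filter.1 hi).2).1 ?_)
      rw [← add_sum_erase _ _ (mem_univ i), add_eq_zero_iff_eq_neg] at hl
      refine hl ▸ neg_mem (sum_mem fun j hj => ?_)
      by_cases h : l j = 0
      · simp [h]
      · refine smul_mem _ _ (subset_span ⟨j, lt_of_le_of_ne (hm j (by simpa using h)) fun e => ?_, rfl⟩)
        exact (mem_erase.1 hj).1 (Subtype.ext (hd e).symm)
    simpa using this.fintype_card_le_finrank.trans hρ
  let g : (Σ i : J, Fin (d i)) → σ → F := fun x => z x.1 ^ 2 ^ (x.2 : ℕ)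
  let W := span F (Set.range g)
  have key : ∀ n i b, univ.sup d < d i + n → b < d i → z i ^ 2 ^ b ∈ W := by
    intro n
    induction n with
    | zero => exact fun i b h => absurd (le_sup (mem_univ i)) (not_le.2 h)
    | succ n ih =>
      intro i b h hb
      by_cases hi : i ∈ J
      · exact subset_span ⟨⟨⟨i, hi⟩, ⟨b, hb⟩⟩, rfl⟩
      · refine pow_mem b ?_ (hJ i hi)
        rintro _ ⟨j, hj : d i < d j, rfl⟩
        exact ih j b (by omega) (by omega)
  have k1 : ∀ i b, b < d i → z i ^ 2 ^ b ∈ W := fun i b => key (univ.sup d + 1) i b (by omega)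
  have k2 : ∀ i, i ∉ J → z i ^ 2 ^ d i ∈ W := fun i hi => pow_mem _ (by
    rintro _ ⟨j, hj, rfl⟩
    exact k1 j _ hj) (hJ i hi)
  have k3 : ∀ i b, b ≤ d i → z i ^ 2 ^ b ∈ W := by
    intro i b hb
    rcases hb.lt_or_eq with hb | rfl
    · exact k1 i b hb
    by_cases hi : i ∈ J
    swap
    · exact k2 i hi
    let p := Lagrange.nodal (J.erase i) α
    have hp : p.natDegree < ρ := by
      have := card_pos.2 ⟨i, hi⟩
      rw [Lagrange.natDegree_nodal, card_erase_of_mem hi]
      omega
    have h1 : ∑ j, p.eval (α j) • z j ^ 2 ^ d j ∈ W := by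
      simp only [Polynomial.eval_eq_sum_range' hp, sum_smul, mul_smul]
      rw [sum_comm]
      refine sum_mem fun n hn => ?_
      rw [← smul_sum]
      refine smul_mem _ _ (span_le.2 ?_ (hP n (mem_range.1 hn)))
      rintro _ ⟨j, c, hc, rfl⟩
      exact k1 j c hc
    rw [← add_sum_erase _ _ (mem_univ i)] at h1
    refine (smul_mem_iff _ (Lagrange.eval_nodal_not_at_node fun j hj e =>
      (mem_erase.1 hj).1 (hα e).symm)).1 ((W.add_mem_iff_left (sum_mem fun j hj => ?_)).1 h1)
    by_cases h : j ∈ J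
    · rw [Lagrange.eval_nodal_at_node (mem_erase.2 ⟨(mem_erase.1 hj).1, h⟩), zero_smul]
      exact W.zero_mem
    · exact smul_mem _ _ (k2 j h)
  refine ⟨J, cJ, (sq_card g (fun x => ?_) fun s s' e => hz s s' fun i => ?_).trans_eq ?_⟩
  · rw [← pow_mul, ← pow_succ]
    exact k3 _ _ x.2.2
  · have h := k3 i 0 (Nat.zero_le _)
    rw [pow_zero, pow_one] at h
    generalize z i = f at h
    induction h using span_induction with
    | mem f hf => obtain ⟨x, rfl⟩ := hf; exact e x
    | zero => rfl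
    | add f g _ _ h1 h2 => simp [h1, h2]
    | smul c f _ h1 => simp [h1]
  · simp [sum_attach]

end Pool.Agent.MP_80dd36_co.Unb

end

section

namespace Pool.Agent.MP_80dd36_co.Unb

open Finset Submodule Module Function Matrix Five

set_option linter.unusedSectionVars false

variable {F : Type} [Field F] [Fintype F] [CharP F 2] {k : ℕ}

/-- exponents of the leading terms -/
def dg (k : ℕ) : Fin k ⊕ Fin k → ℕ := Sum.elim (fun i => i) fun i => k + i

/-- indices of the free terms -/
abbrev Io (k : ℕ) := Σ l : Fin k, Fin (k + l)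

/-- their number -/
def aa (k : ℕ) : ℕ := ∑ l : Fin k, (k + l)

theorem card_Io : Fintype.card (Io k) = aa k := by simp [aa]

theorem dg_inj : Injective (dg k) := by
  rintro (i | i) (j | j) h <;> simp only [dg, Sum.elim_inl, Sum.elim_inr] at h
  · rw [Fin.ext h]
  · omega
  · omega
  · rw [Fin.ext (Nat.add_left_cancel h)]

theorem dg_sum (J : Finset (Fin k ⊕ Fin k)) (hJ : J.card ≤ k) : ∑ i ∈ J, dg k i ≤ aa k := by
  have e := card_toLeft_add_card_toRight (u := J)
  have e' := card_add_card_compl J.toRight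
  rw [Fintype.card_fin] at e'
  rw [← toLeft_disjSum_toRight (u := J), sum_disjSum, aa, ← sum_add_sum_compl J.toRight, add_comm]
  refine Nat.add_le_add le_rfl ?_
  calc _ ≤ J.toLeft.card • k := sum_le_card_nsmul _ _ _ fun i _ => i.2.le
    _ ≤ J.toRightᶜ.card • k := Nat.mul_le_mul_right _ (by omega)
    _ ≤ _ := card_nsmul_le_sum _ _ _ fun i _ => Nat.le_add_right _ _

/-- the free terms -/
def row : (Fin k → F) →+ (Io k → F) :=
  AddMonoidHom.mk' (fun y x => y x.1 ^ 2 ^ (x.2 : ℕ)) fun _ _ =>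
    funext fun _ => add_pow_char_pow _ _ 2 _

/-- the leading terms -/
def hh (α : Fin k ⊕ Fin k → F) : (Fin k ⊕ Fin k → F) →+ (Fin k → F) :=
  AddMonoidHom.mk' (fun z j => ∑ i, α i ^ (j : ℕ) * z i ^ 2 ^ dg k i) fun _ _ =>
    funext fun _ => by simp only [Pi.add_apply, add_pow_char_pow, mul_add, sum_add_distrib]

/-- the additive equations -/
def PP (α : Fin k ⊕ Fin k → F) (c : Matrix (Fin k) (Io k) F) :
    (Fin k ⊕ Fin k → F) →+ (Fin k → F) :=
  AddMonoidHom.mk' (fun z => hh α z + c *ᵥ row (z ∘ Sum.inr)) fun z z' => by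
    rw [map_add, show (z + z') ∘ Sum.inr = z ∘ Sum.inr + z' ∘ Sum.inr from rfl, map_add, mulVec_add]
    abel

variable {α : Fin k ⊕ Fin k → F} {c c' : Matrix (Fin k) (Io k) F} {B B' : Finset F}

theorem cos0 (hα : Injective α) {σ : Type} (S : Finset σ) (z : σ → Fin k ⊕ Fin k → F)
    (hz : Set.InjOn z S) (U : Submodule F (Fin k ⊕ Fin k → F)) {ρ : ℕ} (hρ : ρ ≤ k)
    (hU : finrank F U ≤ ρ) (h1 : ∀ s ∈ S, ∀ s' ∈ S, z s - z s' ∈ U)
    (h2 : ∀ s ∈ S, ∀ s' ∈ S, ∀ j : Fin k, j < ρ → PP α c (z s) j = PP α c (z s') j) :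
    S.card ≤ 2 ^ aa k := by
  rcases S.eq_empty_or_nonempty with rfl | ⟨s₀, hs₀⟩
  · simp
  let N : Matrix S (Fin k ⊕ Fin k) F := Matrix.of fun s => z s - z s₀
  obtain ⟨J, hJ, h⟩ := foot dg_inj hα N.col
    (fun s s' e => Subtype.ext (hz s.2 s'.2 (sub_left_injective (funext e)))) (ρ := ρ)
    (by
      rw [← rank_eq_finrank_span_cols, rank_eq_finrank_span_row]
      refine (finrank_mono (span_le.2 ?_)).trans hU
      rintro _ ⟨s, rfl⟩
      exact h1 s s.2 s₀ hs₀)
    (fun j hj => by
      have : ∑ i, α i ^ j • N.col i ^ 2 ^ dg k i =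
          -∑ x : Io k, c ⟨j, by omega⟩ x • N.col (.inr x.1) ^ 2 ^ (x.2 : ℕ) := by
        funext s
        have := sub_eq_zero.2 (h2 s s.2 s₀ hs₀ ⟨j, by omega⟩ hj)
        rw [← Pi.sub_apply, ← map_sub] at this
        simp only [Finset.sum_apply, Pi.neg_apply]
        exact eq_neg_of_add_eq_zero_left this
      rw [this]
      exact neg_mem (sum_mem fun x _ => smul_mem _ _ (subset_span ⟨.inr x.1, x.2, x.2.2, rfl⟩)))
  rw [Fintype.card_coe] at h
  exact h.trans (Nat.pow_le_pow_right (by norm_num) (dg_sum J (hJ.trans hρ)))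

variable (k) in
/-- the last coordinate axis -/
def el : F →+ (Fin k → F) :=
  AddMonoidHom.mk' (fun β j => if (j : ℕ) + 1 = k then β else 0) fun _ _ =>
    funext fun j => by by_cases h : (j : ℕ) + 1 = k <;> simp [h]

theorem el_inj (hk : 1 ≤ k) : Injective (el k : F → Fin k → F) := fun β β' e => by
  simpa [el, Nat.sub_add_cancel hk] using congrFun e ⟨k - 1, by omega⟩

/-- the point set -/
def Xp (α : Fin k ⊕ Fin k → F) (c : Matrix (Fin k) (Io k) F) (B : Finset F) : Type :=
  {z // ∃ β ∈ B, PP α c z = el k β}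

noncomputable instance : Fintype (Xp α c B) := by
  classical
  exact Subtype.fintype _

theorem cos1 (hα : Injective α) {σ : Type} (S : Finset σ) (z : σ → Xp α c B)
    (hz : Set.InjOn z S) (U : Submodule F (Fin k ⊕ Fin k → F)) (hU : finrank F U < k)
    (h1 : ∀ s ∈ S, ∀ s' ∈ S, (z s).1 - (z s').1 ∈ U) : S.card ≤ 2 ^ aa k :=
  cos0 (c := c) hα S (fun s => (z s).1) (fun _ h _ h' e => hz h h' (Subtype.ext e)) U
    (Nat.sub_le k 1) (by omega) h1 fun s _ s' _ j hj => by
      obtain ⟨β, -, e⟩ := (z s).2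
      obtain ⟨β', -, e'⟩ := (z s').2
      have : ¬ (j : ℕ) + 1 = k := by omega
      simp [e, e', el, this]

theorem cos2 (hα : Injective α) {σ : Type} (S : Finset σ) (z : σ → Xp α c B)
    (hz : Set.InjOn z S) (U : Submodule F (Fin k ⊕ Fin k → F)) (hU : finrank F U ≤ k)
    (h1 : ∀ s ∈ S, ∀ s' ∈ S, (z s).1 - (z s').1 ∈ U) : S.card ≤ 2 ^ aa k * B.card := by
  classical
  choose β h2 h3 using fun s => (z s).2
  refine card_le_mul_card_image_of_maps_to (f := β) (fun s _ => h2 s) _ fun b _ => ?_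
  exact cos0 (c := c) hα _ (fun s => (z s).1)
    (fun _ h _ h' e => hz (mem_filter.1 h).1 (mem_filter.1 h').1 (Subtype.ext e)) U le_rfl hU
    (fun s h s' h' => h1 s (mem_filter.1 h).1 s' (mem_filter.1 h').1) fun s h s' h' j _ => by
      rw [h3, h3, (mem_filter.1 h).2, (mem_filter.1 h').2]

/-- the pairing -/
def pr (z z' : Fin k ⊕ Fin k → F) : F := z ⬝ᵥ (z' ∘ Sum.swap)

theorem pr_comm (z z' : Fin k ⊕ Fin k → F) : pr z z' = pr z' z := by
  simp [pr, dotProduct, Fintype.sum_sum_type, add_comm, mul_comm]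

theorem pr_sub (x y x' y' : Fin k ⊕ Fin k → F) :
    pr (x - y) (x' - y') = pr x x' - pr x y' - pr y x' + pr y y' := by
  rw [pr, show (x' - y') ∘ Sum.swap = x' ∘ Sum.swap - y' ∘ Sum.swap from rfl, sub_dotProduct,
    dotProduct_sub, dotProduct_sub]
  simp only [pr]
  ring

variable (α c c' B B') in
/-- adjacency -/
def Rr (u : Xp α c B × F) (v : Xp α c' B' × F) : Prop := u.2 + v.2 = pr u.1.1 v.1.1

theorem Rr_half (hα : Injective α) : Hf (Rr α c c' B B') (2 ^ aa k + 1) (2 ^ aa k * B'.card) := by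
  intro A A' h hA
  rcases A'.eq_empty_or_nonempty with rfl | ⟨b₀, hb₀⟩
  · simp
  obtain ⟨a₀, ha₀⟩ : A.Nonempty := card_pos.1 ((Nat.succ_pos _).trans_le hA)
  have i1 : Set.InjOn Prod.fst (A : Set (Xp α c B × F)) := fun a ha a' ha' e => Prod.ext e (by
    have e1 := h a ha b₀ hb₀
    have e2 := h a' ha' b₀ hb₀
    rw [Rr] at e1 e2
    rw [e] at e1
    linear_combination e1 - e2)
  have i2 : Set.InjOn Prod.fst (A' : Set (Xp α c' B' × F)) := fun a ha a' ha' e => Prod.ext e (by
    have e1 := h a₀ ha₀ a ha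
    have e2 := h a₀ ha₀ a' ha'
    rw [Rr] at e1 e2
    rw [e] at e1
    linear_combination e1 - e2)
  let N : Matrix A (Fin k ⊕ Fin k) F := Matrix.of fun a => a.1.1.1 - a₀.1.1
  let N' : Matrix (Fin k ⊕ Fin k) A' F := Matrix.of fun i b => (b.1.1.1 - b₀.1.1) i.swap
  have h0 : N * N' = 0 := by
    ext a b
    have e1 := h a a.2 b b.2
    have e2 := h a a.2 b₀ hb₀
    have e3 := h a₀ ha₀ b b.2
    have e4 := h a₀ ha₀ b₀ hb₀
    rw [Rr] at e1 e2 e3 e4
    refine (pr_sub a.1.1.1 a₀.1.1 b.1.1.1 b₀.1.1).trans ?_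
    rw [Matrix.zero_apply]
    linear_combination -e1 + e2 + e3 - e4
  have h1 := rank_add_rank_le_card_of_mul_eq_zero h0
  rw [rank_eq_finrank_span_row, rank_eq_finrank_span_cols, Fintype.card_sum, Fintype.card_fin] at h1
  have h2 : ¬ finrank F (span F (Set.range N.row)) < k := fun h2 => by
    have := cos1 hα A Prod.fst i1 _ h2 fun a ha a' ha' => by
      rw [← sub_sub_sub_cancel_right _ _ a₀.1.1]
      exact sub_mem (subset_span ⟨⟨a, ha⟩, rfl⟩) (subset_span ⟨⟨a', ha'⟩, rfl⟩)
    omega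
  refine cos2 hα A' Prod.fst i2 ((span F (Set.range N'.col)).map (LinearMap.funLeft F F Sum.swap))
    ((finrank_map_le _ _).trans (by omega)) fun a ha a' ha' => ?_
  rw [← sub_sub_sub_cancel_right _ _ b₀.1.1]
  refine sub_mem ⟨_, subset_span ⟨⟨a, ha⟩, rfl⟩, ?_⟩ ⟨_, subset_span ⟨⟨a', ha'⟩, rfl⟩, ?_⟩ <;>
  · funext i
    simp [N', LinearMap.funLeft]

/-- parametrisation of a graph -/
def fM (M : Matrix (Fin k) (Fin k) F) : (Fin k → F) →ₗ[F] (Fin k ⊕ Fin k → F) :=
  (fromRows M 1).mulVecLin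

theorem fM_apply (M : Matrix (Fin k) (Fin k) F) (y : Fin k → F) :
    fM M y = Sum.elim (M *ᵥ y) y := by
  simp [fM, fromRows_mulVec]

theorem fM_inj (M : Matrix (Fin k) (Fin k) F) : Injective (fM M) := fun y y' e => by
  rw [fM_apply, fM_apply] at e
  exact (Sum.elim_eq_iff.1 e).2

theorem fM_rank (M : Matrix (Fin k) (Fin k) F) : finrank F (LinearMap.range (fM M)) ≤ k := by
  simpa using (fM M).finrank_range_le

theorem fM_inf {M M' : Matrix (Fin k) (Fin k) F} (h : M ≠ M') :
    finrank F (LinearMap.range (fM M) ⊓ LinearMap.range (fM M') : Submodule F _) < k := by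
  refine (finrank_lt_finrank_of_lt (inf_lt_left.2 fun hl => h ?_)).trans_le (fM_rank M)
  refine ext_of_mulVec_single fun i => ?_
  obtain ⟨y, hy⟩ := hl ⟨Pi.single i 1, rfl⟩
  rw [fM_apply, fM_apply] at hy
  obtain ⟨e1, rfl⟩ := Sum.elim_eq_iff.1 hy
  exact e1.symm

theorem pr_fM (M : Matrix (Fin k) (Fin k) F) (y y' : Fin k → F) :
    pr (fM M y) (fM (-Mᵀ) y') = 0 := by
  rw [fM_apply, fM_apply, pr, show ∀ a b : Fin k → F, Sum.elim a b ∘ Sum.swap = Sum.elim b a from
    fun a b => funext fun i => by cases i <;> rfl, sumElim_dotProduct_sumElim, neg_mulVec,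
    dotProduct_neg, mulVec_transpose, dotProduct_comm y, ← dotProduct_mulVec, dotProduct_comm,
    add_neg_cancel]

theorem card_Xp (hα : Injective α) :
    Fintype.card (Xp α c B) ≤ 2 ^ aa k * B.card * Fintype.card F ^ k := by
  classical
  have := card_le_mul_card_image_of_maps_to (s := univ) (t := univ)
    (f := fun z : Xp α c B => z.1 ∘ Sum.inl) (fun _ _ => mem_univ _) (2 ^ aa k * B.card) fun b _ =>
    cos2 hα _ id (Set.injOn_id _) _ (fM_rank 0) fun s h s' h' => ⟨(s.1 - s'.1) ∘ Sum.inr, by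
      rw [fM_apply, zero_mulVec]
      funext i
      rcases i with i | i
      · exact (sub_eq_zero.2 (congrFun ((mem_filter.1 h).2.trans (mem_filter.1 h').2.symm) i)).symm
      · rfl⟩
  simpa using this

open Classical in
theorem half (hq : 2 ^ (2 * k) < Fintype.card F) (φ : (Io k → F) →ₗ[F] F) (hφ : φ ≠ 0) :
    Fintype.card F ^ k ≤ 2 * (univ.filter fun y : Fin k → F => φ (row y) ≠ 0).card := by
  let K := (φ.toAddMonoidHom.comp row).ker
  have hK : K ≠ ⊤ := by
    intro hK
    obtain ⟨⟨l, b⟩, hx⟩ : ∃ x, φ (fun j => if x = j then 1 else 0) ≠ 0 := by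
      by_contra! h
      exact hφ (LinearMap.ext fun v => by simp [φ.pi_apply_eq_sum_univ v, h])
    refine absurd (card_le_of_roots (∑ x : Io k, Polynomial.monomial (2 ^ (x.2 : ℕ))
      (if x.1 = l then φ (fun j => if x = j then 1 else 0) else 0)) (2 ^ (2 * k)) (2 ^ (b : ℕ))
      ?_ ?_ univ fun t _ => ?_) (not_le.2 hq)
    · refine Polynomial.natDegree_sum_le_of_forall_le _ _ fun x _ =>
        (Polynomial.natDegree_monomial_le _).trans (Nat.pow_le_pow_right (by norm_num) ?_)
      have := x.1.2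
      have := x.2.2
      omega
    · rw [Polynomial.finsetSum_coeff, sum_eq_single ⟨l, b⟩]
      · simpa using hx
      · rintro ⟨l', b'⟩ - hne
        rw [Polynomial.coeff_monomial]
        split_ifs with h1 h2
        · subst h2
          exact absurd (congrArg (Sigma.mk l') (Fin.ext (Nat.pow_right_injective le_rfl h1))) hne
        all_goals rfl
      · simp
    · have : φ (row (Pi.single l t)) = 0 := (hK ▸ AddSubgroup.mem_top _ : Pi.single l t ∈ K)
      refine Eq.trans ?_ this
      rw [φ.pi_apply_eq_sum_univ (row _), Polynomial.eval_finsetSum]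
      refine sum_congr rfl fun x _ => ?_
      by_cases h : x.1 = l
      · simp [row, h, mul_comm]
      · simp [row, h]
  have h1 := AddSubgroup.one_lt_index_of_ne_top hK
  have h2 := K.card_mul_index
  have h3 : Nat.card K = (univ.filter fun y : Fin k → F => ¬ φ (row y) ≠ 0).card := by
    rw [Nat.card_eq_fintype_card, Fintype.card_subtype]
    congr 1
    ext y
    simp [K]
  have h4 := card_filter_add_card_filter_not (s := univ) fun y : Fin k → F => φ (row y) ≠ 0
  rw [Nat.card_eq_fintype_card (α := Fin k → F)] at h2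
  rw [card_univ, ← h3] at h4
  rw [Fintype.card_fun, Fintype.card_fin] at h2 h4
  nlinarith

variable (F k) in
open Classical in
/-- tuples with independent rows -/
noncomputable def TT (n : ℕ) : Finset (Fin n → Fin k → F) :=
  univ.filter fun u => LinearIndependent F fun i => row (u i)

theorem card_TT (hq : 2 ^ (2 * k) < Fintype.card F) (n : ℕ) (hn : n ≤ aa k) :
    (Fintype.card F ^ k) ^ n ≤ 2 ^ n * (TT F k n).card := by
  classical
  induction n with
  | zero => simp [TT]
  | succ n ih =>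
    have h1 : ((TT F k n).sigma fun u => univ.filter fun y : Fin k → F =>
        row y ∉ span F (Set.range fun i => row (u i))).card ≤ (TT F k (n + 1)).card := by
      refine card_le_card_of_injOn (fun x => Fin.cons x.2 x.1) (fun x hx => ?_) fun x _ x' _ e => ?_
      · obtain ⟨a, b⟩ := mem_sigma.1 hx
        have := linearIndependent_finCons.2 ⟨(mem_filter.1 a).2, (mem_filter.1 b).2⟩
        refine mem_filter.2 ⟨mem_univ _, ?_⟩
        rwa [show (Fin.cons (row x.2) fun i => row (x.1 i) : Fin (n + 1) → _) =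
          fun i => row ((Fin.cons x.2 x.1 : Fin (n + 1) → _) i) from
          funext fun i => Fin.cases rfl (fun _ => rfl) i] at this
      · obtain ⟨e1, e2⟩ := Fin.cons_injective2 e
        exact Sigma.ext e2 (heq_of_eq e1)
    have h2 : (TT F k n).card • Fintype.card F ^ k ≤ ∑ u ∈ TT F k n, 2 *
        (univ.filter fun y : Fin k → F => row y ∉ span F (Set.range fun i => row (u i))).card := by
      refine card_nsmul_le_sum _ _ _ fun u _ => ?_
      obtain ⟨φ, h0, hφ⟩ := (span F (Set.range fun i => row (u i))).exists_le_ker_of_lt_top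
        (lt_top_of_finrank_lt_finrank ((finrank_range_le_card _).trans_lt (by
          rw [finrank_fintype_fun_eq_card, card_Io, Fintype.card_fin]; omega)))
      refine (half hq φ h0).trans (Nat.mul_le_mul_left _ (card_le_card fun y hy => ?_))
      exact mem_filter.2 ⟨mem_univ _, fun h => (mem_filter.1 hy).2 (hφ h)⟩
    rw [card_sigma] at h1
    rw [← mul_sum, smul_eq_mul] at h2
    calc _ = (Fintype.card F ^ k) ^ n * Fintype.card F ^ k := pow_succ _ _
      _ ≤ 2 ^ n * (TT F k n).card * Fintype.card F ^ k := Nat.mul_le_mul_right _ (ih (by omega))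
      _ = 2 ^ n * ((TT F k n).card * Fintype.card F ^ k) := mul_assoc _ _ _
      _ ≤ 2 ^ n * (2 * (TT F k (n + 1)).card) :=
        Nat.mul_le_mul_left _ (h2.trans (Nat.mul_le_mul_left _ h1))
      _ = _ := by ring

end Pool.Agent.MP_80dd36_co.Unb

end

section

namespace Pool.Agent.MP_80dd36_co.Unb

open Finset Submodule Module Function Matrix Five

set_option linter.unusedSectionVars false

variable {F : Type} [Field F] [Fintype F] [CharP F 2] {k : ℕ}
variable {α : Fin k ⊕ Fin k → F} {c c' : Matrix (Fin k) (Io k) F} {B B' : Finset F}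

variable (α c) in
/-- the equations on a graph -/
def HH (M : Matrix (Fin k) (Fin k) F) : (Fin k → F) →+ (Fin k → F) :=
  (PP α c).comp (fM M).toAddMonoidHom

variable (α c) in
open Classical in
/-- their solutions -/
noncomputable def KK (M : Matrix (Fin k) (Fin k) F) : Finset (Fin k → F) :=
  univ.filter fun y => HH α c M y = 0

theorem mem_KK {M : Matrix (Fin k) (Fin k) F} {y : Fin k → F} :
    y ∈ KK α c M ↔ PP α c (fM M y) = 0 := by
  classical
  exact mem_filter.trans (and_iff_right (mem_univ _))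

theorem KK_le (hα : Injective α) (M : Matrix (Fin k) (Fin k) F) : (KK α c M).card ≤ 2 ^ aa k :=
  cos0 (c := c) hα _ (fM M) (fM_inj M).injOn _ le_rfl (fM_rank M)
    (fun s _ s' _ => ⟨s - s', map_sub _ _ _⟩) fun s h s' h' j _ => by
      rw [mem_KK.1 h, mem_KK.1 h']

open Classical in
theorem good_c (hα : Injective α) (hq : 2 ^ (2 * k) < Fintype.card F)
    (M : Matrix (Fin k) (Fin k) F) : (Fintype.card F ^ k) ^ aa k ≤ 2 ^ aa k * ((2 ^ aa k) ^ aa k *
      (univ.filter fun c => 2 ^ aa k ≤ (KK α c M).card).card) := by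
  have : ∀ u ∈ TT F k (aa k), ∃ c, ∀ n, u n ∈ KK α c M := by
    intro u hu
    have hli := (mem_filter.1 hu).2
    obtain ⟨g, hg⟩ := ((Basis.span hli).constr F fun n => -hh α (fM M (u n))).exists_extend
    refine ⟨LinearMap.toMatrix' g, fun n => mem_KK.2 ?_⟩
    have := LinearMap.congr_fun hg (Basis.span hli n)
    rw [Basis.constr_basis, LinearMap.comp_apply, subtype_apply, Basis.coe_span_apply] at this
    show hh α _ + LinearMap.toMatrix' g *ᵥ row (fM M (u n) ∘ Sum.inr) = 0
    rw [LinearMap.toMatrix'_mulVec, show fM M (u n) ∘ Sum.inr = u n by rw [fM_apply]; rfl, this,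
      add_neg_cancel]
  choose! cc hcc using this
  refine (card_TT hq _ le_rfl).trans (Nat.mul_le_mul_left _
    (card_le_mul_card_image_of_maps_to (f := cc) (fun u hu => ?_) _ fun c _ => ?_))
  · refine mem_filter.2 ⟨mem_univ _, ?_⟩
    have : (univ : Finset (Finset (Fin (aa k)))).card = 2 ^ aa k := by simp
    rw [← this]
    refine card_le_card_of_injOn (fun T => ∑ n ∈ T, u n) (fun T _ => mem_KK.2 ?_) fun T _ T' _ e => ?_
    · simp only [map_sum]
      exact sum_eq_zero fun n _ => mem_KK.1 (hcc u hu n)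
    · have e1 := congrArg row e
      simp only [map_sum] at e1
      have := Fintype.linearIndependent_iff.1 (mem_filter.1 hu).2
        (fun n => (if n ∈ T then 1 else 0) - if n ∈ T' then 1 else 0) (by
          simp [sub_smul, e1])
      ext n
      have := this n
      by_cases h : n ∈ T <;> by_cases h' : n ∈ T' <;> simp_all
  · refine (card_le_card (t := Fintype.piFinset fun _ => KK α c M) fun u hu => ?_).trans ?_
    · obtain ⟨a, rfl⟩ := mem_filter.1 hu
      exact Fintype.mem_piFinset.2 (hcc u a)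
    · rw [Fintype.card_piFinset_const]
      exact Nat.pow_le_pow_left (KK_le hα M) _

variable (α c) in
open Classical in
/-- attained values on the axis -/
noncomputable def LL (M : Matrix (Fin k) (Fin k) F) : Finset F :=
  univ.filter fun β => ∃ y, HH α c M y = el k β

theorem LL_ge (hα : Injective α) (M : Matrix (Fin k) (Fin k) F) :
    Fintype.card F ≤ (LL α c M).card * 2 ^ aa k := by
  classical
  have h1 := ((HH α c M).range.comap (el k)).card_mul_index
  have h2 : ((HH α c M).range.comap (el k)).index ≤ (HH α c M).range.index := by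
    rw [AddSubgroup.index_comap, ← AddSubgroup.relIndex_top_right]
    exact AddSubgroup.relIndex_le_of_le_right le_top (by
      rw [AddSubgroup.relIndex_top_right]; exact AddSubgroup.index_ne_zero_of_finite)
  have h3 : Nat.card (HH α c M).ker = (KK α c M).card := by
    rw [Nat.card_eq_fintype_card, Fintype.card_subtype]
    congr 1
    ext y
    simp [KK]
  have h4 : Nat.card ((HH α c M).range.comap (el k)) = (LL α c M).card := by
    rw [Nat.card_eq_fintype_card, Fintype.card_subtype]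
    congr 1
    ext y
    simp [LL]
  rw [AddSubgroup.index_range, h3] at h2
  rw [h4, Nat.card_eq_fintype_card] at h1
  exact h1 ▸ Nat.mul_le_mul_left _ (h2.trans (KK_le hα M))

open Classical in
/-- the points on a translate of a graph -/
noncomputable def SS (M : Matrix (Fin k) (Fin k) F) (x : Xp α c B) : Finset (Xp α c B) :=
  univ.filter fun z => z.1 - x.1 ∈ LinearMap.range (fM M)

theorem mem_SS {M : Matrix (Fin k) (Fin k) F} {x z : Xp α c B} :
    z ∈ SS M x ↔ z.1 - x.1 ∈ LinearMap.range (fM M) := by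
  simp [SS]

theorem SS_sub {M : Matrix (Fin k) (Fin k) F} {x z z' : Xp α c B} (h : z ∈ SS M x)
    (h' : z' ∈ SS M x) : z.1 - z'.1 ∈ LinearMap.range (fM M) := by
  rw [← sub_sub_sub_cancel_right _ _ x.1]
  exact sub_mem (mem_SS.1 h) (mem_SS.1 h')

variable (α) in
/-- all translates are full -/
def Good (M : Matrix (Fin k) (Fin k) F) (c : Matrix (Fin k) (Io k) F) (B : Finset F) : Prop :=
  (∀ x : Xp α c B, (SS M x).card = 2 ^ aa k * B.card) ∧
    Fintype.card F ^ k ≤ Fintype.card (Xp α c B)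

theorem good_of (hk : 1 ≤ k) (hα : Injective α) {M : Matrix (Fin k) (Fin k) F}
    (hc : 2 ^ aa k ≤ (KK α c M).card) (hB : B ⊆ LL α c M) (h0 : B.Nonempty) : Good α M c B := by
  classical
  have : ∀ β ∈ B, ∃ y, PP α c (fM M y) = el k β := fun β h => (mem_filter.1 (hB h)).2
  choose! u hu using this
  refine ⟨fun x => le_antisymm (cos2 hα _ id (Set.injOn_id _) _ (fM_rank M)
    fun s h s' h' => SS_sub h h') ?_, ?_⟩
  · obtain ⟨β₀, h1, h2⟩ := x.2
    have h3 : ∀ w : (KK α c M ×ˢ B : Finset _), PP α c (x.1 + fM M (w.1.1 + u w.1.2 - u β₀)) =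
        el k w.1.2 := fun w => by
      simp only [map_add, map_sub, h2, hu _ h1, hu _ (mem_product.1 w.2).2,
        mem_KK.1 (mem_product.1 w.2).1]
      abel
    refine (Nat.mul_le_mul_right _ hc).trans ?_
    rw [← card_product, ← card_attach]
    refine card_le_card_of_injOn (fun w => ⟨_, _, (mem_product.1 w.2).2, h3 w⟩)
      (fun w _ => mem_SS.2 ⟨_, (add_sub_cancel_left _ _).symm⟩) fun w _ w' _ e => ?_
    have e1 := congrArg Subtype.val e
    have e2 : w.1.2 = w'.1.2 := el_inj hk (by rw [← h3, ← h3]; exact congrArg _ e1)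
    have e3 := fM_inj M (add_left_cancel e1)
    rw [e2] at e3
    exact Subtype.ext (Prod.ext (add_right_cancel (sub_left_injective e3)) e2)
  · obtain ⟨β₀, h1⟩ := h0
    have h2 := (PP α c).ker.card_mul_index
    have h3 : Nat.card (PP α c).range ≤ Nat.card (Fin k → F) := AddSubgroup.card_le_card_addGroup _
    have h4 : Nat.card (PP α c).ker ≤ Nat.card (Xp α c B) :=
      Nat.card_le_card_of_injective (fun w => ⟨w.1 + fM M (u β₀), β₀, h1, by
        rw [map_add, w.2, hu _ h1, zero_add]⟩) fun w w' e =>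
        Subtype.ext (add_right_cancel (congrArg Subtype.val e))
    rw [AddSubgroup.index_ker] at h2
    have h5 := Nat.mul_le_mul h4 h3
    rw [h2] at h5
    simp only [Nat.card_eq_fintype_card, Fintype.card_fun, Fintype.card_sum, Fintype.card_fin,
      pow_add] at h5
    exact Nat.le_of_mul_le_mul_right h5 (by positivity)

variable (F k) in
/-- the parameters -/
noncomputable def Pm (r : ℕ) : Finset (Matrix (Fin k) (Io k) F × Finset F) := by
  classical
  exact univ ×ˢ powersetCard r univ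

theorem card_Pm (r : ℕ) : (Pm F k r).card ≤ Fintype.card F ^ (k * aa k + r) := by
  classical
  rw [Pm, card_product, card_powersetCard, card_univ, card_univ, pow_add]
  refine Nat.mul_le_mul (le_of_eq ?_) (Nat.choose_le_pow _ _)
  rw [← card_Io, Fintype.card_congr (Matrix.of).symm, Fintype.card_fun, Fintype.card_fun,
    Fintype.card_fin, ← pow_mul, mul_comm]

open Classical in
theorem one_side (hk : 1 ≤ k) (hα : Injective α) (hq : 2 ^ (2 * k) < Fintype.card F) {r : ℕ}
    (hr : 1 ≤ r) (hq' : 2 * (2 ^ aa k * r) ≤ Fintype.card F) (M : Matrix (Fin k) (Fin k) F) :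
    Fintype.card F ^ (k * aa k + r) ≤ 2 ^ aa k * (2 ^ aa k) ^ aa k * ((2 * 2 ^ aa k) ^ r * r.factorial) *
      ((Pm F k r).filter fun y => Good α M y.1 y.2).card := by
  have h1 : ((univ.filter fun c => 2 ^ aa k ≤ (KK α c M).card).sigma fun c =>
      powersetCard r (LL α c M)).card ≤ ((Pm F k r).filter fun y => Good α M y.1 y.2).card := by
    refine card_le_card_of_injOn (fun x => (x.1, x.2)) (fun x hx => ?_) fun x _ x' _ e => ?_
    · obtain ⟨a, b⟩ := mem_sigma.1 hx
      obtain ⟨b1, b2⟩ := mem_powersetCard.1 b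
      refine mem_filter.2 ⟨?_, good_of hk hα (mem_filter.1 a).2 b1 (card_pos.1 (b2 ▸ hr))⟩
      simp [Pm, b2]
    · obtain ⟨e1, e2⟩ := Prod.mk.inj e
      exact Sigma.ext e1 (heq_of_eq e2)
  have h2 : (univ.filter fun c => 2 ^ aa k ≤ (KK α c M).card).card • Fintype.card F ^ r ≤
      ∑ c ∈ univ.filter fun c => 2 ^ aa k ≤ (KK α c M).card,
        (2 * 2 ^ aa k) ^ r * r.factorial * (powersetCard r (LL α c M)).card := by
    refine card_nsmul_le_sum _ _ _ fun c _ => ?_
    rw [card_powersetCard, mul_assoc, ← Nat.descFactorial_eq_factorial_mul_choose]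
    refine le_trans ?_ (Nat.mul_le_mul_left _ (Nat.pow_sub_le_descFactorial _ _))
    rw [← mul_pow]
    refine Nat.pow_le_pow_left ?_ _
    have h3 := LL_ge (c := c) hα M
    generalize 2 ^ aa k = D at h3 hq'
    generalize (LL α c M).card = L at h3
    rw [Nat.mul_sub, mul_add, mul_assoc, mul_assoc, mul_assoc, mul_comm D L]
    omega
  rw [card_sigma] at h1
  rw [← mul_sum, smul_eq_mul] at h2
  calc _ = (Fintype.card F ^ k) ^ aa k * Fintype.card F ^ r := by rw [pow_add, pow_mul]
    _ ≤ _ := Nat.mul_le_mul_right _ (good_c hα hq M)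
    _ = 2 ^ aa k * (2 ^ aa k) ^ aa k * (_ * _) := by rw [mul_assoc, mul_assoc, mul_assoc]
    _ ≤ _ := Nat.mul_le_mul_left _ (h2.trans (Nat.mul_le_mul_left _ h1))
    _ = _ := (mul_assoc _ _ _).symm

end Pool.Agent.MP_80dd36_co.Unb

end

section

namespace Pool.Agent.MP_80dd36_co.Unb

open Finset Submodule Module Function Matrix Five SimpleGraph

set_option linter.unusedSectionVars false

section
variable {F : Type} [Field F] [Fintype F] [CharP F 2] {k : ℕ}
variable {α : Fin k ⊕ Fin k → F} {c c' : Matrix (Fin k) (Io k) F} {B B' : Finset F}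

theorem SS_self (M : Matrix (Fin k) (Fin k) F) (x : Xp α c B) : x ∈ SS M x :=
  mem_SS.2 (by rw [sub_self]; exact zero_mem _)

open Classical in
theorem Bl_lower (hα : Injective α) {r : ℕ} (hr : 2 ≤ r) (hB : B.card = r) (hB' : B'.card = r) :
    (univ.filter fun M => Good α M c B ∧ Good α (-Mᵀ) c' B').card *
      (Fintype.card (Xp α c B) * (Fintype.card (Xp α c' B') * Fintype.card F)) ≤
      (2 ^ aa k * r * (2 ^ aa k * r)) * (Bl (Rr α c c' B B') (2 ^ aa k * r)).card := by
  rw [← card_univ, ← card_univ, ← card_univ, ← card_product, ← card_product, ← card_product]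
  refine card_le_mul_card_image_of_maps_to (f := fun w =>
    ((SS w.1 w.2.1).image fun p => (p, w.2.2.2 + pr p.1 w.2.2.1.1),
     (SS (-w.1ᵀ) w.2.2.1).image fun q => (q, pr w.2.1.1 q.1 - pr w.2.1.1 w.2.2.1.1 - w.2.2.2)))
    ?_ _ ?_
  · rintro ⟨M, x, x', w⟩ hw
    obtain ⟨g, g'⟩ := (mem_filter.1 (mem_product.1 hw).1).2
    refine mem_Bl.2 ⟨?_, ?_, fun a ha b hb => ?_⟩
    · dsimp only
      rw [card_image_of_injective _ fun x x' e => congrArg Prod.fst e, g.1, hB]
    · dsimp only
      rw [card_image_of_injective _ fun x x' e => congrArg Prod.fst e, g'.1, hB']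
    · obtain ⟨p, hp, rfl⟩ := mem_image.1 ha
      obtain ⟨q, hq, rfl⟩ := mem_image.1 hb
      obtain ⟨y, hy⟩ := mem_SS.1 hp
      obtain ⟨y', hy'⟩ := mem_SS.1 hq
      have o := pr_fM M y y'
      rw [hy, hy', pr_sub] at o
      simp only [Rr]
      linear_combination -o
  · intro z hz
    obtain ⟨z1, z2, -⟩ := mem_Bl.1 hz
    refine (card_le_card_of_injOn (t := z.1.image Prod.fst ×ˢ z.2.image Prod.fst)
      (fun w => (w.2.1, w.2.2.1)) ?_ ?_).trans ?_
    · rintro ⟨M, x, x', w⟩ hw
      obtain ⟨-, rfl⟩ := mem_filter.1 hw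
      exact mem_product.2 ⟨mem_image.2 ⟨_, mem_image_of_mem _ (SS_self M x), rfl⟩,
        mem_image.2 ⟨_, mem_image_of_mem _ (SS_self _ x'), rfl⟩⟩
    · rintro ⟨M, x, x', w⟩ hw ⟨M₂, x₂, x₂', w₂⟩ hw₂ e
      obtain ⟨rfl, rfl⟩ := Prod.mk.inj e
      obtain ⟨h1, e1⟩ := mem_filter.1 hw
      have e2 := congrArg Prod.fst (e1.trans (mem_filter.1 hw₂).2.symm)
      dsimp only at e2
      have e3 : SS M x = SS M₂ x := by
        simpa [image_image, Function.comp_def] using congrArg (image Prod.fst) e2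
      obtain rfl : M = M₂ := by
        by_contra hM
        have h2 := cos1 hα (SS M x) id (Set.injOn_id _) _ (fM_inf hM) fun s h s' h' =>
          ⟨SS_sub h h', SS_sub (e3 ▸ h) (e3 ▸ h')⟩
        rw [(mem_filter.1 (mem_product.1 h1).1).2.1.1, hB] at h2
        have : 0 < 2 ^ aa k := by positivity
        nlinarith
      have m := mem_image_of_mem (fun p => (p, w + pr p.1 x'.1)) (SS_self M x)
      rw [e2] at m
      obtain ⟨p, -, e4⟩ := mem_image.1 m
      obtain ⟨rfl, e5⟩ := Prod.mk.inj e4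
      rw [add_right_cancel e5]
    · rw [card_product]
      exact Nat.mul_le_mul (card_image_le.trans z1.le) (card_image_le.trans z2.le)

end

/-- a relation with the three properties -/
def Nice (s t N X : ℕ) : Prop :=
  ∃ (α β : Type) (_ : Fintype α) (_ : Fintype β) (R : α → β → Prop), Hf R s t ∧
    Hf (fun b a => R a b) s t ∧ Fintype.card α + Fintype.card β ≤ N ∧ X ≤ (Bl R t).card

theorem Nice.add {s t N X : ℕ} (h : Nice s t N X) (j : ℕ) : Nice (s + j) (t + j) (N + 2 * j) X := by
  induction j with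
  | zero => exact h
  | succ j ih =>
    obtain ⟨α, β, _, _, R, h1, h2, h3, h4⟩ := ih
    refine ⟨Option α, Option β, inferInstance, inferInstance, apx R, h1.apx, fun A B c =>
      h2.apx A B fun a ha b hb x y e1 e2 => c a ha b hb y x e2 e1, ?_, h4.trans (Bl_apx R _)⟩
    rw [Fintype.card_option, Fintype.card_option]
    omega

theorem field_main {k r : ℕ} (hk : 1 ≤ k) (hr : 2 ≤ r) : ∃ K q₀ : ℕ, 0 < K ∧ ∀ (F : Type) [Field F]
    [Fintype F] [CharP F 2], q₀ ≤ Fintype.card F → ∃ X, Fintype.card F ^ ((k + 1) * (k + 1)) ≤ K * X ∧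
      Nice (2 ^ aa k + 1) (2 ^ aa k * r) (2 * (2 ^ aa k * r) * Fintype.card F ^ (k + 1)) X := by
  classical
  obtain ⟨K, hK⟩ : ∃ K, K = 2 ^ aa k * (2 ^ aa k) ^ aa k * ((2 * 2 ^ aa k) ^ r * r.factorial) :=
    ⟨_, rfl⟩
  refine ⟨K ^ 2 * (2 ^ aa k * r * (2 ^ aa k * r)), 2 ^ (2 * k) + 1 + 2 * (2 ^ aa k * r),
    by rw [hK]; positivity, fun F _ _ _ hq => ?_⟩
  set q := Fintype.card F with hq'
  have q0 : 0 < q := Fintype.card_pos
  obtain ⟨α⟩ : Nonempty (Fin k ⊕ Fin k ↪ F) := Function.Embedding.nonempty_of_card_le (by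
    have := Nat.lt_two_pow_self (n := 2 * k)
    rw [Fintype.card_sum, Fintype.card_fin]
    omega)
  have hα := α.injective
  have H : ∀ M, q ^ (k * aa k + r) ≤ K * _ := fun M =>
    hK ▸ one_side hk hα (by omega) (r := r) (by omega) ((Nat.le_add_left _ _).trans hq) M
  let a : (Matrix (Fin k) (Io k) F × Finset F) × (Matrix (Fin k) (Io k) F × Finset F) → ℕ :=
    fun y => (univ.filter fun M => Good α M y.1.1 y.1.2 ∧ Good α (-Mᵀ) y.2.1 y.2.2).card
  have ne : (Pm F k r).Nonempty := by
    have := H 0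
    by_contra h
    rw [not_nonempty_iff_eq_empty.1 h, filter_empty, card_empty, mul_zero] at this
    exact absurd this (not_le.2 (by positivity))
  obtain ⟨y, hy, hm⟩ := exists_max_image (Pm F k r ×ˢ Pm F k r) a (ne.product ne)
  have o : ∀ y ∈ Pm F k r, y.2.card = r := fun y hy => by simpa [Pm] using hy
  have o1 := o _ (mem_product.1 hy).1
  have o2 := o _ (mem_product.1 hy).2
  refine ⟨_, ?_, _, _, inferInstance, inferInstance, Rr α y.1.1 y.2.1 y.1.2 y.2.2,
    o2 ▸ Rr_half hα, fun A B h => o1 ▸ Rr_half hα A B fun u hu v hv => ?_, ?_, le_rfl⟩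
  · have s1 : ∑ y ∈ Pm F k r ×ˢ Pm F k r, a y ≤ q ^ (k * aa k + r) * q ^ (k * aa k + r) * a y := by
      refine (sum_le_card_nsmul _ _ _ hm).trans (Nat.mul_le_mul_right _ ?_)
      rw [card_product]
      exact Nat.mul_le_mul (card_Pm r) (card_Pm r)
    have s2 : q ^ (k * k) * (q ^ (k * aa k + r) * q ^ (k * aa k + r)) ≤
        K ^ 2 * ∑ y ∈ Pm F k r ×ˢ Pm F k r, a y := by
      have : q ^ (k * k) = (univ : Finset (Matrix (Fin k) (Fin k) F)).card := by
        rw [card_univ, Fintype.card_congr (Matrix.of).symm, Fintype.card_fun, Fintype.card_fun,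
          Fintype.card_fin, ← pow_mul]
      simp only [a, card_filter]
      rw [sum_comm, mul_sum, this]
      refine card_nsmul_le_sum _ _ _ fun M _ => (Nat.mul_le_mul (H M) (H (-Mᵀ))).trans (le_of_eq ?_)
      rw [card_filter, card_filter, mul_mul_mul_comm, sum_mul_sum, sum_product, sq]
      simp only [ite_zero_mul_ite_zero, mul_one]
    have s3 : q ^ (k * k) ≤ K ^ 2 * a y := by
      refine Nat.le_of_mul_le_mul_right (c := q ^ (k * aa k + r) * q ^ (k * aa k + r)) ?_
        (by positivity)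
      exact (s2.trans (Nat.mul_le_mul_left _ s1)).trans_eq (by ring)
    obtain ⟨M, hM⟩ : (univ.filter fun M => Good α M y.1.1 y.1.2 ∧
        Good α (-Mᵀ) y.2.1 y.2.2).Nonempty := by
      exact card_pos.1 (Nat.pos_of_mul_pos_left (lt_of_lt_of_le (by positivity) s3))
    obtain ⟨g1, g2⟩ := (mem_filter.1 hM).2
    calc _ = q ^ (k * k) * (q ^ k * (q ^ k * q)) := by ring
      _ ≤ K ^ 2 * a y * (_ * (_ * q)) :=
        Nat.mul_le_mul s3 (Nat.mul_le_mul g1.2 (Nat.mul_le_mul_right _ g2.2))
      _ = K ^ 2 * (a y * _) := mul_assoc _ _ _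
      _ ≤ _ := Nat.mul_le_mul_left _ (Bl_lower hα hr o1 o2)
      _ = _ := (mul_assoc _ _ _).symm
  · rw [Rr, pr_comm, add_comm]
    exact h u hu v hv
  · have c1 := card_Xp (c := y.1.1) (B := y.1.2) hα
    have c2 := card_Xp (c := y.2.1) (B := y.2.2) hα
    rw [o1] at c1
    rw [o2] at c2
    rw [Fintype.card_prod, Fintype.card_prod, ← add_mul]
    exact (Nat.mul_le_mul_right _ (Nat.add_le_add c1 c2)).trans_eq (by ring)

theorem lower (k s t : ℕ) (hk : 1 ≤ k) (hs : 2 * 2 ^ aa k ≤ s) (hst : s < t) :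
    ∃ K n₀ : ℕ, 0 < K ∧ ∀ n, n₀ ≤ n → ∃ G : SimpleGraph (Fin n),
      (completeBipartiteGraph (Fin s) (Fin (t + 1))).Free G ∧
      n ^ (k + 1) ≤ K * G.copyCount (completeBipartiteGraph (Fin t) (Fin t)) := by
  have D0 : 0 < 2 ^ aa k := by positivity
  have e1 := Nat.div_add_mod t (2 ^ aa k)
  have e2 := Nat.mod_lt t D0
  obtain ⟨K, q₀, hK, H⟩ := field_main hk (r := t / 2 ^ aa k)
    ((Nat.le_div_iff_mul_le D0).2 (by omega))
  obtain ⟨Q, hQ⟩ : ∃ Q, Q = 2 ^ (k + 1) := ⟨_, rfl⟩
  have Q1 : 1 < Q := hQ ▸ Nat.one_lt_two_pow (by omega)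
  have t1 : 0 < t := Nat.zero_lt_of_lt hst
  have t0 : 0 < 4 * t := by omega
  refine ⟨(4 * t * Q) ^ (k + 1) * (K * (t + t) ^ (t + t)), 4 * t * Q ^ (q₀ + 1), by positivity,
    fun n hn => ?_⟩
  obtain ⟨e, he⟩ : ∃ e, e = Nat.log Q (n / (4 * t)) := ⟨_, rfl⟩
  have k0 : Q ^ (q₀ + 1) ≤ n / (4 * t) := (Nat.le_div_iff_mul_le t0).2 ((mul_comm _ _).trans_le hn)
  have k1 : Q ^ e * (4 * t) ≤ n := (Nat.le_div_iff_mul_le t0).1
    (he ▸ Nat.pow_log_le_self _ (lt_of_lt_of_le (by positivity) k0).ne')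
  have k2 : n < Q ^ (e + 1) * (4 * t) := (Nat.div_lt_iff_lt_mul t0).1
    (he ▸ Nat.lt_pow_succ_log_self Q1 _)
  have k3 : q₀ + 1 ≤ e := he ▸ Nat.le_log_of_pow_le Q1 k0
  have := Fintype.ofFinite (GaloisField 2 e)
  have hc : Fintype.card (GaloisField 2 e) = 2 ^ e := by
    rw [← Nat.card_eq_fintype_card, GaloisField.card 2 e (by omega)]
  obtain ⟨X, r1, r2⟩ := H (GaloisField 2 e)
    (by rw [hc]; have := Nat.lt_two_pow_self (n := e); omega)
  have e4 : Fintype.card (GaloisField 2 e) ^ (k + 1) = Q ^ e := by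
    rw [hc, hQ, ← pow_mul, ← pow_mul, mul_comm]
  rw [pow_mul, e4] at r1
  obtain ⟨α, β, _, _, R, h1, h2, h3, h4⟩ := r2.add (t % 2 ^ aa k)
  rw [e1] at h1 h2 h4
  rw [e4] at h3
  have p1 : 0 < Q ^ e := by positivity
  obtain ⟨G, g1, g2⟩ := to_fin (n := n) (s := s) (by omega) (by omega) h1 h2 (h3.trans (by
    generalize 2 ^ aa k * (t / 2 ^ aa k) = u at e1
    generalize t % 2 ^ aa k = v at e1
    have a1 : u * Q ^ e ≤ t * Q ^ e := Nat.mul_le_mul_right _ (by omega)
    have a2 : t * 1 ≤ t * Q ^ e := Nat.mul_le_mul_left _ p1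
    linarith [Nat.zero_le u]))
  refine ⟨G, g1, ?_⟩
  calc n ^ (k + 1) ≤ (4 * t * Q * Q ^ e) ^ (k + 1) :=
        Nat.pow_le_pow_left (k2.le.trans_eq (by ring)) _
    _ = (4 * t * Q) ^ (k + 1) * (Q ^ e) ^ (k + 1) := mul_pow _ _ _
    _ ≤ (4 * t * Q) ^ (k + 1) * (K * ((t + t) ^ (t + t) * _)) :=
      Nat.mul_le_mul_left _ (r1.trans (Nat.mul_le_mul_left _ (h4.trans g2)))
    _ = _ := by ring

theorem aa_eq (k : ℕ) : aa k = k * (3 * k - 1) / 2 := by
  have h := sum_range_id_mul_two k
  rw [aa, Fin.sum_univ_eq_sum_range (fun l => k + l) k, sum_add_distrib, sum_const, card_range,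
    smul_eq_mul]
  rcases k with _ | k
  · simp
  · refine (Nat.div_eq_of_eq_mul_left (by norm_num) ?_).symm
    rw [add_mul _ _ 2, h, Nat.add_sub_cancel, show 3 * (k + 1) - 1 = 3 * k + 2 by omega]
    ring

end Pool.Agent.MP_80dd36_co.Unb

end
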