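import Pool.Agent.Mg.F80dd36.G1a760a

set_option linter.all false

section

namespace Pool.Agent.MP_80dd36_co.Five

open Polynomial Finset

set_option linter.unusedSectionVars false

variable {F : Type*} [Field F] [DecidableEq F]

/-- zeros of `A + t B` on the curve `t ^ 2 = f` -/
theorem hyp_card (f A B : F[X]) (hN : A ^ 2 - f * B ^ 2 ≠ 0) (S : Finset (F × F))
    (h1 : ∀ p ∈ S, p.2 ^ 2 = f.eval p.1) (h2 : ∀ p ∈ S, A.eval p.1 + p.2 * B.eval p.1 = 0) :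
    S.card ≤ (A ^ 2 - f * B ^ 2).natDegree := by
  set N := A ^ 2 - f * B ^ 2 with hNd
  have hr : ∀ p ∈ S, p.1 ∈ N.roots.toFinset := by
    intro p hp
    rw [Multiset.mem_toFinset, mem_roots hN, IsRoot.def, hNd]
    simp only [eval_sub, eval_mul, eval_pow]
    linear_combination (B.eval p.1) ^ 2 * h1 p hp +
      (A.eval p.1 - p.2 * B.eval p.1) * h2 p hp
  rw [card_eq_sum_card_fiberwise (f := Prod.fst) (t := N.roots.toFinset) (fun p hp => hr p hp)]
  refine le_trans ?_ (card_roots' N)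
  rw [← Multiset.toFinset_sum_count_eq]
  refine sum_le_sum fun x hx => ?_
  by_cases h : (S.filter fun p => p.1 = x).card ≤ 1
  · exact h.trans (Multiset.one_le_count_iff_mem.2 (Multiset.mem_toFinset.1 hx))
  · obtain ⟨p, hp, p', hp', hne⟩ := one_lt_card.1 (not_le.1 h)
    obtain ⟨a1, a2⟩ := mem_filter.1 hp
    obtain ⟨b1, b2⟩ := mem_filter.1 hp'
    have hd : p.2 - p'.2 ≠ 0 := fun e => hne (Prod.ext (a2.trans b2.symm) (sub_eq_zero.1 e))
    have c1 := h2 p a1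
    have c2 := h2 p' b1
    rw [a2] at c1
    rw [b2] at c2
    have hB : B.eval x = 0 := by
      apply mul_left_cancel₀ hd
      linear_combination c1 - c2
    have hA : A.eval x = 0 := by rw [hB] at c1; linear_combination c1
    have hdv : (X - C x) ^ 2 ∣ N :=
      dvd_sub (pow_dvd_pow_of_dvd (dvd_iff_isRoot.2 hA) 2)
        (Dvd.dvd.mul_left (pow_dvd_pow_of_dvd (dvd_iff_isRoot.2 hB) 2) _)
    rw [count_roots]
    refine le_trans ?_ ((le_rootMultiplicity_iff hN).2 hdv)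
    have hinj : Set.InjOn Prod.snd ((S.filter fun p => p.1 = x : Finset (F × F)) : Set (F × F)) :=
      fun w hw w' hw' e => Prod.ext ((mem_filter.1 hw).2.trans (mem_filter.1 hw').2.symm) e
    rw [← card_image_of_injOn hinj]
    apply card_le_two_of_quad 1 0 (-f.eval x) one_ne_zero
    intro v hv
    obtain ⟨w, hw, rfl⟩ := mem_image.1 hv
    obtain ⟨hw', rfl⟩ := mem_filter.1 hw
    linear_combination h1 w hw'

/-- a visible reason for not being a square -/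
def Ns (f : F[X]) : Prop := ¬ IsSquare f.leadingCoeff ∨ Odd f.natDegree

theorem Ns.ne_zero {f : F[X]} (h : Ns f) : f ≠ 0 := by
  rintro rfl
  rcases h with h | h
  · exact h (by simp)
  · simp at h

theorem Ns.norm {f A B : F[X]} (h : Ns f) (e : A ^ 2 - f * B ^ 2 = 0) : A = 0 ∧ B = 0 := by
  have e' : A ^ 2 = f * B ^ 2 := sub_eq_zero.1 e
  have hB : B = 0 := by
    by_contra hB
    have hf := h.ne_zero
    rcases h with h | h
    · apply h
      have h1 := congrArg leadingCoeff e'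
      rw [leadingCoeff_mul, leadingCoeff_pow, leadingCoeff_pow] at h1
      have h2 : B.leadingCoeff ≠ 0 := leadingCoeff_ne_zero.2 hB
      refine ⟨A.leadingCoeff / B.leadingCoeff, ?_⟩
      field_simp
      exact h1.symm
    · have h1 := congrArg natDegree e'
      rw [natDegree_mul hf (pow_ne_zero 2 hB), natDegree_pow, natDegree_pow] at h1
      obtain ⟨k, hk⟩ := h
      omega
  rw [hB] at e'
  exact ⟨by simpa using e', hB⟩

theorem aniso {ε a b : F} (hε : ¬ IsSquare ε) (h : a ^ 2 - ε * b ^ 2 = 0) : a = 0 ∧ b = 0 := by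
  have hb : b = 0 := by
    by_contra hb
    refine hε ⟨a / b, ?_⟩
    field_simp
    linear_combination -h
  rw [hb] at h
  exact ⟨by simpa using h, hb⟩

theorem coeff_sq {p : F[X]} {n : ℕ} (h : p.natDegree ≤ n) : (p ^ 2).coeff (2 * n) = p.coeff n ^ 2 :=
  coeff_pow_of_natDegree_le h

theorem deg_lt_of_coeff {p : F[X]} {n : ℕ} (h : p.natDegree ≤ n + 1) (h0 : p.coeff (n + 1) = 0) :
    p.natDegree ≤ n := by
  rw [natDegree_le_iff_coeff_eq_zero] at h ⊢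
  intro k hk
  rcases Nat.eq_or_lt_of_le (Nat.succ_le_of_lt hk) with e | e
  · rw [← e]; exact h0
  · exact h k e

theorem ns_of {ε δ : F} (hε : ¬ IsSquare ε) (hδ : δ ≠ 0) {s r : F[X]} (hs : s.natDegree ≤ 2)
    (hr : r.natDegree ≤ 2) : (C ε * s ^ 2 - C δ * X ^ 3 + r).natDegree ≤ 4 ∧
      Ns (C ε * s ^ 2 - C δ * X ^ 3 + r) := by
  have hd : (C ε * s ^ 2 - C δ * X ^ 3 + r).natDegree ≤ 4 := by
    have : (s ^ 2).natDegree ≤ 4 := natDegree_pow_le.trans (by omega)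
    compute_degree; omega
  refine ⟨hd, ?_⟩
  by_cases h2 : s.coeff 2 = 0
  · right
    have h1 : s.natDegree ≤ 1 := deg_lt_of_coeff hs h2
    have h3 : (s ^ 2).natDegree ≤ 2 := natDegree_pow_le.trans (by omega)
    have : (C ε * s ^ 2 - C δ * X ^ 3 + r).natDegree = 3 := by
      apply natDegree_eq_of_le_of_coeff_ne_zero
      · compute_degree; omega
      · rw [coeff_add, coeff_sub, coeff_C_mul, coeff_C_mul, coeff_X_pow,
          coeff_eq_zero_of_natDegree_lt (p := s ^ 2) (by omega),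
          coeff_eq_zero_of_natDegree_lt (p := r) (by omega)]
        simpa using hδ
    rw [this]; decide
  · left
    have hc : (C ε * s ^ 2 - C δ * X ^ 3 + r).coeff 4 = ε * s.coeff 2 ^ 2 := by
      rw [coeff_add, coeff_sub, coeff_C_mul, coeff_C_mul, coeff_X_pow,
        coeff_eq_zero_of_natDegree_lt (p := r) (by omega), show 4 = 2 * 2 from rfl, coeff_sq hs]
      simp
    have hε0 : ε ≠ 0 := by rintro rfl; exact hε IsSquare.zero
    have : (C ε * s ^ 2 - C δ * X ^ 3 + r).natDegree = 4 :=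
      natDegree_eq_of_le_of_coeff_ne_zero hd (by rw [hc]; positivity)
    rw [leadingCoeff, this, hc]
    rintro ⟨a, ha⟩
    refine hε ⟨a / s.coeff 2, ?_⟩
    field_simp
    linear_combination ha

/-- the second quadric -/
def vv (ε x y w : F) : F := y ^ 2 - ε * w ^ 2 + x ^ 3

/-- the last coordinate -/
def hh (ε : F) (P : F[X] × F[X] × F[X]) (x y w : F) : F :=
  ε * (vv ε x y w ^ 2 + y * w) + P.1.eval x + P.2.1.eval x * y + P.2.2.eval x * w

/-- admissible coefficient polynomials -/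
def Ok (T : ℕ) (P : F[X] × F[X] × F[X]) : Prop :=
  P.1.Monic ∧ P.1.natDegree = T ∧ P.2.1.natDegree ≤ T - 3 ∧ P.2.2.natDegree ≤ T - 3

/-- normal form of the curve cut out by two equations -/
theorem normal {ε : F} (hε : ¬ IsSquare ε) (h2 : (2 : F) ≠ 0) {l₁ l₂ : F}
    (hl : l₂ ^ 2 - ε * l₁ ^ 2 ≠ 0) {s r : F[X]} (hs : s.natDegree ≤ 2) (hr : r.natDegree ≤ 2)
    (k₁ k₂ : F) : ∃ f y₀ w₀ : F[X], y₀.natDegree ≤ 2 ∧ w₀.natDegree ≤ 2 ∧ ∀ γ : F,
      (f + C ((l₂ ^ 2 - ε * l₁ ^ 2) * γ)).natDegree ≤ 4 ∧ Ns (f + C ((l₂ ^ 2 - ε * l₁ ^ 2) * γ)) ∧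
      ∀ x y w : F, (l₁ * y + l₂ * w = s.eval x ∧ vv ε x y w = r.eval x + γ + k₁ * y + k₂ * w) ↔
        ∃ t : F, t ^ 2 = (f + C ((l₂ ^ 2 - ε * l₁ ^ 2) * γ)).eval x ∧
          y = y₀.eval x + l₂ / (l₂ ^ 2 - ε * l₁ ^ 2) * t ∧
          w = w₀.eval x + -l₁ / (l₂ ^ 2 - ε * l₁ ^ 2) * t := by
  obtain ⟨δ, hδ⟩ : ∃ δ, δ = l₂ ^ 2 - ε * l₁ ^ 2 := ⟨_, rfl⟩
  rw [← hδ] at hl ⊢
  obtain ⟨g, hg⟩ : ∃ g, 2 * g = k₁ * l₂ - k₂ * l₁ := ⟨(k₁ * l₂ - k₂ * l₁) / 2, by field_simp⟩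
  obtain ⟨d, hd⟩ : ∃ d, d * δ = 1 := ⟨δ⁻¹, inv_mul_cancel₀ hl⟩
  have e1 : l₂ / δ = l₂ * d := by field_simp; linear_combination -l₂ * hd
  have e2 : -l₁ / δ = -l₁ * d := by field_simp; linear_combination hd * l₁
  rw [e1, e2]
  refine ⟨C ε * s ^ 2 - C δ * X ^ 3 + (C δ * r + C (k₂ * l₂ - ε * k₁ * l₁) * s + C (g ^ 2)),
    C (l₂ * g * d) - C (ε * l₁ * d) * s, C (l₂ * d) * s - C (l₁ * g * d), ?_, ?_, fun γ => ?_⟩
  · compute_degree; omega
  · compute_degree; omega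
  rw [add_assoc]
  have hr' : (C δ * r + C (k₂ * l₂ - ε * k₁ * l₁) * s + C (g ^ 2) + C (δ * γ)).natDegree ≤ 2 := by
    compute_degree; omega
  obtain ⟨a1, a2⟩ := ns_of hε hl hs hr'
  refine ⟨a1, a2, fun x y w => ?_⟩
  simp only [eval_add, eval_sub, eval_mul, eval_C, eval_pow, eval_X, vv]
  generalize s.eval x = σ
  generalize r.eval x = ρ
  constructor
  · rintro ⟨b1, b2⟩
    refine ⟨l₂ * y + ε * l₁ * w - g, ?_, ?_, ?_⟩
    · subst b1
      rw [hδ]
      linear_combination (l₂ ^ 2 - ε * l₁ ^ 2) * b2 - (l₂ * y + ε * l₁ * w) * hg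
    · subst b1
      linear_combination (-y) * hd + (y * d) * hδ
    · subst b1
      linear_combination (-w) * hd + (w * d) * hδ
  · rintro ⟨t, b1, b2, b3⟩
    have c1 : l₁ * y + l₂ * w = σ := by
      rw [b2, b3]
      linear_combination σ * hd - σ * d * hδ
    have c2 : l₂ * y + ε * l₁ * w - g = t := by
      rw [b2, b3]
      linear_combination (g + t) * hd - (g + t) * d * hδ
    refine ⟨c1, ?_⟩
    apply mul_left_cancel₀ hl
    rw [← c2, ← c1] at b1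
    rw [hδ] at b1 ⊢
    linear_combination b1 + (l₂ * y + ε * l₁ * w) * hg

end Pool.Agent.MP_80dd36_co.Five

end

section

namespace Pool.Agent.MP_80dd36_co.Five

open Polynomial Finset UniqueFactorizationMonoid

set_option linter.unusedSectionVars false

variable {F : Type*} [Field F] [DecidableEq F] [Fintype F]

variable (F) in
/-- polynomials of degree below `n` -/
noncomputable def lo (n : ℕ) : Finset F[X] :=
  univ.image fun v : Fin n → F => ((degreeLTEquiv F n).symm v : F[X])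

theorem mem_lo {n : ℕ} {p : F[X]} : p ∈ lo F n ↔ p.degree < n := by
  rw [← mem_degreeLT, lo, mem_image]
  constructor
  · rintro ⟨v, -, rfl⟩
    exact Subtype.prop _
  · intro h
    exact ⟨degreeLTEquiv F n ⟨p, h⟩, mem_univ _, by simp⟩

theorem card_lo (n : ℕ) : (lo F n).card = Fintype.card F ^ n := by
  rw [lo, card_image_of_injective _ fun v v' h => (degreeLTEquiv F n).symm.injective (Subtype.ext h)]
  simp

theorem mem_lo_succ {n : ℕ} {p : F[X]} : p ∈ lo F (n + 1) ↔ p.natDegree ≤ n := by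
  rw [mem_lo]
  by_cases h : p = 0
  · simp [h]
  · rw [← natDegree_lt_iff_degree_lt h, Nat.lt_succ_iff]

variable (F) in
/-- monic polynomials of degree `n` -/
noncomputable def mo (n : ℕ) : Finset F[X] := (lo F n).image fun p => X ^ n + p

theorem mem_mo {n : ℕ} {p : F[X]} : p ∈ mo F n ↔ p.Monic ∧ p.natDegree = n := by
  rw [mo, mem_image]
  constructor
  · rintro ⟨r, hr, rfl⟩
    rw [mem_lo] at hr
    refine ⟨monic_X_pow_add hr, natDegree_eq_of_degree_eq_some ?_⟩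
    rw [degree_add_eq_left_of_degree_lt (by rwa [degree_X_pow]), degree_X_pow]
  · rintro ⟨h1, rfl⟩
    refine ⟨p - X ^ p.natDegree, mem_lo.2 ?_, by ring⟩
    rw [← degree_eq_natDegree h1.ne_zero]
    exact degree_sub_lt_left (by rw [degree_X_pow, degree_eq_natDegree h1.ne_zero]) h1.ne_zero
      (by rw [leadingCoeff_X_pow, h1.leadingCoeff])

theorem card_mo (n : ℕ) : (mo F n).card = Fintype.card F ^ n := by
  rw [mo, card_image_of_injective _ (add_right_injective _), card_lo]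

theorem card_dvd {p : F[X]} (hp : p ≠ 0) (W : Finset F[X]) (hW : ∀ w ∈ W, w.Monic ∧ w ∣ p) :
    W.card ≤ 2 ^ p.natDegree := by
  have h1 : (normalizedFactors p).card ≤ p.natDegree := by
    have e := natDegree_eq_of_degree_eq (degree_eq_degree_of_associated (prod_normalizedFactors hp))
    rw [← e, natDegree_multiset_prod _ (zero_notMem_normalizedFactors _)]
    have := Multiset.card_nsmul_le_sum (s := (normalizedFactors p).map natDegree) (a := 1) (by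
      intro k hk
      obtain ⟨r, hr, rfl⟩ := Multiset.mem_map.1 hk
      exact (irreducible_of_normalized_factor r hr).natDegree_pos)
    simpa using this
  calc W.card ≤ (normalizedFactors p).powerset.toFinset.card := by
        refine card_le_card_of_injOn normalizedFactors (fun w hw => ?_) fun w hw w' hw' e => ?_
        · obtain ⟨a, b⟩ := hW w hw
          simpa using (dvd_iff_normalizedFactors_le_normalizedFactors a.ne_zero hp).1 b
        · exact eq_of_monic_of_associated (hW w hw).1 (hW w' hw').1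
            ((associated_iff_normalizedFactors_eq_normalizedFactors (hW w hw).1.ne_zero
              (hW w' hw').1.ne_zero).2 e)
    _ ≤ 2 ^ (normalizedFactors p).card := by
        rw [← Multiset.card_powerset]; exact Multiset.toFinset_card_le _
    _ ≤ _ := Nat.pow_le_pow_right (by norm_num) h1

variable (F) in
/-- pairs `(A, B)` with `A` monic of degree `n + 3` and `B` of degree at most `n` -/
noncomputable def GG (n : ℕ) : Finset (F[X] × F[X]) := mo F (n + 3) ×ˢ lo F (n + 1)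

open Classical in
theorem card_ncop (n : ℕ) : ((GG F n).filter fun g => ¬ IsCoprime g.1 g.2).card ≤
    (n + 3) * Fintype.card F ^ (2 * n + 3) := by
  have hq : 1 ≤ Fintype.card F := Fintype.card_pos
  have sub : ((GG F n).filter fun g => ¬ IsCoprime g.1 g.2) ⊆ (range (n + 3)).biUnion fun d =>
      (mo F (d + 1) ×ˢ mo F (n + 2 - d) ×ˢ lo F (n - d)).image fun z => (z.1 * z.2.1, z.1 * z.2.2) := by
    rintro ⟨A, B⟩ hg
    obtain ⟨h1, h2⟩ := mem_filter.1 hg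
    obtain ⟨hA, hB⟩ := mem_product.1 h1
    obtain ⟨hA1, hA2⟩ := mem_mo.1 hA
    dsimp only at hA1 hA2 hB h2
    obtain ⟨π, hm, hi, ⟨A₁, rfl⟩, B₁, rfl⟩ : ∃ π : F[X], π.Monic ∧ 0 < π.natDegree ∧ π ∣ A ∧ π ∣ B := by
      have h0 : EuclideanDomain.gcd A B ≠ 0 := fun e =>
        hA1.ne_zero (EuclideanDomain.gcd_eq_zero_iff.1 e).1
      obtain ⟨π, a1, a2, a3⟩ := exists_monic_irreducible_factor _
        (fun e => h2 (EuclideanDomain.gcd_isUnit_iff.1 e))
      exact ⟨π, a1, a2.natDegree_pos, a3.trans (EuclideanDomain.gcd_dvd_left _ _),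
        a3.trans (EuclideanDomain.gcd_dvd_right _ _)⟩
    have hm1 : A₁.Monic := hm.of_mul_monic_left hA1
    rw [hm.natDegree_mul hm1] at hA2
    refine mem_biUnion.2 ⟨π.natDegree - 1, mem_range.2 (by omega),
      mem_image.2 ⟨(π, A₁, B₁), mem_product.2 ⟨mem_mo.2 ⟨hm, by dsimp only; omega⟩,
        mem_product.2 ⟨mem_mo.2 ⟨hm1, by dsimp only; omega⟩, mem_lo.2 ?_⟩⟩, rfl⟩⟩
    by_cases h0 : B₁ = 0
    · simp [h0]
    · rw [mem_lo_succ, natDegree_mul hm.ne_zero h0] at hB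
      rw [degree_eq_natDegree h0]
      exact_mod_cast (by omega : B₁.natDegree < n - (π.natDegree - 1))
  refine (card_le_card sub).trans ((card_biUnion_le_card_mul _ _
    (Fintype.card F ^ (2 * n + 3)) fun d hd => card_image_le.trans ?_).trans (by simp))
  rw [mem_range] at hd
  rw [card_product, card_product, card_mo, card_mo, card_lo, ← pow_add, ← pow_add]
  exact Nat.pow_le_pow_right hq (by omega)

theorem norm_monic {n : ℕ} {f : F[X]} (hf : f.natDegree ≤ 4) {g : F[X] × F[X]} (hg : g ∈ GG F n) :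
    (g.1 ^ 2 - f * g.2 ^ 2).Monic ∧ (g.1 ^ 2 - f * g.2 ^ 2).natDegree = 2 * (n + 3) := by
  obtain ⟨hA, hB⟩ := mem_product.1 hg
  obtain ⟨hA1, hA2⟩ := mem_mo.1 hA
  rw [mem_lo_succ] at hB
  have h1 : (g.1 ^ 2).natDegree = 2 * (n + 3) := by rw [natDegree_pow, hA2]
  have h2 : (f * g.2 ^ 2).natDegree < (g.1 ^ 2).natDegree := by
    have : (g.2 ^ 2).natDegree ≤ 2 * n := natDegree_pow_le.trans (by omega)
    exact natDegree_mul_le.trans_lt (by omega)
  exact ⟨(hA1.pow 2).sub_of_left (degree_lt_degree h2),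
    (natDegree_sub_eq_left_of_natDegree_lt h2).trans h1⟩

theorem cop_eval {A B : F[X]} (h : IsCoprime A B) {x : F} (h1 : A.eval x = 0) (h2 : B.eval x = 0) :
    False := by
  obtain ⟨a, b, e⟩ := h
  have := congrArg (eval x) e
  simp [h1, h2] at this

theorem monic_ext {A A' : F[X]} {S : Finset F} (h : A ∈ mo F S.card) (h' : A' ∈ mo F S.card)
    (e : ∀ x ∈ S, A.eval x = A'.eval x) : A = A' := by
  obtain ⟨p, hp, rfl⟩ := mem_image.1 h
  obtain ⟨p', hp', rfl⟩ := mem_image.1 h'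
  rw [eq_of_degrees_lt_of_eval_finset_eq S (mem_lo.1 hp) (mem_lo.1 hp') fun x hx => by
    simpa using e x hx]

theorem nodal_dvd {N : F[X]} (hN : N ≠ 0) {S : Finset F} (h : ∀ x ∈ S, N.eval x = 0) :
    Lagrange.nodal S id ∣ N := by
  have := (Multiset.prod_X_sub_C_dvd_iff_le_roots hN S.val).2 (by
    rw [Multiset.le_iff_subset S.nodup]
    intro x hx
    exact (mem_roots hN).2 (h x hx))
  exact this

/-- the residual divisor -/
theorem resid {n : ℕ} {f : F[X]} (hf : f.natDegree ≤ 4) {g : F[X] × F[X]} (hg : g ∈ GG F n)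
    (hc : IsCoprime g.1 g.2) {S : Finset F} (hS : S.card = n + 3)
    (h : ∀ x ∈ S, (g.1 ^ 2 - f * g.2 ^ 2).eval x = 0) :
    ∃ ω : F[X] × F[X], (ω.1 ∈ mo F (n + 3) ∧ ω.2 ∈ lo F (n + 3) ∧ ω.1 ∣ ω.2 ^ 2 - f) ∧
      g.1 ^ 2 - f * g.2 ^ 2 = Lagrange.nodal S id * ω.1 ∧ ω.1 ∣ g.1 + ω.2 * g.2 := by
  obtain ⟨m1, m2⟩ := norm_monic hf hg
  obtain ⟨w, hw⟩ := nodal_dvd m1.ne_zero h
  have hm : w.Monic := Lagrange.nodal_monic.of_mul_monic_left (hw ▸ m1)
  have hd : w.natDegree = n + 3 := by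
    rw [hw, Lagrange.nodal_monic.natDegree_mul hm, Lagrange.natDegree_nodal] at m2
    omega
  have c1 : IsCoprime g.2 (g.1 ^ 2 - f * g.2 ^ 2) := by
    have := (hc.symm.pow_right (n := 2)).add_mul_left_right (-(f * g.2))
    rwa [show g.1 ^ 2 + g.2 * -(f * g.2) = g.1 ^ 2 - f * g.2 ^ 2 by ring] at this
  have c2 : IsCoprime g.2 w := by rw [hw] at c1; exact c1.of_mul_right_right
  obtain ⟨a, b, e⟩ := c2
  have d1 : w ∣ g.1 + (-(a * g.1) %ₘ w) * g.2 := by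
    refine ⟨b * g.1 - (-(a * g.1) /ₘ w) * g.2, ?_⟩
    have := modByMonic_add_div (-(a * g.1)) w
    linear_combination g.2 * this - g.1 * e
  refine ⟨(w, -(a * g.1) %ₘ w), ⟨mem_mo.2 ⟨hm, hd⟩, mem_lo.2 ?_, ?_⟩, hw, d1⟩
  · rw [← hd, ← degree_eq_natDegree hm.ne_zero]
    exact degree_modByMonic_lt _ hm
  · have c3 : IsCoprime w (g.2 ^ 2) := IsCoprime.pow_right (IsCoprime.symm ⟨a, b, e⟩)
    refine c3.dvd_of_dvd_mul_left ?_
    obtain ⟨k, hk⟩ := d1
    refine ⟨Lagrange.nodal S id + k * ((-(a * g.1) %ₘ w) * g.2 - g.1), ?_⟩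
    dsimp only
    linear_combination hw + ((-(a * g.1) %ₘ w) * g.2 - g.1) * hk

/-- two functions with the same residual divisor -/
theorem comb {n : ℕ} {f : F[X]} (hf : f.natDegree ≤ 4) {g g' : F[X] × F[X]} (hg : g ∈ GG F n)
    (hg' : g' ∈ GG F n) {w ρ : F[X]} (hw : w ∈ mo F (n + 3)) (h0 : w ∣ ρ ^ 2 - f)
    (h1 : w ∣ g.1 + ρ * g.2) (h2 : w ∣ g'.1 + ρ * g'.2) :
    ∃ k ∈ GG F n, w * k.1 = g.1 * g'.1 - f * (g.2 * g'.2) ∧ w * k.2 = g.2 * g'.1 - g.1 * g'.2 := by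
  obtain ⟨hA, hB⟩ := mem_product.1 hg
  obtain ⟨hA1, hA2⟩ := mem_mo.1 hA
  obtain ⟨hA', hB'⟩ := mem_product.1 hg'
  obtain ⟨hA1', hA2'⟩ := mem_mo.1 hA'
  obtain ⟨hm, hd⟩ := mem_mo.1 hw
  rw [mem_lo_succ] at hB hB'
  obtain ⟨a, ha⟩ := h0
  obtain ⟨b, hb⟩ := h1
  obtain ⟨c, hc⟩ := h2
  have e1 : w * (b * g'.1 - c * ρ * g.2 + a * (g.2 * g'.2)) = g.1 * g'.1 - f * (g.2 * g'.2) := by
    linear_combination (-g'.1) * hb + ρ * g.2 * hc - g.2 * g'.2 * ha
  have e2 : w * (c * g.2 - b * g'.2) = g.2 * g'.1 - g.1 * g'.2 := by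
    linear_combination g'.2 * hb - g.2 * hc
  refine ⟨(_, _), mem_product.2 ⟨mem_mo.2 ?_, mem_lo_succ.2 ?_⟩, e1, e2⟩
  · have k1 : (g.1 * g'.1).natDegree = 2 * (n + 3) := by rw [hA1.natDegree_mul hA1']; omega
    have k2 : (f * (g.2 * g'.2)).natDegree < (g.1 * g'.1).natDegree := by
      have : (g.2 * g'.2).natDegree ≤ 2 * n := natDegree_mul_le.trans (by omega)
      exact natDegree_mul_le.trans_lt (by omega)
    have k3 := (hA1.mul hA1').sub_of_left (degree_lt_degree k2)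
    have k4 := (natDegree_sub_eq_left_of_natDegree_lt k2).trans k1
    rw [← e1] at k3 k4
    have k5 := hm.of_mul_monic_left k3
    rw [hm.natDegree_mul k5] at k4
    exact ⟨k5, by dsimp only; omega⟩
  · by_cases k0 : c * g.2 - b * g'.2 = 0
    · simp [k0]
    have k1 : (g.2 * g'.1 - g.1 * g'.2).natDegree ≤ 2 * n + 3 :=
      (natDegree_sub_le _ _).trans (max_le (natDegree_mul_le.trans (by omega))
        (natDegree_mul_le.trans (by omega)))
    rw [← e2, natDegree_mul hm.ne_zero k0] at k1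
    dsimp only
    omega

end Pool.Agent.MP_80dd36_co.Five

end

section

namespace Pool.Agent.MP_80dd36_co.Five

open Polynomial Finset

set_option linter.unusedSectionVars false

variable {F : Type*} [Field F] [DecidableEq F] [Fintype F]

/-- roots of the norm -/
noncomputable def Rt (f : F[X]) (g : F[X] × F[X]) : Finset F :=
  (g.1 ^ 2 - f * g.2 ^ 2).roots.toFinset

theorem Rt_pow {n : ℕ} {f : F[X]} (hf : f.natDegree ≤ 4) {g : F[X] × F[X]} (hg : g ∈ GG F n) :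
    (Rt f g).powerset.card ≤ 4 ^ (n + 3) := by
  rw [card_powerset, show 4 = 2 ^ 2 from rfl, ← pow_mul]
  refine Nat.pow_le_pow_right (by norm_num) ((Multiset.toFinset_card_le _).trans ?_)
  rw [← (norm_monic hf hg).2]
  exact card_roots' _

theorem mem_Rt {n : ℕ} {f : F[X]} (hf : f.natDegree ≤ 4) {g : F[X] × F[X]} (hg : g ∈ GG F n)
    {x : F} : x ∈ Rt f g ↔ (g.1 ^ 2 - f * g.2 ^ 2).eval x = 0 := by
  rw [Rt, Multiset.mem_toFinset, mem_roots (norm_monic hf hg).1.ne_zero, IsRoot.def]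

open Classical in
/-- functions with the full number of zeros -/
noncomputable def Sp (n : ℕ) (f : F[X]) : Finset (F[X] × F[X]) :=
  (GG F n).filter fun g => IsCoprime g.1 g.2 ∧ 2 * (n + 3) ≤ (Rt f g).card

open Classical in
/-- functions with half of the zeros marked -/
noncomputable def ZZ (n : ℕ) (U : Finset F) (r : F → F) : Finset (Finset F × F[X] × F[X]) :=
  (powersetCard (n + 3) U ×ˢ GG F n).filter fun z =>
    ∀ x ∈ z.1, z.2.1.eval x + r x * z.2.2.eval x = 0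

theorem ZZ_lower (n : ℕ) (U : Finset F) (r : F → F) :
    U.card.choose (n + 3) * Fintype.card F ^ (n + 1) ≤ (ZZ n U r).card := by
  classical
  rw [← card_powersetCard, ← card_lo, ← card_product]
  refine card_le_card_of_injOn (fun z => (z.1, Lagrange.nodal z.1 id +
    Lagrange.interpolate z.1 id (fun x => -(r x * z.2.eval x)), z.2)) ?_ ?_
  · rintro ⟨S, B⟩ hz
    obtain ⟨hS, hB⟩ := mem_product.1 hz
    have hc : S.card = n + 3 := (mem_powersetCard.1 hS).2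
    have hd : (Lagrange.interpolate S id fun x => -(r x * B.eval x)).degree <
        (Lagrange.nodal S id).degree := by
      rw [Lagrange.degree_nodal]
      exact Lagrange.degree_interpolate_lt _ (Set.injOn_id _)
    refine mem_filter.2 ⟨mem_product.2 ⟨hS, mem_product.2 ⟨mem_mo.2
      ⟨Lagrange.nodal_monic.add_of_left hd, ?_⟩, hB⟩⟩, fun x hx => ?_⟩
    · dsimp only
      rw [natDegree_add_eq_left_of_degree_lt hd, Lagrange.natDegree_nodal, hc]
    · have e1 : (Lagrange.nodal S id).eval x = 0 := Lagrange.eval_nodal_at_node (v := id) hx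
      have e2 : (Lagrange.interpolate S id fun x => -(r x * B.eval x)).eval x = _ :=
        Lagrange.eval_interpolate_at_node (v := id) _ (Set.injOn_id _) hx
      dsimp only
      rw [eval_add, e1, e2]
      ring
  · intro z _ z' _ e
    exact Prod.ext (congrArg (·.1) e) (congrArg (·.2.2) e)

theorem ZZ_spec {n : ℕ} {f : F[X]} {U : Finset F} {r : F → F}
    (hr : ∀ x ∈ U, r x ≠ 0 ∧ r x ^ 2 = f.eval x) {z : Finset F × F[X] × F[X]} (hz : z ∈ ZZ n U r) :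
    z.1.card = n + 3 ∧ z.2 ∈ GG F n ∧ ∀ x ∈ z.1, r x ≠ 0 ∧ z.2.1.eval x = -(r x * z.2.2.eval x) ∧
      (z.2.1 ^ 2 - f * z.2.2 ^ 2).eval x = 0 := by
  classical
  obtain ⟨h1, h2⟩ := mem_filter.1 hz
  obtain ⟨h3, h4⟩ := mem_product.1 h1
  obtain ⟨h5, h6⟩ := mem_powersetCard.1 h3
  refine ⟨h6, h4, fun x hx => ⟨(hr x (h5 hx)).1, by linear_combination h2 x hx, ?_⟩⟩
  simp only [eval_sub, eval_mul, eval_pow]
  linear_combination (z.2.2.eval x) ^ 2 * (hr x (h5 hx)).2 +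
    (z.2.1.eval x - r x * z.2.2.eval x) * h2 x hx

theorem split_main (h2 : (2 : F) ≠ 0) (n : ℕ) {f : F[X]} (hf : f.natDegree ≤ 4) (hNs : Ns f)
    {U : Finset F} {r : F → F} (hr : ∀ x ∈ U, r x ≠ 0 ∧ r x ^ 2 = f.eval x) :
    ∃ Z : ℕ, U.card.choose (n + 3) * Fintype.card F ^ (n + 1) ≤
        Z + 4 ^ (n + 3) * ((n + 3) * Fintype.card F ^ (2 * n + 3)) ∧
      Z ^ 2 ≤ 4 ^ (n + 3) * Fintype.card F ^ (n + 3) * (4 ^ (n + 3) * (4 ^ (n + 3) *
        Fintype.card F ^ (n + 1)) * ((Sp n f).card + (n + 3) * Fintype.card F ^ (2 * n + 3))) := by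
  classical
  set Nc := (GG F n).filter fun g => ¬ IsCoprime g.1 g.2 with hNc
  have cNc : Nc.card ≤ (n + 3) * Fintype.card F ^ (2 * n + 3) := by
    convert card_ncop (F := F) n
  set Z := (ZZ n U r).filter fun z => IsCoprime z.2.1 z.2.2 with hZ
  refine ⟨Z.card, (ZZ_lower n U r).trans ?_, ?_⟩
  · rw [← card_filter_add_card_filter_not (s := ZZ n U r) fun z => IsCoprime z.2.1 z.2.2]
    refine Nat.add_le_add_left ((card_le_mul_card_image_of_maps_to (t := Nc) (f := fun z => z.2)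
      (fun z hz => ?_) (4 ^ (n + 3)) fun g hg => ?_).trans (Nat.mul_le_mul_left _ cNc)) _
    · obtain ⟨a, b⟩ := mem_filter.1 hz
      exact mem_filter.2 ⟨(ZZ_spec hr a).2.1, b⟩
    · have hg' := (mem_filter.1 hg).1
      refine le_trans (card_le_card_of_injOn (fun z => z.1) (fun z hz => ?_) ?_) (Rt_pow hf hg')
      · obtain ⟨a, rfl⟩ := mem_filter.1 hz
        exact mem_powerset.2 fun x hx =>
          (mem_Rt hf hg').2 ((ZZ_spec hr (mem_filter.1 a).1).2.2 x hx).2.2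
      · intro z hz z' hz' e
        exact Prod.ext e ((mem_filter.1 hz).2.trans (mem_filter.1 hz').2.symm)
  have ex : ∀ z ∈ Z, ∃ ω : F[X] × F[X], (ω.1 ∈ mo F (n + 3) ∧ ω.2 ∈ lo F (n + 3) ∧
      ω.1 ∣ ω.2 ^ 2 - f) ∧ z.2.1 ^ 2 - f * z.2.2 ^ 2 = Lagrange.nodal z.1 id * ω.1 ∧
      ω.1 ∣ z.2.1 + ω.2 * z.2.2 := by
    intro z hz
    obtain ⟨a, b⟩ := mem_filter.1 hz
    obtain ⟨c1, c2, c3⟩ := ZZ_spec hr a
    exact resid hf c2 b c1 fun x hx => (c3 x hx).2.2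
  choose! ι hι1 hι2 hι3 using ex
  set Ω := (mo F (n + 3) ×ˢ lo F (n + 3)).filter fun ω => ω.1 ∣ ω.2 ^ 2 - f with hΩ
  have cΩ : Ω.card ≤ 4 ^ (n + 3) * Fintype.card F ^ (n + 3) := by
    rw [← card_lo]
    refine card_le_mul_card_image_of_maps_to (f := fun ω => ω.2)
      (fun ω hω => (mem_product.1 (mem_filter.1 hω).1).2) _ fun ρ hρ => ?_
    have h0 : ρ ^ 2 - f ≠ 0 := fun e =>
      one_ne_zero (hNs.norm (A := ρ) (B := 1) (by simpa using e)).2
    rw [← card_image_of_injOn (f := fun ω => ω.1) fun z hz z' hz' e =>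
      Prod.ext e ((mem_filter.1 hz).2.trans (mem_filter.1 hz').2.symm)]
    refine (card_dvd h0 _ fun w hw => ?_).trans ?_
    · obtain ⟨ω, hω, rfl⟩ := mem_image.1 hw
      obtain ⟨a, rfl⟩ := mem_filter.1 hω
      exact ⟨(mem_mo.1 (mem_product.1 (mem_filter.1 a).1).1).1, (mem_filter.1 a).2⟩
    · rw [show 4 = 2 ^ 2 from rfl, ← pow_mul]
      refine Nat.pow_le_pow_right (by norm_num) ((natDegree_sub_le _ _).trans (max_le ?_ (by omega)))
      have := mem_lo_succ.1 hρ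
      exact natDegree_pow_le.trans (by omega)
  have mΩ : ∀ z ∈ Z, ι z ∈ Ω := fun z hz =>
    mem_filter.2 ⟨mem_product.2 ⟨(hι1 z hz).1, (hι1 z hz).2.1⟩, (hι1 z hz).2.2⟩
  set Pa := (Z ×ˢ Z).filter fun y => ι y.1 = ι y.2 with hPa
  have cs : Z.card ^ 2 ≤ Ω.card * Pa.card := by
    rw [card_eq_sum_card_fiberwise (f := ι) (t := Ω) fun z hz => mΩ z hz]
    refine sq_sum_le_card_mul_sum_sq.trans (Nat.mul_le_mul_left _ ?_)
    rw [card_eq_sum_card_fiberwise (s := Pa) (f := fun y => ι y.1) (t := Ω) fun y hy =>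
      mΩ _ (mem_product.1 (mem_filter.1 hy).1).1]
    refine sum_le_sum fun ω _ => ?_
    rw [sq, ← card_product]
    refine card_le_card fun y hy => ?_
    obtain ⟨a, b⟩ := mem_product.1 hy
    obtain ⟨a1, a2⟩ := mem_filter.1 a
    obtain ⟨b1, b2⟩ := mem_filter.1 b
    exact mem_filter.2 ⟨mem_filter.2 ⟨mem_product.2 ⟨a1, b1⟩, a2.trans b2.symm⟩, a2⟩
  refine cs.trans (Nat.mul_le_mul cΩ ?_)
  have ex2 : ∀ y ∈ Pa, ∃ k ∈ GG F n,
      (ι y.1).1 * k.1 = y.1.2.1 * y.2.2.1 - f * (y.1.2.2 * y.2.2.2) ∧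
      (ι y.1).1 * k.2 = y.1.2.2 * y.2.2.1 - y.1.2.1 * y.2.2.2 := by
    intro y hy
    obtain ⟨a, e⟩ := mem_filter.1 hy
    obtain ⟨a1, a2⟩ := mem_product.1 a
    exact comb hf (ZZ_spec hr (mem_filter.1 a1).1).2.1 (ZZ_spec hr (mem_filter.1 a2).1).2.1
      (hι1 _ a1).1 (hι1 _ a1).2.2 (hι3 _ a1) (e ▸ hι3 _ a2)
  choose! κ hκ0 hκ1 hκ2 using ex2
  have sp : ∀ y ∈ Pa, y.1 ∈ Z ∧ y.2 ∈ Z ∧ (ι y.1).1 ≠ 0 ∧
      y.2.2.1 ^ 2 - f * y.2.2.2 ^ 2 = Lagrange.nodal y.2.1 id * (ι y.1).1 ∧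
      (κ y).1 ^ 2 - f * (κ y).2 ^ 2 = Lagrange.nodal y.1.1 id * Lagrange.nodal y.2.1 id := by
    intro y hy
    obtain ⟨a, e⟩ := mem_filter.1 hy
    obtain ⟨a1, a2⟩ := mem_product.1 a
    have w0 : (ι y.1).1 ≠ 0 := (mem_mo.1 (hι1 _ a1).1).1.ne_zero
    have e1 := hι2 _ a1
    have e2 := hι2 _ a2
    rw [← e] at e2
    refine ⟨a1, a2, w0, e2, mul_left_cancel₀ (pow_ne_zero 2 w0) ?_⟩
    have k1 := hκ1 y hy
    have k2 := hκ2 y hy
    calc (ι y.1).1 ^ 2 * ((κ y).1 ^ 2 - f * (κ y).2 ^ 2)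
        = ((ι y.1).1 * (κ y).1) ^ 2 - f * ((ι y.1).1 * (κ y).2) ^ 2 := by ring
      _ = (y.1.2.1 ^ 2 - f * y.1.2.2 ^ 2) * (y.2.2.1 ^ 2 - f * y.2.2.2 ^ 2) := by
        rw [k1, k2]; ring
      _ = _ := by rw [e1, e2]; ring
  have rt : ∀ y ∈ Pa, y.1.1 ⊆ Rt f (κ y) ∧ y.2.1 ⊆ Rt f (κ y) := by
    intro y hy
    constructor <;> intro x hx <;> rw [mem_Rt hf (hκ0 y hy), (sp y hy).2.2.2.2, eval_mul]
    · rw [show (Lagrange.nodal y.1.1 id).eval x = 0 from
        Lagrange.eval_nodal_at_node (v := id) hx, zero_mul]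
    · rw [show (Lagrange.nodal y.2.1 id).eval x = 0 from
        Lagrange.eval_nodal_at_node (v := id) hx, mul_zero]
  refine (card_le_mul_card_image_of_maps_to (t := Sp n f ∪ Nc) (f := κ) (fun y hy => ?_)
    (4 ^ (n + 3) * (4 ^ (n + 3) * Fintype.card F ^ (n + 1))) fun k hk => ?_).trans
    (Nat.mul_le_mul_left _ ((card_union_le _ _).trans (Nat.add_le_add_left cNc _)))
  · by_cases hc : IsCoprime (κ y).1 (κ y).2
    swap
    · exact mem_union_right _ (mem_filter.2 ⟨hκ0 y hy, hc⟩)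
    refine mem_union_left _ (mem_filter.2 ⟨hκ0 y hy, hc, ?_⟩)
    obtain ⟨a1, a2, w0, e2, e3⟩ := sp y hy
    obtain ⟨b1, b2, b3⟩ := ZZ_spec hr (mem_filter.1 a1).1
    obtain ⟨c1, c2, c3⟩ := ZZ_spec hr (mem_filter.1 a2).1
    have hd : Disjoint y.1.1 y.2.1 := by
      rw [disjoint_left]
      intro x hx hx'
      have u1 : (Lagrange.nodal y.1.1 id).eval x = 0 := Lagrange.eval_nodal_at_node (v := id) hx
      have u2 : (Lagrange.nodal y.2.1 id).eval x = 0 := Lagrange.eval_nodal_at_node (v := id) hx'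
      have e4 : (κ y).2 * (y.1.2.2 * y.2.2.1 + y.1.2.1 * y.2.2.2) =
          y.1.2.2 ^ 2 * Lagrange.nodal y.2.1 id - y.2.2.2 ^ 2 * Lagrange.nodal y.1.1 id := by
        apply mul_left_cancel₀ w0
        linear_combination (y.1.2.2 * y.2.2.1 + y.1.2.1 * y.2.2.2) * hκ2 y hy +
          y.1.2.2 ^ 2 * e2 - y.2.2.2 ^ 2 * hι2 _ a1
      have e5 := congrArg (eval x) e4
      obtain ⟨r0, d1, -⟩ := b3 x hx
      obtain ⟨-, d2, -⟩ := c3 x hx'
      have f1 : y.1.2.2.eval x ≠ 0 := fun e =>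
        cop_eval (mem_filter.1 a1).2 (by rw [d1, e]; simp) e
      have f2 : y.2.2.2.eval x ≠ 0 := fun e =>
        cop_eval (mem_filter.1 a2).2 (by rw [d2, e]; simp) e
      simp only [eval_mul, eval_add, eval_sub, eval_pow, u1, u2, d1, d2] at e5
      have g1 : (κ y).2.eval x = 0 := by
        apply mul_left_cancel₀ (mul_ne_zero h2 (mul_ne_zero r0 (mul_ne_zero f1 f2)))
        linear_combination -e5
      have g2 := congrArg (eval x) e3
      simp only [eval_mul, eval_sub, eval_pow, u1, g1] at g2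
      exact cop_eval hc (by simpa using g2) g1
    have := card_le_card (union_subset (rt y hy).1 (rt y hy).2)
    rw [card_union_of_disjoint hd, b1, c1] at this
    omega
  · have hk' : k ∈ GG F n := by
      rcases mem_union.1 hk with h | h
      · exact (mem_filter.1 h).1
      · exact (mem_filter.1 h).1
    refine le_trans (card_le_card_of_injOn (fun y => (y.1.1, y.2.1, y.1.2.2))
      (t := (Rt f k).powerset ×ˢ (Rt f k).powerset ×ˢ lo F (n + 1)) (fun y hy => ?_) ?_) ?_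
    · obtain ⟨a, rfl⟩ := mem_filter.1 hy
      exact mem_product.2 ⟨mem_powerset.2 (rt y a).1, mem_product.2 ⟨mem_powerset.2 (rt y a).2,
        (mem_product.1 (ZZ_spec hr (mem_filter.1 (sp y a).1).1).2.1).2⟩⟩
    · rintro ⟨⟨S, A, B⟩, S', A', B'⟩ hy ⟨⟨S₂, A₂, B₂⟩, S₂', A₂', B₂'⟩ hy' e
      obtain ⟨rfl, e'⟩ := Prod.mk.inj e
      obtain ⟨rfl, rfl⟩ := Prod.mk.inj e'
      obtain ⟨a, a'⟩ := mem_filter.1 hy
      obtain ⟨b, b'⟩ := mem_filter.1 hy'
      obtain ⟨a1, a2, -⟩ := sp _ a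
      obtain ⟨b1, b2, -⟩ := sp _ b
      have un : ∀ (S : Finset F) (A A₂ B : F[X]), (S, A, B) ∈ Z → (S, A₂, B) ∈ Z → A = A₂ := by
        intro S A A₂ B h h'
        obtain ⟨c1, c2, c3⟩ := ZZ_spec hr (mem_filter.1 h).1
        obtain ⟨-, d2, d3⟩ := ZZ_spec hr (mem_filter.1 h').1
        dsimp only at c1
        refine monic_ext (S := S) (by rw [c1]; exact (mem_product.1 c2).1)
          (by rw [c1]; exact (mem_product.1 d2).1) fun x hx => ?_
        exact (c3 x hx).2.1.trans (d3 x hx).2.1.symm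
      obtain rfl := un S A A₂ B a1 b1
      have k1 := hκ1 _ a
      have k2 := hκ2 _ a
      have k3 := hκ1 _ b
      have k4 := hκ2 _ b
      rw [a'] at k1 k2
      rw [b'] at k3 k4
      dsimp only at k1 k2 k3 k4
      have n0 : A ^ 2 - f * B ^ 2 ≠ 0 :=
        (norm_monic hf (ZZ_spec hr (mem_filter.1 a1).1).2.1).1.ne_zero
      obtain rfl : B' = B₂' := by
        apply mul_left_cancel₀ n0
        linear_combination A * k2 - A * k4 - B * k1 + B * k3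
      rw [un S' A' A₂' B' a2 b2]
    · rw [card_product, card_product, card_lo]
      exact Nat.mul_le_mul (Rt_pow hf hk') (Nat.mul_le_mul_right _ (Rt_pow hf hk'))

theorem split_arith (T : ℕ) : ∃ K q₀ : ℕ, 0 < K ∧ ∀ q m Z s n : ℕ, T = n + 3 → q₀ ≤ q → q ≤ 4 * m →
    m.choose (n + 3) * q ^ (n + 1) ≤ Z + 4 ^ (n + 3) * ((n + 3) * q ^ (2 * n + 3)) →
    Z ^ 2 ≤ 4 ^ (n + 3) * q ^ (n + 3) * (4 ^ (n + 3) * (4 ^ (n + 3) * q ^ (n + 1)) *
      (s + (n + 3) * q ^ (2 * n + 3))) → q ^ (2 * n + 4) ≤ K * s := by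
  obtain ⟨K₁, hK₁⟩ : ∃ K₁, K₁ = 8 ^ T * T.factorial := ⟨_, rfl⟩
  obtain ⟨c, hc⟩ : ∃ c, c = 4 ^ T := ⟨_, rfl⟩
  have p1 : 0 < K₁ := by rw [hK₁]; positivity
  have p2 : 0 < c := by rw [hc]; positivity
  refine ⟨2 * (4 * K₁ ^ 2 * c ^ 3), 8 * T + 2 * K₁ * c * T + 2 * (4 * K₁ ^ 2 * c ^ 3) * T + 1,
    by positivity, fun q m Z s n hT hq hm h1 h2 => ?_⟩
  have a1 : q ^ T ≤ K₁ * m.choose T := by
    calc q ^ T ≤ (8 * (m + 1 - T)) ^ T := Nat.pow_le_pow_left (by omega) _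
      _ = 8 ^ T * (m + 1 - T) ^ T := mul_pow _ _ _
      _ ≤ 8 ^ T * m.descFactorial T := Nat.mul_le_mul_left _ (Nat.pow_sub_le_descFactorial m T)
      _ = _ := by rw [hK₁, Nat.descFactorial_eq_factorial_mul_choose]; ring
  rw [← hT, ← hc] at h1 h2
  obtain ⟨Q, hQ⟩ : ∃ Q, Q = q ^ (2 * n + 3) := ⟨_, rfl⟩
  have e1 : q ^ T * q ^ (n + 1) = q * Q := by rw [hQ, hT]; ring
  have e2 : q ^ (2 * n + 4) = q * Q := by rw [hQ]; ring
  have p3 : 0 < q * Q := by rw [← e2]; exact Nat.pow_pos (by omega)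
  rw [← hQ] at h1 h2
  rw [e2]
  have a2 : q * Q ≤ K₁ * (Z + c * (T * Q)) := by
    rw [← e1]
    exact (Nat.mul_le_mul_right _ a1).trans (by rw [mul_assoc]; exact Nat.mul_le_mul_left _ h1)
  have a3 : 2 * K₁ * c * T * Q ≤ q * Q := Nat.mul_le_mul_right _ (by omega)
  have a4 : q * Q ≤ 2 * K₁ * Z := by nlinarith
  have a5 : q * Q * (q * Q) ≤ q * Q * (4 * K₁ ^ 2 * c ^ 3 * (s + T * Q)) := by
    calc q * Q * (q * Q) ≤ 2 * K₁ * Z * (2 * K₁ * Z) := Nat.mul_le_mul a4 a4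
      _ = 4 * K₁ ^ 2 * Z ^ 2 := by ring
      _ ≤ 4 * K₁ ^ 2 * (c * q ^ T * (c * (c * q ^ (n + 1)) * (s + T * Q))) :=
        Nat.mul_le_mul_left _ h2
      _ = q ^ T * q ^ (n + 1) * (4 * K₁ ^ 2 * c ^ 3 * (s + T * Q)) := by ring
      _ = _ := by rw [e1]
  have a6 := Nat.le_of_mul_le_mul_left a5 p3
  have a7 : 2 * (4 * K₁ ^ 2 * c ^ 3) * T * Q ≤ q * Q := Nat.mul_le_mul_right _ (by omega)
  nlinarith

end Pool.Agent.MP_80dd36_co.Five

end

section

namespace Pool.Agent.MP_80dd36_co.Five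

open Polynomial Finset

set_option linter.unusedSectionVars false

variable {F : Type*} [Field F] [DecidableEq F]

theorem top_card {a : F} {n : ℕ} {R : F[X]} (ha : a ≠ 0) (hR : R.natDegree < n) (S : Finset F)
    (h : ∀ t ∈ S, a * t ^ n + R.eval t = 0) : S.card ≤ n := by
  apply card_le_of_roots (C a * X ^ n + R) n n
  · exact (natDegree_add_le _ _).trans (max_le (natDegree_C_mul_X_pow_le _ _) hR.le)
  · rw [coeff_add, coeff_eq_zero_of_natDegree_lt hR]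
    simpa using ha
  · intro t ht
    simpa using h t ht

/-- an affine equation on the image of `S` -/
def Eqn (ε : F) (P : F[X] × F[X] × F[X]) (S : Finset (F × F × F)) (m : Fin 6 → F) : Prop :=
  ∃ k, ∀ p ∈ S, m 0 * p.1 + m 1 * p.2.1 + m 2 * p.2.2 + m 3 * p.1 ^ 2 +
    m 4 * vv ε p.1 p.2.1 p.2.2 + m 5 * hh ε P p.1 p.2.1 p.2.2 = k

theorem Eqn.mono {ε : F} {P : F[X] × F[X] × F[X]} {S S' : Finset (F × F × F)} {m : Fin 6 → F}
    (h : Eqn ε P S m) (hs : S' ⊆ S) : Eqn ε P S' m :=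
  let ⟨k, hk⟩ := h; ⟨k, fun p hp => hk p (hs hp)⟩

/-- points on a line of a fibre -/
theorem line_card {ε : F} (hε : ¬ IsSquare ε) {P : F[X] × F[X] × F[X]} {S : Finset (F × F × F)}
    {x₀ l₁ l₂ k₀ : F} (hl : l₂ ^ 2 - ε * l₁ ^ 2 ≠ 0) (hx : ∀ p ∈ S, p.1 = x₀)
    (hL : ∀ p ∈ S, l₁ * p.2.1 + l₂ * p.2.2 = k₀) {m : Fin 6 → F} (hm : Eqn ε P S m)
    (hne : m 5 ≠ 0 ∨ m 4 ≠ 0 ∨ m 1 * l₂ - m 2 * l₁ ≠ 0) :
    (m 5 = 0 → S.card ≤ 2) ∧ S.card ≤ 4 := by
  have hε0 : ε ≠ 0 := by rintro rfl; exact hε IsSquare.zero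
  obtain ⟨k, hk⟩ := hm
  obtain ⟨d, hd⟩ : ∃ d, d * (l₂ ^ 2 - ε * l₁ ^ 2) = 1 := ⟨_, inv_mul_cancel₀ hl⟩
  have hd0 : d ≠ 0 := left_ne_zero_of_mul_eq_one hd
  let τ : F × F × F → F := fun p => l₂ * p.2.1 + ε * l₁ * p.2.2
  have hy : ∀ p ∈ S, p.2.1 = l₂ * d * τ p - ε * l₁ * k₀ * d := fun p hp => by
    rw [← hL p hp]; simp only [τ]; linear_combination (-p.2.1) * hd
  have hw : ∀ p ∈ S, p.2.2 = -l₁ * d * τ p + l₂ * k₀ * d := fun p hp => by
    rw [← hL p hp]; simp only [τ]; linear_combination (-p.2.2) * hd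
  have hv : ∀ p ∈ S, vv ε p.1 p.2.1 p.2.2 = d * τ p ^ 2 + (x₀ ^ 3 - ε * k₀ ^ 2 * d) := fun p hp => by
    rw [← hL p hp, ← hx p hp]; simp only [τ, vv]
    linear_combination (-(p.2.1 ^ 2 - ε * p.2.2 ^ 2)) * hd
  have hinj : Set.InjOn τ (S : Set (F × F × F)) := by
    intro p hp p' hp' e
    refine Prod.ext ((hx p hp).trans (hx p' hp').symm) (Prod.ext ?_ ?_)
    · rw [hy p hp, hy p' hp', e]
    · rw [hw p hp, hw p' hp', e]
  rw [← card_image_of_injOn hinj]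
  obtain ⟨v₀, hv₀⟩ : ∃ v₀, v₀ = x₀ ^ 3 - ε * k₀ ^ 2 * d := ⟨_, rfl⟩
  rw [← hv₀] at hv
  have key : ∀ p ∈ S, m 5 * ε * d ^ 2 * τ p ^ 4 + (m 4 * d * τ p ^ 2 +
      (m 1 * (l₂ * d * τ p - ε * l₁ * k₀ * d) + m 2 * (-l₁ * d * τ p + l₂ * k₀ * d) +
        (m 0 * x₀ + m 3 * x₀ ^ 2 + m 4 * v₀ - k)) +
      m 5 * (ε * (2 * d * v₀ * τ p ^ 2 + v₀ ^ 2 +
        (l₂ * d * τ p - ε * l₁ * k₀ * d) * (-l₁ * d * τ p + l₂ * k₀ * d)) + P.1.eval x₀ +
        P.2.1.eval x₀ * (l₂ * d * τ p - ε * l₁ * k₀ * d) +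
        P.2.2.eval x₀ * (-l₁ * d * τ p + l₂ * k₀ * d))) = 0 := by
    intro p hp
    have := hk p hp
    rw [hh, hv p hp, hx p hp] at this
    rw [← hy p hp, ← hw p hp]
    linear_combination this
  have h2 : m 5 = 0 → (S.image τ).card ≤ 2 := by
    intro h5
    by_cases h4 : m 4 = 0
    · have h1 : m 1 * l₂ - m 2 * l₁ ≠ 0 := (hne.resolve_left (not_not.2 h5)).resolve_left (not_not.2 h4)
      refine le_trans (top_card (n := 1) (mul_ne_zero h1 hd0)
        (R := C (-(m 1 * (ε * l₁ * k₀ * d)) + m 2 * (l₂ * k₀ * d) +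
          (m 0 * x₀ + m 3 * x₀ ^ 2 + m 4 * v₀ - k))) (by simp only [natDegree_C]; omega) _ ?_)
        (by omega)
      intro t ht
      obtain ⟨p, hp, rfl⟩ := mem_image.1 ht
      have := key p hp
      rw [h5, h4] at this
      rw [eval_C, h4]
      linear_combination this
    · refine top_card (n := 2) (mul_ne_zero h4 hd0)
        (R := C ((m 1 * l₂ - m 2 * l₁) * d) * X + C (-(m 1 * (ε * l₁ * k₀ * d)) +
          m 2 * (l₂ * k₀ * d) + (m 0 * x₀ + m 3 * x₀ ^ 2 + m 4 * v₀ - k)))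
        (natDegree_linear_le.trans_lt (by omega)) _ ?_
      intro t ht
      obtain ⟨p, hp, rfl⟩ := mem_image.1 ht
      have := key p hp
      rw [h5] at this
      simp only [eval_add, eval_mul, eval_C, eval_X]
      linear_combination this
  refine ⟨h2, ?_⟩
  by_cases h5 : m 5 = 0
  · exact (h2 h5).trans (by omega)
  refine top_card (n := 4) (a := m 5 * ε * d ^ 2) (by positivity)
    (R := C (m 4 * d) * X ^ 2 +
      (C (m 1) * (C (l₂ * d) * X - C (ε * l₁ * k₀ * d)) +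
        C (m 2) * (C (-l₁ * d) * X + C (l₂ * k₀ * d)) +
        C (m 0 * x₀ + m 3 * x₀ ^ 2 + m 4 * v₀ - k)) +
      C (m 5) * (C ε * (C (2 * d * v₀) * X ^ 2 + C (v₀ ^ 2) +
        (C (l₂ * d) * X - C (ε * l₁ * k₀ * d)) * (C (-l₁ * d) * X + C (l₂ * k₀ * d))) +
        C (P.1.eval x₀) + C (P.2.1.eval x₀) * (C (l₂ * d) * X - C (ε * l₁ * k₀ * d)) +
        C (P.2.2.eval x₀) * (C (-l₁ * d) * X + C (l₂ * k₀ * d))))
    (lt_of_le_of_lt (b := 2) (by compute_degree) (by omega)) _ ?_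
  intro t ht
  obtain ⟨p, hp, rfl⟩ := mem_image.1 ht
  simp only [eval_add, eval_sub, eval_mul, eval_C, eval_X, eval_pow]
  exact key p hp

/-- circle and conic in a fibre -/
theorem circ_card {ε : F} (hε : ¬ IsSquare ε) (hε' : ¬ IsSquare (-ε)) (h2 : (2 : F) ≠ 0)
    {P : F[X] × F[X] × F[X]} {S : Finset (F × F × F)} {x₀ k₁ k₂ k₀ : F} (hx : ∀ p ∈ S, p.1 = x₀)
    (hV : ∀ p ∈ S, vv ε p.1 p.2.1 p.2.2 = k₁ * p.2.1 + k₂ * p.2.2 + k₀) {m : Fin 6 → F}
    (hm : Eqn ε P S m) (h4 : m 4 = 0) (h5 : m 5 ≠ 0) : S.card ≤ 4 := by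
  have hε0 : ε ≠ 0 := by rintro rfl; exact hε IsSquare.zero
  obtain ⟨k, hk⟩ := hm
  obtain ⟨g, rfl⟩ : ∃ g, k₁ = 2 * g := ⟨k₁ / 2, by field_simp⟩
  let φ : F × F × F → F × F := fun p => (p.2.2, p.2.1 - g)
  have hinj : Set.InjOn φ (S : Set (F × F × F)) := by
    intro p hp p' hp' e
    obtain ⟨e1, e2⟩ := Prod.mk.inj e
    exact Prod.ext ((hx p hp).trans (hx p' hp').symm) (Prod.ext (sub_left_injective e2) e1)
  rw [← card_image_of_injOn hinj]
  obtain ⟨c₀, hc₀⟩ : ∃ c₀, c₀ = P.1.eval x₀ := ⟨_, rfl⟩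
  obtain ⟨b₁, hb₁⟩ : ∃ b₁, b₁ = P.2.1.eval x₀ := ⟨_, rfl⟩
  obtain ⟨b₂, hb₂⟩ : ∃ b₂, b₂ = P.2.2.eval x₀ := ⟨_, rfl⟩
  obtain ⟨f₀, hf₀⟩ : ∃ f₀, f₀ = k₀ - x₀ ^ 3 + g ^ 2 := ⟨_, rfl⟩
  obtain ⟨k', hk'⟩ : ∃ k', k' = k₀ + 2 * g ^ 2 := ⟨_, rfl⟩
  set f : F[X] := C ε * X ^ 2 + C k₂ * X + C f₀ with hf
  set A : F[X] := C (m 5 * ε * (4 * g ^ 2 * ε + k₂ ^ 2)) * X ^ 2 +
    C (m 5 * (ε * (4 * g ^ 2 * k₂ + 2 * k₂ * k' + g) + b₂) + m 2) * X +
    C (m 5 * (ε * (4 * g ^ 2 * f₀ + k' ^ 2) + c₀ + b₁ * g) + m 1 * g +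
      m 0 * x₀ + m 3 * x₀ ^ 2 - k) with hA
  set B : F[X] := C (m 5 * ε * (4 * g * k₂ + 1)) * X +
    C (m 5 * (ε * (4 * g * k') + b₁) + m 1) with hB
  have hfd : f.natDegree = 2 := natDegree_quadratic hε0
  have hNs : Ns f := Or.inl (by rw [hf, leadingCoeff_quadratic hε0]; exact hε)
  have hN : A ^ 2 - f * B ^ 2 ≠ 0 := by
    intro e
    obtain ⟨e1, e2⟩ := hNs.norm e
    have c1 := congrArg (fun q => coeff q 2) e1
    have c2 := congrArg (fun q => coeff q 1) e2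
    simp only [hA, hB, coeff_add, coeff_C_mul, coeff_X_pow, coeff_X, coeff_C, coeff_zero] at c1 c2
    norm_num [h5, hε0] at c1 c2
    have hg : 2 * g ≠ 0 := by
      intro e0
      have : (1 : F) = 0 := by linear_combination c2 - 2 * k₂ * e0
      exact one_ne_zero this
    have hg' : g ≠ 0 := right_ne_zero_of_mul hg
    refine hε' ⟨k₂ / (2 * g), ?_⟩
    field_simp
    linear_combination -c1
  refine (hyp_card f A B hN _ ?_ ?_).trans ?_
  · intro q hq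
    obtain ⟨p, hp, rfl⟩ := mem_image.1 hq
    have := hV p hp
    rw [vv, hx p hp] at this
    simp only [φ, hf, eval_add, eval_mul, eval_C, eval_X, eval_pow]
    linear_combination this - hf₀
  · intro q hq
    obtain ⟨p, hp, rfl⟩ := mem_image.1 hq
    have e1 := hV p hp
    have e2 := hk p hp
    rw [hh, e1, h4, hx p hp, ← hc₀, ← hb₁, ← hb₂] at e2
    rw [vv, hx p hp] at e1
    simp only [φ, hA, hB, eval_add, eval_mul, eval_C, eval_X, eval_pow]
    subst hf₀ hk'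
    linear_combination e2 - m 5 * ε * 4 * g ^ 2 * e1
  · have a1 : A.natDegree ≤ 2 := natDegree_quadratic_le
    have a2 : B.natDegree ≤ 1 := natDegree_linear_le
    have a3 : (A ^ 2).natDegree ≤ 4 := natDegree_pow_le.trans (by omega)
    have a4 : (B ^ 2).natDegree ≤ 2 := natDegree_pow_le.trans (by omega)
    exact (natDegree_sub_le _ _).trans (max_le a3 (natDegree_mul_le.trans (by omega)))

noncomputable def A0 (ε : F) (f y₀ w₀ v₀ : F[X]) (y₁ w₁ v₁ : F) : F[X] :=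
  C ε * (v₀ ^ 2 + C (v₁ ^ 2) * f + y₀ * w₀ + C (y₁ * w₁) * f)

noncomputable def B0 (ε : F) (y₀ w₀ v₀ : F[X]) (y₁ w₁ v₁ : F) : F[X] :=
  C ε * (C (2 * v₁) * v₀ + C w₁ * y₀ + C y₁ * w₀)

theorem A0_deg (ε : F) {f y₀ w₀ v₀ : F[X]} (y₁ w₁ v₁ : F) (hf : f.natDegree ≤ 4)
    (hy : y₀.natDegree ≤ 2) (hw : w₀.natDegree ≤ 2) (hv : v₀.natDegree ≤ 2) :
    (A0 ε f y₀ w₀ v₀ y₁ w₁ v₁).natDegree ≤ 4 := by
  unfold A0
  compute_degree
  omega

theorem B0_deg (ε : F) {y₀ w₀ v₀ : F[X]} (y₁ w₁ v₁ : F)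
    (hy : y₀.natDegree ≤ 2) (hw : w₀.natDegree ≤ 2) (hv : v₀.natDegree ≤ 2) :
    (B0 ε y₀ w₀ v₀ y₁ w₁ v₁).natDegree ≤ 2 := by
  unfold B0
  compute_degree
  omega

theorem hh_eq (ε : F) (P : F[X] × F[X] × F[X]) {f y₀ w₀ v₀ : F[X]} {y₁ w₁ v₁ x y w t : F}
    (ht : t ^ 2 = f.eval x) (hy : y = y₀.eval x + y₁ * t) (hw : w = w₀.eval x + w₁ * t)
    (hv : vv ε x y w = v₀.eval x + v₁ * t) :
    hh ε P x y w = (A0 ε f y₀ w₀ v₀ y₁ w₁ v₁ + P.1 + P.2.1 * y₀ + P.2.2 * w₀).eval x +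
      t * (B0 ε y₀ w₀ v₀ y₁ w₁ v₁ + P.2.1 * C y₁ + P.2.2 * C w₁).eval x := by
  rw [hh, hv]
  simp only [A0, B0, eval_add, eval_mul, eval_C, eval_pow]
  rw [← ht, hy, hw]
  ring

theorem norm_deg {f A B : F[X]} {n : ℕ} (hf : f.natDegree ≤ 4) (hA : A.natDegree ≤ n + 2)
    (hB : B.natDegree ≤ n) : (A ^ 2 - f * B ^ 2).natDegree ≤ 2 * (n + 2) := by
  have a3 : (A ^ 2).natDegree ≤ 2 * (n + 2) := natDegree_pow_le.trans (by omega)
  have a4 : (B ^ 2).natDegree ≤ 2 * n := natDegree_pow_le.trans (by omega)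
  exact (natDegree_sub_le _ _).trans (max_le a3 (natDegree_mul_le.trans (by omega)))

/-- the curve of genus one -/
theorem gam_card {ε : F} (hε : ¬ IsSquare ε) (h2 : (2 : F) ≠ 0) {T : ℕ} (hT : 5 ≤ T)
    {P : F[X] × F[X] × F[X]} (hP : Ok T P) {S : Finset (F × F × F)} {l₁ l₂ k₁ k₂ : F}
    (hl : l₂ ^ 2 - ε * l₁ ^ 2 ≠ 0) {s r : F[X]} (hs : s.natDegree ≤ 2) (hr : r.natDegree ≤ 2)
    (hL : ∀ p ∈ S, l₁ * p.2.1 + l₂ * p.2.2 = s.eval p.1)
    (hV : ∀ p ∈ S, vv ε p.1 p.2.1 p.2.2 = r.eval p.1 + 0 + k₁ * p.2.1 + k₂ * p.2.2)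
    {m : Fin 6 → F} (hm : Eqn ε P S m) (h0 : m ≠ 0) (h4 : m 4 = 0)
    (he : l₂ * m 2 - ε * l₁ * m 1 = 0) : (m 5 = 0 → S.card ≤ 4) ∧ S.card ≤ 2 * T := by
  obtain ⟨k, hk⟩ := hm
  obtain ⟨f', y₀, w₀, hy₀, hw₀, H⟩ := normal hε h2 hl hs hr k₁ k₂
  obtain ⟨hf, hNs, H⟩ := H 0
  generalize f' + C ((l₂ ^ 2 - ε * l₁ ^ 2) * 0) = f at hf hNs H
  obtain ⟨y₁, hy₁⟩ : ∃ y₁, y₁ = l₂ / (l₂ ^ 2 - ε * l₁ ^ 2) := ⟨_, rfl⟩
  obtain ⟨w₁, hw₁⟩ : ∃ w₁, w₁ = -l₁ / (l₂ ^ 2 - ε * l₁ ^ 2) := ⟨_, rfl⟩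
  rw [← hy₁, ← hw₁] at H
  have H' : ∀ p ∈ S, ∃ t : F, t ^ 2 = f.eval p.1 ∧ p.2.1 = y₀.eval p.1 + y₁ * t ∧
      p.2.2 = w₀.eval p.1 + w₁ * t := fun p hp => (H _ _ _).1 ⟨hL p hp, hV p hp⟩
  choose! τ h1 hy hw using H'
  have hinj : Set.InjOn (fun p : F × F × F => (p.1, τ p)) (S : Set (F × F × F)) := by
    intro p hp p' hp' e
    obtain ⟨e1, e2⟩ := Prod.mk.inj e
    refine Prod.ext e1 (Prod.ext ?_ ?_)
    · rw [hy p hp, hy p' hp', e1, e2]
    · rw [hw p hp, hw p' hp', e1, e2]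
  rw [← card_image_of_injOn hinj]
  set v₀ : F[X] := r + C k₁ * y₀ + C k₂ * w₀ with hv₀
  have hv₀d : v₀.natDegree ≤ 2 := by rw [hv₀]; compute_degree; omega
  set v₁ : F := k₁ * y₁ + k₂ * w₁ with hv₁
  set A₁ : F[X] := C (m 3) * X ^ 2 + C (m 0) * X - C k + C (m 1) * y₀ + C (m 2) * w₀ with hA₁
  have hA₁d : A₁.natDegree ≤ 2 := by rw [hA₁]; compute_degree; omega
  set A₂ := A0 ε f y₀ w₀ v₀ y₁ w₁ v₁ + P.1 + P.2.1 * y₀ + P.2.2 * w₀ with hA₂
  set B₂ := B0 ε y₀ w₀ v₀ y₁ w₁ v₁ + P.2.1 * C y₁ + P.2.2 * C w₁ with hB₂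
  have key : (A₁ + C (m 5) * A₂) ^ 2 - f * (C (m 1 * y₁ + m 2 * w₁) + C (m 5) * B₂) ^ 2 ≠ 0 →
      (S.image fun p : F × F × F => (p.1, τ p)).card ≤ ((A₁ + C (m 5) * A₂) ^ 2 -
        f * (C (m 1 * y₁ + m 2 * w₁) + C (m 5) * B₂) ^ 2).natDegree := by
    intro hN
    refine hyp_card f _ _ hN _ ?_ ?_
    · intro q hq
      obtain ⟨p, hp, rfl⟩ := mem_image.1 hq
      exact h1 p hp
    · intro q hq
      obtain ⟨p, hp, rfl⟩ := mem_image.1 hq
      have e1 : vv ε p.1 p.2.1 p.2.2 = v₀.eval p.1 + v₁ * τ p := by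
        rw [hV p hp, hv₀, hv₁]
        simp only [eval_add, eval_mul, eval_C]
        linear_combination k₁ * hy p hp + k₂ * hw p hp
      have e2 := hh_eq ε P (h1 p hp) (hy p hp) (hw p hp) e1
      have e3 := hk p hp
      rw [e2, h4, ← hA₂, ← hB₂] at e3
      simp only [hA₁, eval_add, eval_sub, eval_mul, eval_C, eval_X, eval_pow]
      linear_combination e3 - m 1 * hy p hp - m 2 * hw p hp
  have h5 : m 5 = 0 → (S.image fun p : F × F × F => (p.1, τ p)).card ≤ 4 := by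
    intro h5
    rw [h5, C_0, zero_mul, zero_mul, add_zero, add_zero] at key
    refine (key fun e => h0 ?_).trans (norm_deg (n := 0) hf hA₁d (by rw [natDegree_C]))
    obtain ⟨e1, e2⟩ := hNs.norm e
    have e3 : m 1 * l₂ - m 2 * l₁ = 0 := by
      have := C_eq_zero.1 e2
      rw [hy₁, hw₁] at this
      field_simp at this
      linear_combination this
    have g1 : m 1 = 0 := by
      apply mul_left_cancel₀ hl
      linear_combination l₂ * e3 + l₁ * he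
    have g2 : m 2 = 0 := by
      apply mul_left_cancel₀ hl
      linear_combination l₂ * he + ε * l₁ * e3
    rw [hA₁, g1, g2] at e1
    have c1 := congrArg (fun q => coeff q 2) e1
    have c2 := congrArg (fun q => coeff q 1) e1
    simp [coeff_C] at c1 c2
    funext i
    fin_cases i <;> assumption
  refine ⟨h5, ?_⟩
  by_cases h50 : m 5 = 0
  · exact (h5 h50).trans (by omega)
  obtain ⟨p1, p2, p3, p4⟩ := hP
  have a1 := A0_deg ε y₁ w₁ v₁ hf hy₀ hw₀ hv₀d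
  have a2 := B0_deg ε y₁ w₁ v₁ hy₀ hw₀ hv₀d
  have a3 : (P.2.1 * y₀).natDegree < T := natDegree_mul_le.trans_lt (by omega)
  have a4 : (P.2.2 * w₀).natDegree < T := natDegree_mul_le.trans_lt (by omega)
  refine (key fun e => h50 ?_).trans ((norm_deg (n := T - 2) hf ?_ ?_).trans (by omega))
  · have c1 := congrArg (fun q => coeff q T) (hNs.norm e).1
    have c2 : P.1.coeff T = 1 := by rw [← p2]; exact p1
    simp only [hA₂, coeff_add, coeff_C_mul, coeff_zero] at c1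
    rw [coeff_eq_zero_of_natDegree_lt (p := A₁) (by omega),
      coeff_eq_zero_of_natDegree_lt (p := A0 ε f y₀ w₀ v₀ y₁ w₁ v₁) (by omega),
      coeff_eq_zero_of_natDegree_lt a3, coeff_eq_zero_of_natDegree_lt a4, c2] at c1
    simpa using c1
  · rw [hA₂]; compute_degree; omega
  · rw [hB₂]; compute_degree; omega

/-- curves with parameter `x` -/
theorem par_card {ε : F} (hε : ¬ IsSquare ε) (hε' : ¬ IsSquare (-ε)) {T : ℕ} (hT : 5 ≤ T)
    {P : F[X] × F[X] × F[X]} (hP : Ok T P) {S : Finset (F × F × F)} {Y W : F[X]}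
    (hY : Y.natDegree ≤ 2) (hW : W.natDegree ≤ 2) (hy : ∀ p ∈ S, p.2.1 = Y.eval p.1)
    (hw : ∀ p ∈ S, p.2.2 = W.eval p.1) {m : Fin 6 → F} (hm : Eqn ε P S m) (h0 : m ≠ 0)
    (h1 : m 1 = 0) (h2 : m 2 = 0) : (m 5 = 0 → S.card ≤ 4) ∧ S.card ≤ 2 * T := by
  have hε0 : ε ≠ 0 := by rintro rfl; exact hε IsSquare.zero
  obtain ⟨k, hk⟩ := hm
  have hinj : Set.InjOn (fun p : F × F × F => p.1) (S : Set (F × F × F)) := by
    intro p hp p' hp' e
    refine Prod.ext e (Prod.ext ?_ ?_)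
    · rw [hy p hp, hy p' hp', show p.1 = p'.1 from e]
    · rw [hw p hp, hw p' hp', show p.1 = p'.1 from e]
  rw [← card_image_of_injOn hinj]
  set V : F[X] := Y ^ 2 - C ε * W ^ 2 + X ^ 3 with hV
  have hY2 : (Y ^ 2).natDegree ≤ 4 := natDegree_pow_le.trans (by omega)
  have hW2 : (W ^ 2).natDegree ≤ 4 := natDegree_pow_le.trans (by omega)
  have hV4 : V.natDegree ≤ 4 := by rw [hV]; compute_degree; omega
  have hV3 : 3 ≤ V.natDegree := by
    by_cases h : V.coeff 4 = 0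
    · rw [hV, coeff_add, coeff_sub, coeff_C_mul, coeff_X_pow, show 4 = 2 * 2 from rfl, coeff_sq hY,
        coeff_sq hW] at h
      obtain ⟨e1, e2⟩ := aniso (a := Y.coeff 2) (b := W.coeff 2) hε (by simpa using h)
      have b1 := deg_lt_of_coeff hY e1
      have b2 := deg_lt_of_coeff hW e2
      apply le_natDegree_of_ne_zero
      rw [hV, coeff_add, coeff_sub, coeff_C_mul, coeff_X_pow,
        coeff_eq_zero_of_natDegree_lt (p := Y ^ 2) (natDegree_pow_le.trans_lt (by omega)),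
        coeff_eq_zero_of_natDegree_lt (p := W ^ 2) (natDegree_pow_le.trans_lt (by omega))]
      simp
    · exact le_trans (by omega) (le_natDegree_of_ne_zero h)
  have hV0 : V.leadingCoeff ≠ 0 := leadingCoeff_ne_zero.2 (by rintro e; rw [e] at hV3; simp at hV3)
  set G₁ : F[X] := C (m 3) * X ^ 2 + C (m 0) * X - C k with hG₁
  have hG₁d : G₁.natDegree ≤ 2 := by rw [hG₁]; compute_degree
  set R : F[X] := C ε * (Y * W) + P.2.1 * Y + P.2.2 * W with hR
  have key : ∀ x ∈ S.image fun p : F × F × F => p.1,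
      (G₁ + C (m 4) * V + C (m 5) * (C ε * V ^ 2 + P.1 + R)).eval x = 0 := by
    intro x hx
    obtain ⟨p, hp, rfl⟩ := mem_image.1 hx
    have e3 := hk p hp
    rw [h1, h2, hh, vv, hy p hp, hw p hp] at e3
    simp only [hG₁, hV, hR, eval_add, eval_sub, eval_mul, eval_C, eval_X, eval_pow]
    linear_combination e3
  have h5 : m 5 = 0 → (S.image fun p : F × F × F => p.1).card ≤ 4 := by
    intro h5
    rw [h5, C_0, zero_mul, add_zero] at key
    have hd : (G₁ + C (m 4) * V).natDegree ≤ 4 := by compute_degree; omega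
    by_cases h4 : m 4 = 0
    · by_cases h3 : m 3 = 0
      · refine card_le_of_roots _ 4 1 hd (fun e => h0 ?_) _ key
        simp [hG₁, h4, h3, coeff_C] at e
        funext i
        fin_cases i <;> assumption
      · refine card_le_of_roots _ 4 2 hd ?_ _ key
        simpa [hG₁, h4, coeff_C, coeff_X] using h3
    · refine card_le_of_roots _ 4 V.natDegree hd ?_ _ key
      rw [coeff_add, coeff_eq_zero_of_natDegree_lt (p := G₁) (by omega), coeff_C_mul, zero_add]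
      exact mul_ne_zero h4 hV0
  refine ⟨h5, ?_⟩
  by_cases h50 : m 5 = 0
  · exact (h5 h50).trans (by omega)
  obtain ⟨p1, p2, p3, p4⟩ := hP
  have hV2 : (V ^ 2).natDegree = 2 * V.natDegree := natDegree_pow _ _
  have hRd : R.natDegree ≤ max 4 (T - 1) := by rw [hR]; compute_degree; omega
  clear_value R V G₁
  refine card_le_of_roots _ (2 * T) (max (2 * V.natDegree) T) ?_ ?_ _ key
  · compute_degree; omega
  · rw [coeff_add, coeff_add, coeff_C_mul, coeff_C_mul, coeff_add, coeff_add, coeff_C_mul,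
      coeff_eq_zero_of_natDegree_lt (p := G₁) (by omega),
      coeff_eq_zero_of_natDegree_lt (p := V) (by omega),
      coeff_eq_zero_of_natDegree_lt (p := R) (by omega), mul_zero, add_zero, zero_add, add_zero]
    refine mul_ne_zero h50 ?_
    have c1 : (V ^ 2).coeff (2 * V.natDegree) = V.leadingCoeff ^ 2 := coeff_sq le_rfl
    have c2 : P.1.coeff T = 1 := by rw [← p2]; exact p1
    rcases lt_trichotomy (2 * V.natDegree) T with h | h | h
    · rw [max_eq_right h.le, c2, coeff_eq_zero_of_natDegree_lt (p := V ^ 2) (by omega)]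
      simp
    · rw [max_eq_left h.ge, c1, h, c2]
      intro e
      refine hε' ⟨V.leadingCoeff⁻¹, ?_⟩
      field_simp
      linear_combination -e
    · rw [max_eq_left h.le, c1, coeff_eq_zero_of_natDegree_lt (p := P.1) (by omega), add_zero]
      positivity

end Pool.Agent.MP_80dd36_co.Five

end

section

namespace Pool.Agent.MP_80dd36_co.Five

open Polynomial Finset Module

set_option linter.unusedSectionVars false

variable {F : Type*} [Field F] [DecidableEq F]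

theorem disc_ne {ε a b : F} (hε : ¬ IsSquare ε) (h : a ≠ 0 ∨ b ≠ 0) : b ^ 2 - ε * a ^ 2 ≠ 0 :=
  fun e => h.elim (fun c => c (aniso hε e).2) (fun c => c (aniso hε e).1)

theorem det_ne {ε l₁ l₂ a b : F} (hl : l₂ ^ 2 - ε * l₁ ^ 2 ≠ 0) (h : a ≠ 0 ∨ b ≠ 0)
    (e : l₂ * b - ε * l₁ * a = 0) : a * l₂ - b * l₁ ≠ 0 := by
  intro e3
  rcases h with h | h
  · apply h
    apply mul_left_cancel₀ hl
    linear_combination l₂ * e3 + l₁ * e
  · apply h
    apply mul_left_cancel₀ hl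
    linear_combination l₂ * e + ε * l₁ * e3

theorem vec_zero {m : Fin 6 → F} (h0 : m 0 = 0) (h1 : m 1 = 0) (h2 : m 2 = 0) (h3 : m 3 = 0)
    (h4 : m 4 = 0) (h5 : m 5 = 0) : m = 0 := by
  funext i
  fin_cases i <;> assumption

theorem fib_card {ε : F} (hε : ¬ IsSquare ε) (hε' : ¬ IsSquare (-ε)) (h2 : (2 : F) ≠ 0)
    {P : F[X] × F[X] × F[X]} {S : Finset (F × F × F)} {x₀ : F} (hx : ∀ p ∈ S, p.1 = x₀)
    (st : Prop) (R : ∀ a₁ a₂ a₄ a₅ : F, ∃ m, Eqn ε P S m ∧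
      (m 1 ≠ 0 ∨ m 2 ≠ 0 ∨ m 4 ≠ 0 ∨ m 5 ≠ 0) ∧ a₁ * m 1 + a₂ * m 2 + a₄ * m 4 + a₅ * m 5 = 0 ∧
      (st → m 5 = 0)) : (st → S.card ≤ 2) ∧ S.card ≤ 4 := by
  have line : ∀ m, Eqn ε P S m → m 4 = 0 → m 5 = 0 →
      ∃ k₀, ∀ p ∈ S, m 1 * p.2.1 + m 2 * p.2.2 = k₀ := by
    rintro m ⟨k, hk⟩ h4 h5
    refine ⟨k - m 0 * x₀ - m 3 * x₀ ^ 2, fun p hp => ?_⟩
    have := hk p hp
    rw [h4, h5, hx p hp] at this
    linear_combination this
  obtain ⟨m, hm, hne, h5, -⟩ := R 0 0 0 1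
  replace h5 : m 5 = 0 := by linear_combination h5
  by_cases h4 : m 4 = 0
  · obtain ⟨k₀, hL⟩ := line m hm h4 h5
    have hl := disc_ne hε (a := m 1) (b := m 2) (by tauto)
    obtain ⟨m', hm', hne', he, hst⟩ := R (-(ε * m 1)) (m 2) 0 0
    have := line_card hε hl hx hL hm' (by
      by_cases c5 : m' 5 = 0
      · by_cases c4 : m' 4 = 0
        · exact Or.inr (Or.inr (det_ne hl (by tauto) (by linear_combination he)))
        · exact Or.inr (Or.inl c4)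
      · exact Or.inl c5)
    exact ⟨fun h => this.1 (hst h), this.2⟩
  · obtain ⟨m', hm', hne', he, hst⟩ := R 0 0 1 0
    replace he : m' 4 = 0 := by linear_combination he
    by_cases c5 : m' 5 = 0
    · obtain ⟨k₀, hL⟩ := line m' hm' he c5
      have hl := disc_ne hε (a := m' 1) (b := m' 2) (by tauto)
      have := (line_card hε hl hx hL hm (Or.inr (Or.inl h4))).1 h5
      exact ⟨fun _ => this, this.trans (by omega)⟩
    · refine ⟨fun h => absurd (hst h) c5, ?_⟩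
      obtain ⟨k, hk⟩ := hm
      refine circ_card hε hε' h2 hx (k₁ := -m 1 / m 4) (k₂ := -m 2 / m 4)
        (k₀ := (k - m 0 * x₀ - m 3 * x₀ ^ 2) / m 4) (fun p hp => ?_) hm' he c5
      have := hk p hp
      rw [h5] at this
      rw [← hx p hp]
      field_simp
      linear_combination this

theorem non_card {ε : F} (hε : ¬ IsSquare ε) (hε' : ¬ IsSquare (-ε)) (h2 : (2 : F) ≠ 0)
    {T : ℕ} (hT : 5 ≤ T) {P : F[X] × F[X] × F[X]} (hP : Ok T P) {S : Finset (F × F × F)}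
    (hx : ¬ ∃ x₀, ∀ p ∈ S, p.1 = x₀) (st : Prop)
    (H : ∀ u u' : Fin 6 → F, ∃ m, Eqn ε P S m ∧ m ≠ 0 ∧ u ⬝ᵥ m = 0 ∧ u' ⬝ᵥ m = 0 ∧
      (st → m 5 = 0)) : (st → S.card ≤ 4) ∧ S.card ≤ 2 * T := by
  have two : ∀ n, Eqn ε P S n → n ≠ 0 → n 1 = 0 → n 2 = 0 → n 4 = 0 → n 5 = 0 →
      (st → S.card ≤ 4) ∧ S.card ≤ 2 * T := by
    rintro n ⟨k, hk⟩ h0 n1 n2 n4 n5
    have hv : ∀ x ∈ S.image Prod.fst, n 3 * x ^ 2 + n 0 * x + -k = 0 := by
      intro x hx
      obtain ⟨p, hp, rfl⟩ := mem_image.1 hx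
      have := hk p hp
      rw [n1, n2, n4, n5] at this
      linear_combination this
    have h3 : n 3 ≠ 0 := by
      intro h3
      have : n 0 ≠ 0 := fun e => h0 (vec_zero e n1 n2 h3 n4 n5)
      refine hx ⟨k / n 0, fun p hp => ?_⟩
      have e := hv _ (mem_image_of_mem _ hp)
      rw [h3] at e
      field_simp
      linear_combination e
    have h1 := card_le_two_of_quad _ _ _ h3 _ hv
    have hf : ∀ x₀, (st → (S.filter fun p => p.1 = x₀).card ≤ 2) ∧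
        (S.filter fun p => p.1 = x₀).card ≤ 4 := by
      intro x₀
      refine fib_card hε hε' h2 (P := P) (fun p hp => (mem_filter.1 hp).2) st fun a₁ a₂ a₄ a₅ => ?_
      obtain ⟨m, hm, m0, e1, e2, hst⟩ := H ![0, a₁, a₂, 0, a₄, a₅] ![0, 0, 0, 1, 0, 0]
      simp [dotProduct, Fin.sum_univ_six] at e1 e2
      refine ⟨m, hm.mono (filter_subset _ _), ?_, e1, hst⟩
      by_contra hc
      push Not at hc
      have : m 0 ≠ 0 := fun e => m0 (vec_zero e hc.1 hc.2.1 e2 hc.2.2.1 hc.2.2.2)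
      obtain ⟨k', hk'⟩ := hm
      refine hx ⟨k' / m 0, fun p hp => ?_⟩
      have e := hk' p hp
      rw [hc.1, hc.2.1, e2, hc.2.2.1, hc.2.2.2] at e
      field_simp
      linear_combination e
    constructor
    · intro h
      have := card_le_mul_card_image (f := Prod.fst) S 2 fun x₀ _ => (hf x₀).1 h
      omega
    · have := card_le_mul_card_image (f := Prod.fst) S 4 fun x₀ _ => (hf x₀).2
      omega
  obtain ⟨m, hm, m0, m4, m5, -⟩ := H ![0, 0, 0, 0, 1, 0] ![0, 0, 0, 0, 0, 1]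
  simp [dotProduct, Fin.sum_univ_six] at m4 m5
  by_cases hz : m 1 = 0 ∧ m 2 = 0
  · exact two m hm m0 hz.1 hz.2 m4 m5
  have hl := disc_ne hε (a := m 1) (b := m 2) (by tauto)
  obtain ⟨k, hk⟩ := hm
  have hL : ∀ p ∈ S, m 1 * p.2.1 + m 2 * p.2.2 =
      (C (-m 3) * X ^ 2 + C (-m 0) * X + C k).eval p.1 := by
    intro p hp
    have := hk p hp
    rw [m4, m5] at this
    simp only [eval_add, eval_mul, eval_C, eval_X, eval_pow]
    linear_combination this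
  obtain ⟨n, hn, n0, n5, ne, -⟩ := H ![0, 0, 0, 0, 0, 1] ![0, -(ε * m 1), m 2, 0, 0, 0]
  simp [dotProduct, Fin.sum_univ_six] at n5 ne
  by_cases n4 : n 4 = 0
  · by_cases hz' : n 1 = 0 ∧ n 2 = 0
    · exact two n hn n0 hz'.1 hz'.2 n4 n5
    have hd := det_ne hl (a := n 1) (b := n 2) (by tauto) (by linear_combination ne)
    obtain ⟨k', hk'⟩ := hn
    obtain ⟨d, hd'⟩ : ∃ d, d * (n 1 * m 2 - n 2 * m 1) = 1 := ⟨_, inv_mul_cancel₀ hd⟩
    obtain ⟨o, ho, o0, o1, o2, hst⟩ := H ![0, 1, 0, 0, 0, 0] ![0, 0, 1, 0, 0, 0]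
    simp [dotProduct, Fin.sum_univ_six] at o1 o2
    have := par_card hε hε' hT hP
      (Y := C (d * (n 2 * m 3 - m 2 * n 3)) * X ^ 2 + C (d * (n 2 * m 0 - m 2 * n 0)) * X +
        C (d * (m 2 * k' - n 2 * k)))
      (W := C (d * (m 1 * n 3 - n 1 * m 3)) * X ^ 2 + C (d * (m 1 * n 0 - n 1 * m 0)) * X +
        C (d * (n 1 * k - m 1 * k'))) natDegree_quadratic_le natDegree_quadratic_le
      (fun p hp => by
        have e1 := hk p hp
        have e2 := hk' p hp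
        rw [m4, m5] at e1
        rw [n4, n5] at e2
        simp only [eval_add, eval_mul, eval_C, eval_X, eval_pow]
        linear_combination d * m 2 * e2 - d * n 2 * e1 - p.2.1 * hd')
      (fun p hp => by
        have e1 := hk p hp
        have e2 := hk' p hp
        rw [m4, m5] at e1
        rw [n4, n5] at e2
        simp only [eval_add, eval_mul, eval_C, eval_X, eval_pow]
        linear_combination d * n 1 * e1 - d * m 1 * e2 - p.2.2 * hd') ho o0 o1 o2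
    exact ⟨fun h => this.1 (hst h), this.2⟩
  · obtain ⟨k', hk'⟩ := hn
    obtain ⟨o, ho, o0, o4, oe, hst⟩ := H ![0, 0, 0, 0, 1, 0] ![0, -(ε * m 1), m 2, 0, 0, 0]
    simp [dotProduct, Fin.sum_univ_six] at o4 oe
    have := gam_card hε h2 hT hP hl natDegree_quadratic_le
      (r := C (-n 3 / n 4) * X ^ 2 + C (-n 0 / n 4) * X + C (k' / n 4)) (k₁ := -n 1 / n 4)
      (k₂ := -n 2 / n 4) natDegree_quadratic_le hL (fun p hp => by
        have e2 := hk' p hp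
        rw [n5] at e2
        simp only [eval_add, eval_mul, eval_C, eval_X, eval_pow]
        field_simp
        linear_combination e2) ho o0 o4 (by linear_combination oe)
    exact ⟨fun h => this.1 (hst h), this.2⟩

/-- the space of equations -/
def Ann (ε : F) (P : F[X] × F[X] × F[X]) (S : Finset (F × F × F)) : Submodule F (Fin 6 → F) where
  carrier := {m | Eqn ε P S m}
  zero_mem' := ⟨0, fun p _ => by simp⟩
  add_mem' := by
    rintro a b ⟨k, hk⟩ ⟨k', hk'⟩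
    refine ⟨k + k', fun p hp => ?_⟩
    simp only [Pi.add_apply]
    linear_combination hk p hp + hk' p hp
  smul_mem' := by
    rintro c a ⟨k, hk⟩
    refine ⟨c * k, fun p hp => ?_⟩
    simp only [Pi.smul_apply, smul_eq_mul]
    linear_combination c * hk p hp

theorem pick (M : Submodule F (Fin 6 → F)) {k : ℕ} (hk : k < finrank F M)
    (u : Fin k → Fin 6 → F) : ∃ m ∈ M, m ≠ 0 ∧ ∀ j, u j ⬝ᵥ m = 0 := by
  obtain ⟨m, hm, h0⟩ := (Submodule.ne_bot_iff _).1 (LinearMap.ker_ne_bot_of_finrank_lt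
    (f := (Matrix.of u).mulVecLin.comp M.subtype) (by simpa using hk))
  exact ⟨m, m.2, fun e => h0 (Subtype.ext e), fun j => congrFun (LinearMap.mem_ker.1 hm) j⟩

theorem ann_le {ε : F} (hε : ¬ IsSquare ε) (hε' : ¬ IsSquare (-ε)) (h2 : (2 : F) ≠ 0)
    {T : ℕ} (hT : 5 ≤ T) {P : F[X] × F[X] × F[X]} (hP : Ok T P) {S : Finset (F × F × F)}
    (h : 4 < S.card) : finrank F (Ann ε P S) ≤ 3 := by
  by_contra hc
  replace hc := not_le.1 hc
  apply not_le.2 h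
  by_cases hx : ∃ x₀, ∀ p ∈ S, p.1 = x₀
  · obtain ⟨x₀, hx⟩ := hx
    refine (fib_card hε hε' h2 (P := P) hx False fun a₁ a₂ a₄ a₅ => ?_).2
    obtain ⟨m, hm, m0, e⟩ := pick _ hc
      ![![1, 0, 0, 0, 0, 0], ![0, 0, 0, 1, 0, 0], ![0, a₁, a₂, 0, a₄, a₅]]
    have e0 := e 0
    have e1 := e 1
    have e2 := e 2
    simp [dotProduct, Fin.sum_univ_six] at e0 e1 e2
    refine ⟨m, hm, ?_, e2, False.elim⟩
    by_contra hc
    push Not at hc
    exact m0 (vec_zero e0 hc.1 hc.2.1 e1 hc.2.2.1 hc.2.2.2)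
  · refine (non_card hε hε' h2 hT hP hx True fun u u' => ?_).1 trivial
    obtain ⟨m, hm, m0, e⟩ := pick _ hc ![u, u', ![0, 0, 0, 0, 0, 1]]
    have e2 := e 2
    simp [dotProduct, Fin.sum_univ_six] at e2
    exact ⟨m, hm, m0, e 0, e 1, fun _ => e2⟩

/-- the embedding into six dimensions -/
def Phi (ε : F) (P : F[X] × F[X] × F[X]) (p : F × F × F) : Fin 6 → F :=
  ![p.1, p.2.1, p.2.2, p.1 ^ 2, vv ε p.1 p.2.1 p.2.2, hh ε P p.1 p.2.1 p.2.2]

/-- the pairing -/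
def pr (ε : F) (P P' : F[X] × F[X] × F[X]) (p q : F × F × F) : F :=
  hh ε P p.1 p.2.1 p.2.2 * q.1 + p.2.1 * q.2.1 + p.2.2 * q.2.2 + p.1 ^ 2 * q.1 ^ 2 +
    vv ε p.1 p.2.1 p.2.2 * vv ε q.1 q.2.1 q.2.2 + p.1 * hh ε P' q.1 q.2.1 q.2.2

theorem pr_comm (ε : F) (P P' : F[X] × F[X] × F[X]) (p q : F × F × F) :
    pr ε P P' p q = pr ε P' P q p := by
  unfold pr; ring

theorem free {ε : F} (hε : ¬ IsSquare ε) (hε' : ¬ IsSquare (-ε)) (h2 : (2 : F) ≠ 0)
    {T : ℕ} (hT : 5 ≤ T) {P P' : F[X] × F[X] × F[X]} (hP : Ok T P) (hP' : Ok T P')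
    {S S' : Finset (F × F × F)} (z z' : F × F × F → F)
    (h : ∀ p ∈ S, ∀ q ∈ S', z p + z' q = pr ε P P' p q) (hS : 4 < S.card) :
    S'.card ≤ 2 * T := by
  by_contra hc
  replace hc := not_le.1 hc
  obtain ⟨p₀, hp₀⟩ : S.Nonempty := card_pos.1 (by omega)
  let D₀ : Submodule F (Fin 6 → F) :=
    Submodule.span F ((fun p => Phi ε P p - Phi ε P p₀) '' (S : Set (F × F × F)))
  let sw : (Fin 6 → F) ≃ₗ[F] (Fin 6 → F) := LinearEquiv.funCongrLeft F F (Equiv.swap 0 5)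
  have hsw : ∀ a : Fin 6 → F, sw a = ![a 5, a 1, a 2, a 3, a 4, a 0] := by
    intro a
    funext i
    fin_cases i <;> rfl
  let B : LinearMap.BilinForm F (Fin 6 → F) := dotProductBilin F F
  have a1 : B.orthogonal D₀ ≤ Ann ε P S := by
    intro m hm
    refine ⟨Phi ε P p₀ ⬝ᵥ m, fun p hp => ?_⟩
    have : (Phi ε P p - Phi ε P p₀) ⬝ᵥ m = 0 := hm _ (Submodule.subset_span ⟨p, hp, rfl⟩)
    simp [dotProduct, Fin.sum_univ_six, Phi] at this ⊢
    linear_combination this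
  have a2 : D₀.map sw.toLinearMap ≤ Ann ε P' S' := by
    rw [Submodule.map_span_le]
    rintro _ ⟨p, hp, rfl⟩
    refine ⟨z p - z p₀, fun q hq => ?_⟩
    have e1 := h p hp q hq
    have e2 := h p₀ hp₀ q hq
    simp only [LinearEquiv.coe_coe, hsw]
    simp [Phi, pr] at e1 e2 ⊢
    linear_combination e2 - e1
  have a3 := LinearMap.BilinForm.finrank_add_finrank_orthogonal' (B := B) D₀
  have a4 : finrank F (D₀.map sw.toLinearMap) = finrank F D₀ := LinearEquiv.finrank_map_eq _ _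
  have b1 := ann_le hε hε' h2 hT hP hS
  have b2 := ann_le hε hε' h2 hT hP' (S := S') (by omega)
  have b3 := Submodule.finrank_mono a1
  have b4 := Submodule.finrank_mono a2
  simp only [finrank_fintype_fun_eq_card, Fintype.card_fin] at a3
  have c1 : D₀.map sw.toLinearMap = Ann ε P' S' := Submodule.eq_of_le_of_finrank_le a2 (by omega)
  have c2 : B.orthogonal D₀ = Ann ε P S := Submodule.eq_of_le_of_finrank_le a1 (by omega)
  have c3 : ∃ x₀, ∀ q ∈ S', q.1 = x₀ := by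
    by_contra hx
    refine not_le.2 hc (non_card hε hε' h2 hT hP' hx False fun u u' => ?_).2
    obtain ⟨m, hm, m0, e⟩ := pick (Ann ε P' S') (k := 2) (by omega) ![u, u']
    exact ⟨m, hm, m0, e 0, e 1, False.elim⟩
  obtain ⟨x₀, hx₀⟩ := c3
  have d1 : ∀ a ∈ Ann ε P' S', ∀ m ∈ Ann ε P S, ![a 5, a 1, a 2, a 3, a 4, a 0] ⬝ᵥ m = 0 := by
    intro a ha m hm
    rw [← c1] at ha
    rw [← c2] at hm
    obtain ⟨b, hb, rfl⟩ := ha
    have : b ⬝ᵥ m = 0 := hm b hb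
    simp only [LinearEquiv.coe_coe, hsw]
    simpa [dotProduct, Fin.sum_univ_six] using this
  have d2 : ∀ m ∈ Ann ε P S, m 5 = 0 := fun m hm => by
    simpa [dotProduct, Fin.sum_univ_six] using
      d1 ![1, 0, 0, 0, 0, 0] ⟨x₀, fun q hq => by simp [hx₀ q hq]⟩ m hm
  have d3 : ∀ m ∈ Ann ε P S, m 3 = 0 := fun m hm => by
    simpa [dotProduct, Fin.sum_univ_six] using
      d1 ![0, 0, 0, 1, 0, 0] ⟨x₀ ^ 2, fun q hq => by simp [hx₀ q hq]⟩ m hm
  refine not_le.2 hS ((non_card hε hε' h2 hT hP ?_ True fun u u' => ?_).1 trivial)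
  · rintro ⟨x₁, hx₁⟩
    simpa using d3 ![0, 0, 0, 1, 0, 0] ⟨x₁ ^ 2, fun q hq => by simp [hx₁ q hq]⟩
  · obtain ⟨m, hm, m0, e⟩ := pick (Ann ε P S) (k := 2) (by omega) ![u, u']
    exact ⟨m, hm, m0, e 0, e 1, fun _ => d2 m hm⟩

/-- three equations solved for the last three coordinates -/
def Gr (ε : F) (P : F[X] × F[X] × F[X]) (S : Finset (F × F × F)) (L : Fin 3 → F × F × F) : Prop :=
  Eqn ε P S ![-(L 0).1, -(L 0).2.1, -(L 0).2.2, 1, 0, 0] ∧
  Eqn ε P S ![-(L 1).1, -(L 1).2.1, -(L 1).2.2, 0, 1, 0] ∧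
  Eqn ε P S ![-(L 2).1, -(L 2).2.1, -(L 2).2.2, 0, 0, 1]

theorem Gr.unique {ε : F} (hε : ¬ IsSquare ε) (hε' : ¬ IsSquare (-ε)) (h2 : (2 : F) ≠ 0)
    {T : ℕ} (hT : 5 ≤ T) {P : F[X] × F[X] × F[X]} (hP : Ok T P) {S : Finset (F × F × F)}
    (hS : 4 < S.card) {L L' : Fin 3 → F × F × F} (h : Gr ε P S L) (h' : Gr ε P S L') : L = L' := by
  have key : ∀ n ∈ Ann ε P S, n 3 = 0 → n 4 = 0 → n 5 = 0 → n = 0 := by
    intro n hn n3 n4 n5
    by_contra h0
    let v : Fin 4 → Fin 6 → F := ![n, ![-(L 0).1, -(L 0).2.1, -(L 0).2.2, 1, 0, 0],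
      ![-(L 1).1, -(L 1).2.1, -(L 1).2.2, 0, 1, 0], ![-(L 2).1, -(L 2).2.1, -(L 2).2.2, 0, 0, 1]]
    have hv : LinearIndependent F v := by
      rw [Fintype.linearIndependent_iff]
      intro g hg
      have e3 := congrFun hg 3
      have e4 := congrFun hg 4
      have e5 := congrFun hg 5
      simp [v, Fin.sum_univ_four, n3, n4, n5] at e3 e4 e5
      simp [v, Fin.sum_univ_four, e3, e4, e5, h0] at hg
      intro i
      fin_cases i <;> assumption
    have a1 : Submodule.span F (Set.range v) ≤ Ann ε P S := by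
      rw [Submodule.span_le]
      rintro _ ⟨i, rfl⟩
      fin_cases i
      · exact hn
      · exact h.1
      · exact h.2.1
      · exact h.2.2
    have a2 := Submodule.finrank_mono a1
    rw [finrank_span_eq_card hv, Fintype.card_fin] at a2
    have := ann_le hε hε' h2 hT hP hS
    omega
  have k0 := key _ (sub_mem (show _ ∈ Ann ε P S from h.1) h'.1) (by simp) (by simp) (by simp)
  have k1 := key _ (sub_mem (show _ ∈ Ann ε P S from h.2.1) h'.2.1) (by simp) (by simp) (by simp)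
  have k2 := key _ (sub_mem (show _ ∈ Ann ε P S from h.2.2) h'.2.2) (by simp) (by simp) (by simp)
  rw [sub_eq_zero] at k0 k1 k2
  funext i
  fin_cases i
  · exact Prod.ext (neg_injective (congrFun k0 0))
      (Prod.ext (neg_injective (congrFun k0 1)) (neg_injective (congrFun k0 2)))
  · exact Prod.ext (neg_injective (congrFun k1 0))
      (Prod.ext (neg_injective (congrFun k1 1)) (neg_injective (congrFun k1 2)))
  · exact Prod.ext (neg_injective (congrFun k2 0))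
      (Prod.ext (neg_injective (congrFun k2 1)) (neg_injective (congrFun k2 2)))

end Pool.Agent.MP_80dd36_co.Five

end
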